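import Pool.Agent.W800.AC.StabH

set_option autoImplicit false
open MeasureTheory Filter Topology Set Metric
open scoped ContDiff

namespace Pool.Agent.W800.AC

/-- parameters with a radial solution -/
def SS (n : ℕ) (B K : ℝ) : Set ℝ := {l | 0 < l ∧ ∃ U, RadSol n B K l U}

/-- the extremal parameter -/
noncomputable def Lam (n : ℕ) (B K : ℝ) : ℝ := sSup (SS n B K)

section
variable {n : ℕ} {B K : ℝ}

theorem Lr_add_mul {U φ : ℝ → ℝ} (hU : ContDiff ℝ 2 U) (hφ : ContDiff ℝ 2 φ) (c s : ℝ) :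
    Lr n B (fun t => U t + c * φ t) s = Lr n B U s + c * Lr n B φ s := by
  have hU1 : ContDiff ℝ 1 (deriv U) := by
    have := (contDiff_succ_iff_deriv (n := 1) (f := U)).1 (by
      rw [show ((1 : WithTop ℕ∞) + 1) = 2 by norm_num]; exact hU)
    exact this.2.2
  have hφ1 : ContDiff ℝ 1 (deriv φ) := by
    have := (contDiff_succ_iff_deriv (n := 1) (f := φ)).1 (by
      rw [show ((1 : WithTop ℕ∞) + 1) = 2 by norm_num]; exact hφ)
    exact this.2.2
  have e1 : deriv (fun t => U t + c * φ t) = fun t => deriv U t + c * deriv φ t := by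
    funext t
    exact ((hU.differentiable (by norm_num) t).hasDerivAt.add
      ((hφ.differentiable (by norm_num) t).hasDerivAt.const_mul c)).deriv
  have e2 : deriv (deriv (fun t => U t + c * φ t)) s = deriv (deriv U) s + c * deriv (deriv φ) s := by
    rw [e1]
    exact ((hU1.differentiable (by norm_num) s).hasDerivAt.add
      ((hφ1.differentiable (by norm_num) s).hasDerivAt.const_mul c)).deriv
  unfold Lr
  rw [e2, e1]
  ring

theorem SS_nonempty (hn : 3 ≤ n) (hB : 0 ≤ B) (hK : 0 ≤ K) : (SS n B K).Nonempty := by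
  have hnr : (3 : ℝ) ≤ n := by exact_mod_cast hn
  have hf : 1 ≤ ff K (1 / 2) := one_le_ff hK (by norm_num) (by norm_num)
  set l : ℝ := 1 / ff K (1 / 2) with hl
  have hl0 : 0 < l := by positivity
  have hd : deriv (fun s : ℝ => 1 / 2 - s / 4) = fun _ => -(1 / 4) := by
    funext s
    have : HasDerivAt (fun s : ℝ => 1 / 2 - s / 4) (-(1 / 4)) s :=
      ((hasDerivAt_id s).div_const 4).const_sub (1 / 2)
    exact this.deriv
  obtain ⟨U, hU, -⟩ := exists_of_super (n := n) (B := B) (K := K) (l := l) hn hB hK hl0.le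
    (V := fun s => 1 / 2 - s / 4) (contDiff_const.sub (contDiff_id.div_const 4))
    (fun s hs => by
      have := hs.2
      show (0 : ℝ) ≤ 1 / 2 - s / 4
      linarith)
    (fun s hs => by
      have := hs.1
      show 1 / 2 - s / 4 < (1 : ℝ)
      linarith)
    (fun s hs => by
      unfold Lr
      rw [hd]
      simp only [deriv_const']
      have h1 : ff K (1 / 2 - s / 4) ≤ ff K (1 / 2) :=
        ff_mono hK (by linarith [hs.1]) (by norm_num)
      have h2 : l * ff K (1 / 2 - s / 4) ≤ l * ff K (1 / 2) := mul_le_mul_of_nonneg_left h1 hl0.le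
      have h3 : l * ff K (1 / 2) = 1 := by
        rw [hl]; field_simp
      have h4 : 0 ≤ B * s := mul_nonneg hB hs.1
      linarith)
  exact ⟨l, hl0, U, hU⟩

theorem SS_down (hn : 3 ≤ n) (hB : 0 ≤ B) (hK : 0 ≤ K) {l l' : ℝ} (h : l ∈ SS n B K)
    (h0 : 0 < l') (hle : l' ≤ l) : l' ∈ SS n B K := by
  obtain ⟨-, U, hU⟩ := h
  obtain ⟨U', hU', -⟩ := exists_of_super (l := l') hn hB hK h0.le hU.c2 hU.nonneg hU.lt_one
    (fun s hs => by
      rw [hU.eq s hs]
      have := one_le_ff hK (hU.nonneg s hs) (hU.lt_one s hs)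
      exact mul_le_mul_of_nonneg_right hle (by linarith))
  exact ⟨h0, U', hU'⟩

theorem Th_pos (hn : 3 ≤ n) (hB : 0 ≤ B) {s : ℝ} (hs : 0 < s) : 0 < Th n B s := by
  have hnr : (3 : ℝ) ≤ n := by exact_mod_cast hn
  unfold Th
  have hc : Continuous fun σ : ℝ => 1 / (2 * ((n : ℝ) + B * |σ|)) := by
    refine Continuous.div (by fun_prop) (by fun_prop) fun σ => ?_
    have := mul_nonneg hB (abs_nonneg σ)
    positivity
  refine intervalIntegral.intervalIntegral_pos_of_pos (hc.intervalIntegrable _ _) (fun σ => ?_) hs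
  have := mul_nonneg hB (abs_nonneg σ)
  positivity

theorem SS_bdd (hn : 3 ≤ n) (hB : 0 ≤ B) (hK : 0 ≤ K) : BddAbove (SS n B K) := by
  refine ⟨1 / Th n B 1, fun l hl => ?_⟩
  obtain ⟨h0, U, hU⟩ := hl
  rw [le_div_iff₀ (Th_pos hn hB one_pos)]
  exact hU.l_le hn hB hK h0.le

theorem Lam_pos (hn : 3 ≤ n) (hB : 0 ≤ B) (hK : 0 ≤ K) : 0 < Lam n B K := by
  obtain ⟨l, hl⟩ := SS_nonempty hn hB hK
  exact lt_of_lt_of_le hl.1 (le_csSup (SS_bdd hn hB hK) hl)

theorem mem_SS (hn : 3 ≤ n) (hB : 0 ≤ B) (hK : 0 ≤ K) {l : ℝ} (h0 : 0 < l) (h1 : l < Lam n B K) :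
    l ∈ SS n B K := by
  obtain ⟨l', hl', hlt⟩ := exists_lt_of_lt_csSup (SS_nonempty hn hB hK) h1
  exact SS_down hn hB hK hl' h0 hlt.le

/-- the continuation step -/
theorem extend (hn : 3 ≤ n) (hB : 0 ≤ B) (hK : 0 < K) (hst : StabHyp n B K) {δ l0 : ℝ}
    (hδ : 0 < δ) (hl0 : 0 < l0) :
    ∃ ε > 0, ∀ (l : ℝ) (U : ℝ → ℝ), l0 ≤ l → RadSol n B K l U →
      (∀ s ∈ Icc (0 : ℝ) 1, U s ≤ 1 - δ) → l + ε ∈ SS n B K := by
  obtain ⟨φ, hφ, hφ0, hφs⟩ := hst δ hδ
  have hne : (Icc (0 : ℝ) 1).Nonempty := ⟨0, le_rfl, zero_le_one⟩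
  obtain ⟨a, ha, hmin⟩ := isCompact_Icc.exists_isMinOn hne hφ.continuous.continuousOn
  obtain ⟨b, hb, hmax⟩ := isCompact_Icc.exists_isMaxOn hne hφ.continuous.continuousOn
  have hpm := hφ0 a
  have hpM := hφ0 b
  set pm := φ a
  set pM := φ b
  set σ : ℝ := δ / (3 * pM) with hσ
  have hσ0 : 0 < σ := by positivity
  have hσM : σ * pM = δ / 3 := by rw [hσ]; field_simp
  by_cases hδ1 : δ ≤ 1
  · set M : ℝ := ff K (1 - δ / 2) with hM
    have hM1 : 1 ≤ M := one_le_ff hK.le (by linarith) (by linarith)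
    set η : ℝ := 1 / 2 * σ * l0 * K * pm with hη
    have hη0 : 0 < η := by positivity
    refine ⟨η / M, by positivity, fun l U hl hU hUδ => ?_⟩
    have hlpos : 0 < l := lt_of_lt_of_le hl0 hl
    have hst' := hφs l U hlpos hU hUδ
    have hx : ∀ s ∈ Icc (0 : ℝ) 1, σ * φ s ≤ δ / 3 := fun s hs => by
      rw [← hσM]; exact mul_le_mul_of_nonneg_left (hmax hs) hσ0.le
    obtain ⟨U', hU', -⟩ := exists_of_super (l := l + η / M) (n := n) (B := B) (K := K) hn hB hK.le
      (by positivity) (V := fun s => U s + σ * φ s) (hU.c2.add (contDiff_const.mul hφ))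
      (fun s hs => add_nonneg (hU.nonneg s hs) (mul_pos hσ0 (hφ0 s)).le)
      (fun s hs => by
        have h1 := hUδ s hs
        have h2 := hx s hs
        show U s + σ * φ s < 1
        linarith)
      (fun s hs => by
        rw [Lr_add_mul hU.c2 hφ, hU.eq s hs]
        have h1 := hUδ s hs
        have h2 := hx s hs
        have h3 := hst' s hs
        have h4 : 0 < φ s := hφ0 s
        have hU0 := hU.nonneg s hs
        have hu : 0 < 1 - U s := by linarith
        -- `f(U + x) ≤ f(U) + 3/2 K x/(1-U)`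
        have h5 : ff K (U s + σ * φ s) ≤ ff K (U s) + 3 / 2 * (K / (1 - U s)) * (σ * φ s) := by
          unfold ff
          have hv : 0 < 1 - (U s + σ * φ s) := by linarith
          have h6 : Real.log (1 - U s) - Real.log (1 - (U s + σ * φ s)) ≤
              (1 - U s) / (1 - (U s + σ * φ s)) - 1 := by
            rw [← Real.log_div hu.ne' hv.ne']
            exact Real.log_le_sub_one_of_pos (by positivity)
          have h7 : (1 - U s) / (1 - (U s + σ * φ s)) - 1 ≤ 3 / 2 * (1 / (1 - U s)) * (σ * φ s) := by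
            have h8 : (1 - U s) / (1 - (U s + σ * φ s)) - 1 = (σ * φ s) / (1 - (U s + σ * φ s)) := by
              field_simp
              ring
            rw [h8]
            have h9 : 1 / (1 - (U s + σ * φ s)) ≤ 3 / 2 * (1 / (1 - U s)) := by
              rw [div_le_iff₀ hv]
              have h10 : 2 / 3 * (1 - U s) ≤ 1 - (U s + σ * φ s) := by linarith
              calc (1 : ℝ) = 3 / 2 * (1 / (1 - U s)) * (2 / 3 * (1 - U s)) := by field_simp
                _ ≤ 3 / 2 * (1 / (1 - U s)) * (1 - (U s + σ * φ s)) :=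
                  mul_le_mul_of_nonneg_left h10 (by positivity)
            calc (σ * φ s) / (1 - (U s + σ * φ s)) = (1 / (1 - (U s + σ * φ s))) * (σ * φ s) := by ring
              _ ≤ 3 / 2 * (1 / (1 - U s)) * (σ * φ s) :=
                mul_le_mul_of_nonneg_right h9 (by positivity)
          have h11 : K * (Real.log (1 - U s) - Real.log (1 - (U s + σ * φ s))) ≤
              K * (3 / 2 * (1 / (1 - U s)) * (σ * φ s)) :=
            mul_le_mul_of_nonneg_left (h6.trans h7) hK.le
          have h12 : K * (3 / 2 * (1 / (1 - U s)) * (σ * φ s)) =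
              3 / 2 * (K / (1 - U s)) * (σ * φ s) := by ring
          linarith
        have h13 : ff K (U s + σ * φ s) ≤ M := ff_mono hK.le (by linarith) (by linarith)
        have h14 : η / M * ff K (U s + σ * φ s) ≤ η := by
          calc η / M * ff K (U s + σ * φ s) ≤ η / M * M :=
                mul_le_mul_of_nonneg_left h13 (by positivity)
            _ = η := by field_simp
        have h15 : l * ff K (U s + σ * φ s) ≤ l * ff K (U s) + l * (3 / 2 * (K / (1 - U s)) * (σ * φ s)) := by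
          have := mul_le_mul_of_nonneg_left h5 hlpos.le
          linarith
        have h16 : σ * (2 * (l * (K / (1 - U s))) * φ s) ≤ σ * Lr n B φ s :=
          mul_le_mul_of_nonneg_left h3 hσ0.le
        have h17 : η ≤ 1 / 2 * (l * (K / (1 - U s)) * (σ * φ s)) := by
          have h18 : K ≤ K / (1 - U s) := by
            rw [le_div_iff₀ hu]; nlinarith
          have h19 : l0 * K ≤ l * (K / (1 - U s)) := mul_le_mul hl h18 hK.le hlpos.le
          have h20 : σ * pm ≤ σ * φ s := mul_le_mul_of_nonneg_left (hmin hs) hσ0.le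
          have h21 : l0 * K * (σ * pm) ≤ l * (K / (1 - U s)) * (σ * φ s) :=
            mul_le_mul h19 h20 (by positivity) (by positivity)
          rw [hη]
          linarith
        show (l + η / M) * ff K (U s + σ * φ s) ≤ l * ff K (U s) + σ * Lr n B φ s
        linarith)
    exact ⟨by positivity, U', hU'⟩
  · -- impossible case
    refine ⟨1, one_pos, fun l U hl hU hUδ => ?_⟩
    exfalso
    have h1 := hUδ 0 ⟨le_rfl, zero_le_one⟩
    have h2 := hU.nonneg 0 ⟨le_rfl, zero_le_one⟩
    rw [not_le] at hδ1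
    linarith

/-- solutions approach `1` as the parameter approaches the extremal value -/
theorem blowup (hn : 3 ≤ n) (hB : 0 ≤ B) (hK : 0 < K) (hst : StabHyp n B K) {δ : ℝ} (hδ : 0 < δ) :
    ∃ l1, 0 < l1 ∧ l1 < Lam n B K ∧ ∀ (l : ℝ) (U : ℝ → ℝ), l1 < l → RadSol n B K l U →
      1 - δ < U 0 := by
  have hL := Lam_pos hn hB hK.le
  obtain ⟨ε, hε, hext⟩ := extend hn hB hK hst hδ (l0 := Lam n B K / 2) (by positivity)
  refine ⟨max (Lam n B K / 2) (Lam n B K - ε), lt_of_lt_of_le (by positivity) (le_max_left _ _),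
    max_lt (by linarith) (by linarith), fun l U hl hU => ?_⟩
  by_contra hcon
  rw [not_lt] at hcon
  have h1 : Lam n B K / 2 ≤ l := (le_max_left _ _).trans hl.le
  have h0 : 0 < l := lt_of_lt_of_le (by positivity) h1
  have hanti := hU.antitone hn hK.le h0.le
  have h2 := hext l U h1 hU fun s hs =>
    (hanti ⟨le_rfl, zero_le_one⟩ hs hs.1).trans hcon
  have h3 := le_csSup (SS_bdd hn hB hK.le) h2
  have h4 : Lam n B K - ε < l := lt_of_le_of_lt (le_max_right _ _) hl
  unfold Lam at h4
  linarith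

end

end Pool.Agent.W800.AC
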