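import Pool.Agent.W800.AC.Lap

set_option autoImplicit false
open MeasureTheory Filter Topology Set Metric Laplacian InnerProductSpace
open scoped ContDiff

namespace Pool.Agent.W800.AC

open Pool.Agent.H947R3

/-! ### cut-off functions of one variable -/

noncomputable def Tf (ε t : ℝ) : ℝ := (max t ε - ε) ^ 2 / max t ε
noncomputable def dTf (ε t : ℝ) : ℝ := 1 - ε ^ 2 / (max t ε) ^ 2
noncomputable def Pf (ε t : ℝ) : ℝ :=
  max t ε + 2 * ε ^ 2 / max t ε - ε ^ 4 / (3 * (max t ε) ^ 3) - 8 * ε / 3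
noncomputable def ddf (ε t : ℝ) : ℝ :=
  4 * (1 - ε ^ 2 / (max t ε) ^ 2) * (ε ^ 2 / (max t ε) ^ 3)
noncomputable def qf (ε t : ℝ) : ℝ := 1 - ε / max t ε
noncomputable def Gf (ε t : ℝ) : ℝ := ∫ s in (0 : ℝ)..t, (qf ε s) ^ 3

section
variable {ε : ℝ}

theorem hasDerivAt_Tf (hε : 0 < ε) (t : ℝ) : HasDerivAt (Tf ε) (dTf ε t) t := by
  refine hasDerivAt_comp_max (G := fun m => (m - ε) ^ 2 / m) (G' := fun m => 1 - ε ^ 2 / m ^ 2)
    (fun m hm => ?_) ?_ t
  · have hm0 : 0 < m := lt_of_lt_of_le hε hm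
    have h1 : HasDerivAt (fun m : ℝ => (m - ε) ^ 2) (2 * (m - ε)) m := by
      have := ((hasDerivAt_id m).sub_const ε).pow 2
      refine this.congr_deriv ?_
      simp
    have h2 := h1.div (hasDerivAt_id m) hm0.ne'
    refine h2.congr_deriv ?_
    simp only [id]
    field_simp
    ring
  · show 1 - ε ^ 2 / ε ^ 2 = 0
    rw [div_self (by positivity), sub_self]

theorem hasDerivAt_Pf (hε : 0 < ε) (t : ℝ) : HasDerivAt (Pf ε) ((dTf ε t) ^ 2) t := by
  refine hasDerivAt_comp_max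
    (G := fun m => m + 2 * ε ^ 2 / m - ε ^ 4 / (3 * m ^ 3) - 8 * ε / 3)
    (G' := fun m => (1 - ε ^ 2 / m ^ 2) ^ 2) (fun m hm => ?_) ?_ t
  · have hm0 : 0 < m := lt_of_lt_of_le hε hm
    have h1 : HasDerivAt (fun m : ℝ => 2 * ε ^ 2 / m) (-(2 * ε ^ 2) / m ^ 2) m := by
      have := (hasDerivAt_const m (2 * ε ^ 2)).div (hasDerivAt_id m) hm0.ne'
      refine this.congr_deriv ?_
      simp only [id]
      ring
    have h2 : HasDerivAt (fun m : ℝ => 3 * m ^ 3) (9 * m ^ 2) m := by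
      have := (hasDerivAt_pow 3 m).const_mul 3
      refine this.congr_deriv ?_
      push_cast; ring
    have h3 : HasDerivAt (fun m : ℝ => ε ^ 4 / (3 * m ^ 3)) (-(ε ^ 4) / m ^ 4) m := by
      have := (hasDerivAt_const m (ε ^ 4)).div h2 (by positivity)
      refine this.congr_deriv ?_
      field_simp
      ring
    have h4 := (((hasDerivAt_id m).add h1).sub h3).sub_const (8 * ε / 3)
    refine h4.congr_deriv ?_
    field_simp
    ring
  · show (1 - ε ^ 2 / ε ^ 2) ^ 2 = 0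
    rw [div_self (by positivity), sub_self]
    norm_num

theorem hasDerivAt_dTf_sq (hε : 0 < ε) (t : ℝ) :
    HasDerivAt (fun t => (dTf ε t) ^ 2) (ddf ε t) t := by
  refine hasDerivAt_comp_max
    (G := fun m => (1 - ε ^ 2 / m ^ 2) ^ 2)
    (G' := fun m => 4 * (1 - ε ^ 2 / m ^ 2) * (ε ^ 2 / m ^ 3)) (fun m hm => ?_) ?_ t
  · have hm0 : 0 < m := lt_of_lt_of_le hε hm
    have h2 : HasDerivAt (fun m : ℝ => m ^ 2) (2 * m) m := by
      have := (hasDerivAt_pow 2 m)
      refine this.congr_deriv ?_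
      push_cast; ring
    have h3 : HasDerivAt (fun m : ℝ => ε ^ 2 / m ^ 2) (-(2 * ε ^ 2) / m ^ 3) m := by
      have := (hasDerivAt_const m (ε ^ 2)).div h2 (by positivity)
      refine this.congr_deriv ?_
      field_simp
      ring
    have h4 := (h3.const_sub 1).pow 2
    refine h4.congr_deriv ?_
    simp only [Nat.cast_ofNat]
    ring
  · show 4 * (1 - ε ^ 2 / ε ^ 2) * (ε ^ 2 / ε ^ 3) = 0
    rw [div_self (by positivity)]
    ring

theorem continuous_max : Continuous fun t : ℝ => max t ε := by fun_prop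

theorem max_pos (hε : 0 < ε) (t : ℝ) : 0 < max t ε := lt_max_of_lt_right hε

theorem continuous_qf (hε : 0 < ε) : Continuous (qf ε) := by
  unfold qf
  exact continuous_const.sub (continuous_const.div (by fun_prop) fun t => (max_pos hε t).ne')

theorem continuous_dTf (hε : 0 < ε) : Continuous (dTf ε) := by
  unfold dTf
  exact continuous_const.sub (continuous_const.div (by fun_prop)
    fun t => by have := max_pos hε t; positivity)

theorem continuous_ddf (hε : 0 < ε) : Continuous (ddf ε) := by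
  unfold ddf
  refine (continuous_const.mul (continuous_const.sub (continuous_const.div (by fun_prop)
    fun t => ?_))).mul (continuous_const.div (by fun_prop) fun t => ?_)
  · have := max_pos hε t; positivity
  · have := max_pos hε t; positivity

theorem hasDerivAt_Gf (hε : 0 < ε) (t : ℝ) : HasDerivAt (Gf ε) ((qf ε t) ^ 3) t := by
  have hc : Continuous fun s => (qf ε s) ^ 3 := (continuous_qf hε).pow 3
  exact intervalIntegral.integral_hasDerivAt_right (hc.intervalIntegrable _ _)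
    (hc.stronglyMeasurableAtFilter _ _) hc.continuousAt

theorem qf_nonneg (hε : 0 < ε) (t : ℝ) : 0 ≤ qf ε t := by
  unfold qf
  have h1 := max_pos hε t
  have : ε / max t ε ≤ 1 := (div_le_one h1).2 (le_max_right _ _)
  linarith

theorem qf_le (hε : 0 < ε) (t : ℝ) : qf ε t ≤ 1 := by
  unfold qf
  have h1 := max_pos hε t
  have : 0 ≤ ε / max t ε := by positivity
  linarith

theorem dTf_nonneg (hε : 0 < ε) (t : ℝ) : 0 ≤ dTf ε t := by
  unfold dTf
  have h1 := max_pos hε t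
  have : ε ^ 2 / (max t ε) ^ 2 ≤ 1 :=
    (div_le_one (by positivity)).2 (pow_le_pow_left₀ hε.le (le_max_right _ _) 2)
  linarith

theorem dTf_le (hε : 0 < ε) (t : ℝ) : dTf ε t ≤ 1 := by
  unfold dTf
  have h1 := max_pos hε t
  have : 0 ≤ ε ^ 2 / (max t ε) ^ 2 := by positivity
  linarith

theorem ddf_nonneg (hε : 0 < ε) (t : ℝ) : 0 ≤ ddf ε t := by
  have h1 := max_pos hε t
  have := dTf_nonneg hε t
  unfold dTf at this
  unfold ddf
  positivity

theorem Tf_zero {t : ℝ} (ht : t ≤ ε) : Tf ε t = 0 := by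
  unfold Tf
  rw [max_eq_right ht]
  simp

theorem dTf_zero (hε : 0 < ε) {t : ℝ} (ht : t ≤ ε) : dTf ε t = 0 := by
  unfold dTf
  rw [max_eq_right ht, div_self (by positivity), sub_self]

theorem Pf_zero (hε : 0 < ε) {t : ℝ} (ht : t ≤ ε) : Pf ε t = 0 := by
  unfold Pf
  rw [max_eq_right ht]
  field_simp
  ring

theorem qf_zero (hε : 0 < ε) {t : ℝ} (ht : t ≤ ε) : qf ε t = 0 := by
  unfold qf
  rw [max_eq_right ht, div_self hε.ne', sub_self]

theorem Gf_zero (hε : 0 < ε) {t : ℝ} (h0 : 0 ≤ t) (ht : t ≤ ε) : Gf ε t = 0 := by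
  unfold Gf
  rw [intervalIntegral.integral_congr (g := fun _ => (0 : ℝ))]
  · simp
  · intro s hs
    rw [uIcc_of_le h0] at hs
    simp only
    rw [qf_zero hε (hs.2.trans ht)]
    norm_num

theorem Gf_nonneg (hε : 0 < ε) {t : ℝ} (h0 : 0 ≤ t) : 0 ≤ Gf ε t :=
  intervalIntegral.integral_nonneg h0 fun s _ => pow_nonneg (qf_nonneg hε s) 3

theorem Gf_le (hε : 0 < ε) {t : ℝ} (h0 : 0 ≤ t) : Gf ε t ≤ t := by
  have h1 : Gf ε t ≤ ∫ s in (0 : ℝ)..t, (1 : ℝ) := by
    apply intervalIntegral.integral_mono_on h0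
      (((continuous_qf hε).pow 3).intervalIntegrable _ _) (by simp)
    intro s _
    exact pow_le_one₀ (qf_nonneg hε s) (qf_le hε s)
  simpa using h1

theorem Tf_identity (hε : 0 < ε) (t : ℝ) :
    Tf ε t * dTf ε t - Pf ε t = 2 / 3 * ε * (qf ε t) ^ 3 := by
  have h1 := max_pos hε t
  unfold Tf dTf Pf qf
  generalize max t ε = m at h1
  field_simp
  ring

theorem Tf_nonneg (hε : 0 < ε) (t : ℝ) : 0 ≤ Tf ε t := by
  have h1 := max_pos hε t
  unfold Tf; positivity

theorem Tf_le (hε : 0 < ε) {t : ℝ} (ht : 0 ≤ t) : Tf ε t ≤ t := by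
  by_cases h : t ≤ ε
  · rw [Tf_zero h]; exact ht
  · rw [not_le] at h
    have h0 : 0 < t := hε.trans h
    unfold Tf
    rw [max_eq_left h.le, div_le_iff₀ h0]
    nlinarith

theorem Tf_ge (hε : 0 < ε) (t : ℝ) : t - 2 * ε ≤ Tf ε t := by
  by_cases h : t ≤ ε
  · rw [Tf_zero h]; linarith
  · rw [not_le] at h
    have h0 : 0 < t := hε.trans h
    unfold Tf
    rw [max_eq_left h.le, le_div_iff₀ h0]
    nlinarith [sq_nonneg ε]

theorem Pf_bounds (hε : 0 < ε) {t : ℝ} (ht : 0 ≤ t) : Pf ε t ≤ t ∧ t - 8 / 3 * ε ≤ Pf ε t := by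
  by_cases h : t ≤ ε
  · rw [Pf_zero hε h]; exact ⟨ht, by linarith⟩
  · rw [not_le] at h
    have h0 : 0 < t := hε.trans h
    unfold Pf
    rw [max_eq_left h.le]
    have e1 : ε ^ 4 / (3 * t ^ 3) ≤ 2 * ε ^ 2 / t := by
      rw [div_le_div_iff₀ (by positivity) h0]
      have : ε ^ 2 ≤ t ^ 2 := pow_le_pow_left₀ hε.le h.le 2
      have h3 : 0 ≤ ε ^ 2 * t := by positivity
      nlinarith [mul_le_mul_of_nonneg_left this h3, mul_nonneg h3 (sq_nonneg t)]
    have e2 : 2 * ε ^ 2 / t ≤ 2 * ε := by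
      rw [div_le_iff₀ h0]; nlinarith
    have e3 : 0 ≤ ε ^ 4 / (3 * t ^ 3) := by positivity
    constructor
    · linarith
    · linarith

theorem Pf_nonneg (hε : 0 < ε) {t : ℝ} (ht : 0 ≤ t) : 0 ≤ Pf ε t := by
  have hd : Differentiable ℝ (Pf ε) := fun t => (hasDerivAt_Pf hε t).differentiableAt
  have hm : Monotone (Pf ε) := monotone_of_deriv_nonneg hd fun t => by
    rw [(hasDerivAt_Pf hε t).deriv]; positivity
  have := hm ht
  rwa [Pf_zero hε hε.le] at this

theorem contDiffOn_of_hasDerivAt {G G' : ℝ → ℝ} (h : ∀ t, HasDerivAt G (G' t) t)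
    (hc : Continuous G') (s : Set ℝ) : ContDiffOn ℝ 1 G s := by
  have : ContDiff ℝ 1 G := by
    rw [contDiff_one_iff_deriv]
    refine ⟨fun t => (h t).differentiableAt, ?_⟩
    have : deriv G = G' := funext fun t => (h t).deriv
    rw [this]; exact hc
  exact this.contDiffOn

end

theorem le_of_eps {a b C : ℝ} (h : ∀ ε, 0 < ε → ε < 1 → a ≤ b + C * ε) : a ≤ b := by
  have h1 : Tendsto (fun ε : ℝ => b + C * ε) (𝓝[>] 0) (𝓝 (b + C * 0)) :=
    ((continuous_const.add (continuous_const.mul continuous_id)).tendsto 0).mono_left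
      nhdsWithin_le_nhds
  rw [mul_zero, add_zero] at h1
  refine ge_of_tendsto h1 ?_
  filter_upwards [Ioo_mem_nhdsGT (show (0 : ℝ) < 1 by norm_num)] with ε hε
  exact h ε hε.1 hε.2

end Pool.Agent.W800.AC
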