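import Pool.Agent.W800.AC.Lim

set_option autoImplicit false
open MeasureTheory Filter Topology Set Metric Laplacian InnerProductSpace
open scoped ContDiff

namespace Pool.Agent.W800.AC

open Pool.Agent.H947R3

theorem vol3 (x : E 3) {r : ℝ} (hr : 0 ≤ r) : volume.real (ball x r) = 4 * Real.pi / 3 * r ^ 3 := by
  rw [Measure.real, EuclideanSpace.volume_ball_fin_three, ENNReal.toReal_mul, ENNReal.toReal_pow,
    ENNReal.toReal_ofReal hr, ENNReal.toReal_ofReal (by positivity)]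
  ring

theorem polar3 (f : ℝ → ℝ) :
    ∫ x : E 3, f ‖x‖ = 4 * Real.pi * ∫ y in Ioi (0 : ℝ), y ^ 2 * f y := by
  have h := integral_fun_norm_addHaar (volume : Measure (E 3)) f
  rw [vol3 0 zero_le_one] at h
  rw [h]
  simp
  ring

theorem integral_phi3 :
    ∫ y : E 3, 3 / (4 * Real.pi) * (Real.sqrt (1 + ‖y‖ ^ 2))⁻¹ ^ 5 = 1 := by
  have h := polar3 (fun r => 3 / (4 * Real.pi) * (Real.sqrt (1 + r ^ 2))⁻¹ ^ 5)
  rw [h]
  have hw : ∀ r : ℝ, 0 < Real.sqrt (1 + r ^ 2) := fun r => Real.sqrt_pos.2 (by positivity)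
  have hw2 : ∀ r : ℝ, Real.sqrt (1 + r ^ 2) ^ 2 = 1 + r ^ 2 := fun r => Real.sq_sqrt (by positivity)
  have hder : ∀ r : ℝ, HasDerivAt (fun r => (r * (Real.sqrt (1 + r ^ 2))⁻¹) ^ 3)
      (3 * (r ^ 2 * (Real.sqrt (1 + r ^ 2))⁻¹ ^ 5)) r := by
    intro r
    have h1 : HasDerivAt (fun r : ℝ => 1 + r ^ 2) (2 * r) r := by
      have := (hasDerivAt_pow 2 r).const_add 1
      refine this.congr_deriv ?_
      push_cast; ring
    have h2 := (h1.sqrt (by positivity)).inv (hw r).ne'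
    have h3 := ((hasDerivAt_id r).mul h2).pow 3
    refine h3.congr_deriv ?_
    have := hw r
    have e := hw2 r
    simp only [Pi.mul_apply, id]
    set w := Real.sqrt (1 + r ^ 2) with hwd
    push_cast
    have e1 : (1 * w⁻¹ + r * (-(2 * r / (2 * w)) / w ^ 2)) = w⁻¹ ^ 3 := by
      have : w⁻¹ ^ 3 = (w ^ 2 - r ^ 2) / w ^ 3 := by rw [e]; field_simp; ring
      rw [this]
      field_simp
      ring
    show 3 * (r * w⁻¹) ^ (3 - 1) * (1 * w⁻¹ + r * (-(2 * r / (2 * w)) / w ^ 2)) = _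
    rw [e1]
    norm_num
    ring
  have hlim : Tendsto (fun r : ℝ => (r * (Real.sqrt (1 + r ^ 2))⁻¹) ^ 3) atTop (𝓝 1) := by
    have h1 : Tendsto (fun r : ℝ => r * (Real.sqrt (1 + r ^ 2))⁻¹) atTop (𝓝 1) := by
      have h2 : Tendsto (fun r : ℝ => Real.sqrt (1 + (r⁻¹) ^ 2)) atTop (𝓝 (Real.sqrt (1 + 0 ^ 2))) :=
        ((continuous_const.add (continuous_id.pow 2)).sqrt.tendsto 0).comp tendsto_inv_atTop_zero
      have h3 : Real.sqrt (1 + 0 ^ 2) = 1 := by norm_num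
      rw [h3] at h2
      have h4 := h2.inv₀ one_ne_zero
      rw [inv_one] at h4
      refine h4.congr' ?_
      filter_upwards [eventually_gt_atTop 0] with r hr
      have e1 : Real.sqrt (1 + r ^ 2) = r * Real.sqrt (1 + (r⁻¹) ^ 2) := by
        rw [show 1 + r ^ 2 = r ^ 2 * (1 + (r⁻¹) ^ 2) by field_simp; ring,
          Real.sqrt_mul (by positivity), Real.sqrt_sq hr.le]
      rw [e1, mul_inv, ← mul_assoc, mul_inv_cancel₀ hr.ne', one_mul]
    have := h1.pow 3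
    simpa using this
  have hI := integral_Ioi_of_hasDerivAt_of_nonneg' (a := 0) (fun r _ => hder r)
    (fun r _ => by have := hw r; positivity) hlim
  rw [show ((0 : ℝ) * (Real.sqrt (1 + 0 ^ 2))⁻¹) ^ 3 = 0 by norm_num, sub_zero] at hI
  have e2 : ∀ r : ℝ, r ^ 2 * (3 / (4 * Real.pi) * (Real.sqrt (1 + r ^ 2))⁻¹ ^ 5) =
      1 / (4 * Real.pi) * (3 * (r ^ 2 * (Real.sqrt (1 + r ^ 2))⁻¹ ^ 5)) := fun r => by ring
  simp_rw [e2]
  rw [integral_const_mul, hI]
  have := Real.pi_pos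
  field_simp

theorem ball_int (x0 : E 3) {R h : ℝ} (hR : 0 < R) (hh : 0 < h) :
    ∫ x in ball x0 R, (‖x - x0‖ ^ 2 + h ^ 2)⁻¹ ≤ 4 * Real.pi * R := by
  have e1 : ∫ x in ball x0 R, (‖x - x0‖ ^ 2 + h ^ 2)⁻¹ =
      ∫ x : E 3, (Iio R).indicator (fun r => (r ^ 2 + h ^ 2)⁻¹) ‖x - x0‖ := by
    rw [← integral_indicator measurableSet_ball]
    refine integral_congr_ae (Eventually.of_forall fun x => ?_)
    simp only [indicator, mem_ball, dist_eq_norm, mem_Iio]
  have e2 := integral_sub_right_eq_self (μ := (volume : Measure (E 3)))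
    (fun x => (Iio R).indicator (fun r => (r ^ 2 + h ^ 2)⁻¹) ‖x‖) x0
  rw [e1, e2, polar3]
  have hp := Real.pi_pos
  refine mul_le_mul_of_nonneg_left ?_ (by positivity)
  have e3 : ∫ y in Ioi (0 : ℝ), y ^ 2 * (Iio R).indicator (fun r => (r ^ 2 + h ^ 2)⁻¹) y =
      ∫ y in Ioo (0 : ℝ) R, y ^ 2 * (y ^ 2 + h ^ 2)⁻¹ := by
    rw [← integral_indicator measurableSet_Ioi, ← integral_indicator measurableSet_Ioo]
    refine integral_congr_ae (Eventually.of_forall fun y => ?_)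
    simp only [indicator, mem_Ioi, mem_Iio, mem_Ioo]
    by_cases h0 : 0 < y <;> by_cases h1 : y < R <;> simp [h0, h1]
  rw [e3]
  have e4 : ∫ y in Ioo (0 : ℝ) R, y ^ 2 * (y ^ 2 + h ^ 2)⁻¹ ≤ ∫ _ in Ioo (0 : ℝ) R, (1 : ℝ) := by
    refine setIntegral_mono_on ?_ ?_ measurableSet_Ioo fun y _ => ?_
    · have hc : Continuous fun y : ℝ => y ^ 2 * (y ^ 2 + h ^ 2)⁻¹ :=
        (continuous_id.pow 2).mul (((continuous_id.pow 2).add continuous_const).inv₀
          fun y => by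
            have h1 : 0 ≤ y ^ 2 := sq_nonneg y
            have h2 : 0 < h ^ 2 := by positivity
            show y ^ 2 + h ^ 2 ≠ 0
            linarith)
      exact (hc.integrableOn_Icc (a := 0) (b := R)).mono_set Ioo_subset_Icc_self
    · exact integrableOn_const (by simp)
    · rw [← div_eq_mul_inv, div_le_one (by positivity)]
      have := sq_nonneg h
      linarith
  refine e4.trans ?_
  rw [setIntegral_const]
  simp [hR.le]

/-- the constant `∫ (1+|y|²)^{-4}` -/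
noncomputable def Ce : ℝ := ∫ y : E 3, ((1 + ‖y‖ ^ 2) ^ 4)⁻¹

theorem Ce_nonneg : 0 ≤ Ce := integral_nonneg fun y => by positivity

theorem integrable_Ce (c : ℝ) (hc : c ≠ 0) (x0 : E 3) :
    Integrable (fun x : E 3 => ((1 + c ^ 2 * ‖x - x0‖ ^ 2) ^ 4)⁻¹) := by
  have h1 : Integrable (fun x : E 3 => ((1 + ‖x‖ ^ 2) ^ 4)⁻¹) := by
    have := integrable_rpow_neg_one_add_norm_sq (E := E 3) (μ := volume) (r := 8) (by simp; norm_num)
    refine this.congr (Eventually.of_forall fun x => ?_)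
    simp only
    rw [show (-(8 : ℝ) / 2) = -((4 : ℕ) : ℝ) by norm_num, Real.rpow_neg (by positivity),
      Real.rpow_natCast]
  have h2 := (h1.comp_smul hc).comp_sub_right x0
  refine h2.congr (Eventually.of_forall fun x => ?_)
  simp only [norm_smul, Real.norm_eq_abs, mul_pow, sq_abs]

theorem integral_Ce (c : ℝ) (hc : 0 < c) (x0 : E 3) :
    ∫ x : E 3, ((1 + c ^ 2 * ‖x - x0‖ ^ 2) ^ 4)⁻¹ = (c ^ 3)⁻¹ * Ce := by
  have e2 := integral_sub_right_eq_self (μ := (volume : Measure (E 3)))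
    (fun x => ((1 + c ^ 2 * ‖x‖ ^ 2) ^ 4)⁻¹) x0
  rw [e2]
  have e3 := Measure.integral_comp_smul (volume : Measure (E 3))
    (fun x => ((1 + ‖x‖ ^ 2) ^ 4)⁻¹) c
  rw [show Module.finrank ℝ (E 3) = 3 by simp, abs_of_pos (by positivity), smul_eq_mul] at e3
  unfold Ce
  rw [← e3]
  refine integral_congr_ae (Eventually.of_forall fun x => ?_)
  simp only [norm_smul, Real.norm_eq_abs, mul_pow, sq_abs]

/-! ### elementary inequalities -/

theorem glog_nonneg {t : ℝ} (h0 : 0 ≤ t) (h1 : t < 1) : t ≤ -Real.log (1 - t) := by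
  have := Real.log_le_sub_one_of_pos (show 0 < 1 - t by linarith)
  linarith

theorem two_kk {t : ℝ} (h0 : 0 ≤ t) (h1 : t < 1) : (-Real.log (1 - t)) ^ 2 ≤ 2 * kk t := by
  have hg := h0.trans (glog_nonneg h0 h1)
  have h2 := Real.quadratic_le_exp_of_nonneg hg
  rw [Real.exp_neg, Real.exp_log (by linarith)] at h2
  unfold kk
  have h3 : t / (1 - t) = (1 - t)⁻¹ - 1 := by
    have : (1 : ℝ) - t ≠ 0 := by linarith
    field_simp
    ring
  rw [h3]
  linarith

theorem kk_ge {t : ℝ} (h0 : 0 ≤ t) (h1 : t < 1) : t ^ 2 / 2 ≤ kk t := by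
  have h2 := two_kk h0 h1
  have h3 := glog_nonneg h0 h1
  have h4 : t ^ 2 ≤ (-Real.log (1 - t)) ^ 2 := pow_le_pow_left₀ h0 h3 2
  linarith

theorem glog_le {t : ℝ} (h0 : 0 ≤ t) (h1 : t ≤ 1 / 2) : -Real.log (1 - t) ≤ 2 * t := by
  have h2 : 0 < 1 - t := by linarith
  have h3 := Real.log_le_sub_one_of_pos (show 0 < (1 - t)⁻¹ by positivity)
  rw [Real.log_inv] at h3
  have h4 : (1 - t)⁻¹ - 1 ≤ 2 * t := by
    rw [sub_le_iff_le_add, inv_le_iff_one_le_mul₀ h2]
    nlinarith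
  linarith

/-- pointwise bound for `g²`, `g = -log(1-u)` -/
theorem glog_sq {t δ : ℝ} (h0 : 0 ≤ t) (h1 : t < 1) (hδ : 0 < δ) :
    (-Real.log (1 - t)) ^ 2 ≤ 4 * δ ^ 2 + (8 / δ + 4) * (t * kk t) := by
  have hk := kk_ge h0 h1
  have hk0 : 0 ≤ kk t := le_trans (by positivity) hk
  by_cases ht : t ≤ 1 / 2
  · have h2 := glog_le h0 ht
    have h3 := h0.trans (glog_nonneg h0 h1)
    have h4 : (-Real.log (1 - t)) ^ 2 ≤ (2 * t) ^ 2 := pow_le_pow_left₀ h3 h2 2
    have h5 : t ^ 2 ≤ δ ^ 2 + 2 / δ * (t * kk t) := by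
      by_cases htd : t ≤ δ
      · have : t ^ 2 ≤ δ ^ 2 := pow_le_pow_left₀ h0 htd 2
        have h6 : 0 ≤ 2 / δ * (t * kk t) := by positivity
        linarith
      · rw [not_le] at htd
        have h6 : t ^ 2 ≤ 2 / δ * (t * kk t) := by
          rw [div_mul_eq_mul_div, le_div_iff₀ hδ]
          nlinarith [mul_le_mul_of_nonneg_left hk h0, mul_le_mul_of_nonneg_left htd.le (sq_nonneg t)]
        have := sq_nonneg δ
        linarith
    have h7 : 0 ≤ t * kk t := by positivity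
    have h8 : 8 / δ = 4 * (2 / δ) := by ring
    rw [h8]
    nlinarith
  · rw [not_le] at ht
    have h2 := two_kk h0 h1
    have h3 : 2 * kk t ≤ 4 * (t * kk t) := by nlinarith
    have h4 : 0 ≤ 8 / δ * (t * kk t) := by positivity
    have := sq_nonneg δ
    nlinarith

end Pool.Agent.W800.AC
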