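import Pool.Agent.W800.AC.D3a

set_option autoImplicit false
open MeasureTheory Filter Topology Set Metric Laplacian InnerProductSpace
open scoped ContDiff

namespace Pool.Agent.W800.AC

open Pool.Agent.H947R3

/-! ### the truncated kernel -/

noncomputable def c3 (t : ℝ) : ℝ := (max t 0) ^ 3
noncomputable def dc3 (t : ℝ) : ℝ := 3 * (max t 0) ^ 2
noncomputable def ddc3 (t : ℝ) : ℝ := 6 * (max t 0)

theorem hasDerivAt_c3 (t : ℝ) : HasDerivAt c3 (dc3 t) t := by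
  refine hasDerivAt_comp_max (G := fun m => m ^ 3) (G' := fun m => 3 * m ^ 2) (fun m _ => ?_) ?_ t
  · have := hasDerivAt_pow 3 m
    refine this.congr_deriv ?_
    push_cast; ring
  · norm_num

theorem hasDerivAt_dc3 (t : ℝ) : HasDerivAt dc3 (ddc3 t) t := by
  refine hasDerivAt_comp_max (G := fun m => 3 * m ^ 2) (G' := fun m => 6 * m) (fun m _ => ?_) ?_ t
  · have := (hasDerivAt_pow 2 m).const_mul 3
    refine this.congr_deriv ?_
    push_cast; ring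
  · norm_num

theorem contDiff_c3 : ContDiff ℝ 2 c3 := by
  rw [show (2 : WithTop ℕ∞) = 1 + 1 by norm_num, contDiff_succ_iff_deriv]
  refine ⟨fun t => (hasDerivAt_c3 t).differentiableAt, by simp, ?_⟩
  have e : deriv c3 = dc3 := funext fun t => (hasDerivAt_c3 t).deriv
  rw [e, contDiff_one_iff_deriv]
  refine ⟨fun t => (hasDerivAt_dc3 t).differentiableAt, ?_⟩
  have e : deriv dc3 = ddc3 := funext fun t => (hasDerivAt_dc3 t).deriv
  rw [e]
  unfold ddc3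
  fun_prop

theorem c3_nonneg (t : ℝ) : 0 ≤ c3 t := pow_nonneg (le_max_right _ _) 3

theorem c3_le {t : ℝ} (h : t ≤ 1) : c3 t ≤ 1 :=
  pow_le_one₀ (le_max_right _ _) (max_le h zero_le_one)

/-- `w⁻¹ = (s + h²)^{-1/2}` -/
noncomputable def wi (h s : ℝ) : ℝ := (Real.sqrt (s + h ^ 2))⁻¹

theorem wi_pos {h s : ℝ} (hs : 0 < s + h ^ 2) : 0 < wi h s := by
  unfold wi
  have := Real.sqrt_pos.2 hs
  positivity

theorem wi_sq {h s : ℝ} (hs : 0 < s + h ^ 2) : wi h s ^ 2 = (s + h ^ 2)⁻¹ := by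
  unfold wi
  rw [inv_pow, Real.sq_sqrt hs.le]

theorem hasDerivAt_wi {h s : ℝ} (hs : 0 < s + h ^ 2) :
    HasDerivAt (wi h) (-(1 / 2) * wi h s ^ 3) s := by
  have h1 : HasDerivAt (fun s : ℝ => s + h ^ 2) 1 s := (hasDerivAt_id s).add_const _
  have h0 := Real.sqrt_pos.2 hs
  have h2 := (h1.sqrt hs.ne').inv h0.ne'
  refine h2.congr_deriv ?_
  unfold wi
  field_simp

theorem hasDerivAt_wi3 {h s : ℝ} (hs : 0 < s + h ^ 2) :
    HasDerivAt (fun s => wi h s ^ 3) (-(3 / 2) * wi h s ^ 5) s := by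
  have h2 := (hasDerivAt_wi hs).pow 3
  refine h2.congr_deriv ?_
  norm_num
  ring

noncomputable def Uz (R h s : ℝ) : ℝ := wi h s * c3 (1 - s / R ^ 2)
noncomputable def Uz1 (R h s : ℝ) : ℝ :=
  -(1 / 2) * wi h s ^ 3 * c3 (1 - s / R ^ 2) + wi h s * (dc3 (1 - s / R ^ 2) * (-(1 / R ^ 2)))
noncomputable def Uz2 (R h s : ℝ) : ℝ :=
  3 / 4 * wi h s ^ 5 * c3 (1 - s / R ^ 2) + wi h s ^ 3 * (1 / R ^ 2) * dc3 (1 - s / R ^ 2) +
    wi h s * (1 / R ^ 4) * ddc3 (1 - s / R ^ 2)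

section
variable {R h : ℝ}

theorem hasDerivAt_y (s : ℝ) : HasDerivAt (fun s : ℝ => 1 - s / R ^ 2) (-(1 / R ^ 2)) s :=
  ((hasDerivAt_id s).div_const (R ^ 2)).const_sub 1

theorem hasDerivAt_Uz {s : ℝ} (hs : 0 < s + h ^ 2) : HasDerivAt (Uz R h) (Uz1 R h s) s := by
  have h1 : HasDerivAt (fun s => c3 (1 - s / R ^ 2)) (dc3 (1 - s / R ^ 2) * (-(1 / R ^ 2))) s :=
    (hasDerivAt_c3 _).comp s (hasDerivAt_y s)
  exact (hasDerivAt_wi hs).mul h1

theorem hasDerivAt_Uz1 {s : ℝ} (hs : 0 < s + h ^ 2) : HasDerivAt (Uz1 R h) (Uz2 R h s) s := by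
  have h1 : HasDerivAt (fun s => c3 (1 - s / R ^ 2)) (dc3 (1 - s / R ^ 2) * (-(1 / R ^ 2))) s :=
    (hasDerivAt_c3 _).comp s (hasDerivAt_y s)
  have h2 : HasDerivAt (fun s => dc3 (1 - s / R ^ 2)) (ddc3 (1 - s / R ^ 2) * (-(1 / R ^ 2))) s :=
    (hasDerivAt_dc3 _).comp s (hasDerivAt_y s)
  have h3 := (((hasDerivAt_wi3 hs).const_mul (-(1 / 2))).mul h1).add
    ((hasDerivAt_wi hs).mul (h2.mul_const (-(1 / R ^ 2))))
  refine h3.congr_deriv ?_
  unfold Uz2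
  ring

theorem kernel_ineq (hR : 0 < R) {s : ℝ} (hs0 : 0 ≤ s) (hs : 0 < s + h ^ 2) :
    3 * h ^ 2 * wi h s ^ 5 * c3 (1 - s / R ^ 2) -
      6 / R ^ 2 * (wi h s * (if s < R ^ 2 then 1 else 0)) ≤
      -(4 * s * Uz2 R h s + 2 * 3 * Uz1 R h s) := by
  have hw := wi_pos hs
  have hw2 := wi_sq hs
  set w := wi h s with hwd
  have hsw : (s + h ^ 2) * w ^ 2 = 1 := by rw [hw2]; field_simp
  unfold Uz2 Uz1
  rw [← hwd]
  have hR2 : 0 < R ^ 2 := by positivity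
  by_cases hsR : s < R ^ 2
  · rw [if_pos hsR]
    have hy : 0 < 1 - s / R ^ 2 := by
      rw [sub_pos, div_lt_one hR2]; exact hsR
    unfold c3 dc3 ddc3
    rw [max_eq_left hy.le]
    set p := 1 - s / R ^ 2 with hp
    have hsp : s = R ^ 2 * (1 - p) := by rw [hp]; field_simp; ring
    have hp1 : p ≤ 1 := by
      rw [hp]
      have : 0 ≤ s / R ^ 2 := by positivity
      linarith
    -- `s w² ≤ 1`
    have h1 : s * w ^ 2 ≤ 1 := by
      have : 0 ≤ h ^ 2 * w ^ 2 := by positivity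
      nlinarith
    have e1 : -(4 * s * (3 / 4 * w ^ 5 * p ^ 3 + w ^ 3 * (1 / R ^ 2) * (3 * p ^ 2) +
        w * (1 / R ^ 4) * (6 * p)) + 2 * 3 * (-(1 / 2) * w ^ 3 * p ^ 3 +
        w * (3 * p ^ 2 * (-(1 / R ^ 2))))) =
        3 * h ^ 2 * w ^ 5 * p ^ 3 + w / R ^ 2 * (18 * p ^ 2 - 12 * p ^ 2 * (s * w ^ 2) -
          24 * (s / R ^ 2) * p) := by
      have e2 : 3 * w ^ 3 * p ^ 3 = 3 * ((s + h ^ 2) * w ^ 2) * w ^ 3 * p ^ 3 := by rw [hsw]; ring
      have e3 : w * (1 / R ^ 4) = w / R ^ 2 * (1 / R ^ 2) := by field_simp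
      rw [e3]
      linear_combination e2
    rw [e1]
    have e4 : s / R ^ 2 = 1 - p := by rw [hp]; ring
    rw [e4]
    have h2 : -6 ≤ 18 * p ^ 2 - 12 * p ^ 2 * (s * w ^ 2) - 24 * (1 - p) * p := by
      have h3 : 12 * p ^ 2 * (s * w ^ 2) ≤ 12 * p ^ 2 * 1 :=
        mul_le_mul_of_nonneg_left h1 (by positivity)
      nlinarith [sq_nonneg (2 * p - 1), sq_nonneg p]
    have h4 : w / R ^ 2 * (-6) ≤ w / R ^ 2 *
        (18 * p ^ 2 - 12 * p ^ 2 * (s * w ^ 2) - 24 * (1 - p) * p) :=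
      mul_le_mul_of_nonneg_left h2 (by positivity)
    have h5 : 6 / R ^ 2 * (w * 1) = -(w / R ^ 2 * (-6)) := by ring
    rw [h5]
    linarith
  · rw [if_neg hsR]
    rw [not_lt] at hsR
    have hy : 1 - s / R ^ 2 ≤ 0 := by
      rw [sub_nonpos, one_le_div hR2]; exact hsR
    unfold c3 dc3 ddc3
    rw [max_eq_right hy]
    norm_num

theorem Uz_le (hR : 0 < R) {s : ℝ} (hs0 : 0 ≤ s) (hs : 0 < s + h ^ 2) :
    Uz R h s ≤ wi h s * (if s < R ^ 2 then 1 else 0) := by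
  have hw := wi_pos hs
  have hR2 : 0 < R ^ 2 := by positivity
  unfold Uz
  refine mul_le_mul_of_nonneg_left ?_ hw.le
  split_ifs with hsR
  · refine c3_le ?_
    have : 0 ≤ s / R ^ 2 := by positivity
    linarith
  · rw [not_lt] at hsR
    have hy : 1 - s / R ^ 2 ≤ 0 := by
      rw [sub_nonpos, one_le_div hR2]; exact hsR
    unfold c3
    rw [max_eq_right hy]
    norm_num

theorem Uz_nonneg {s : ℝ} (hs : 0 < s + h ^ 2) : 0 ≤ Uz R h s :=
  mul_nonneg (wi_pos hs).le (c3_nonneg _)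

theorem sh_pos (hh : 0 < h) (x x0 : E 3) : 0 < ‖x - x0‖ ^ 2 + h ^ 2 := by positivity

theorem contDiff_wi (hh : 0 < h) (x0 : E 3) : ContDiff ℝ 2 (fun x : E 3 => wi h (‖x - x0‖ ^ 2)) := by
  unfold wi
  have h1 : ContDiff ℝ 2 (fun x : E 3 => ‖x - x0‖ ^ 2 + h ^ 2) :=
    ((contDiff_id.sub contDiff_const).norm_sq ℝ).add contDiff_const
  exact (h1.sqrt fun x => (sh_pos hh x x0).ne').inv fun x => (Real.sqrt_pos.2 (sh_pos hh x x0)).ne'

theorem contDiff_Uz (hh : 0 < h) (x0 : E 3) :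
    ContDiff ℝ 2 (fun x : E 3 => Uz R h (‖x - x0‖ ^ 2)) := by
  unfold Uz
  refine (contDiff_wi hh x0).mul (contDiff_c3.comp ?_)
  exact contDiff_const.sub (((contDiff_id.sub contDiff_const).norm_sq ℝ).div_const _)

theorem lap_Uz (hh : 0 < h) (x x0 : E 3) :
    Δ (fun x : E 3 => Uz R h (‖x - x0‖ ^ 2)) x =
      4 * ‖x - x0‖ ^ 2 * Uz2 R h (‖x - x0‖ ^ 2) + 2 * 3 * Uz1 R h (‖x - x0‖ ^ 2) := by
  have h1 := lap_comp (U := Uz R h) (U' := Uz1 R h) (U'' := Uz2 R h) x0 x ?_ ?_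
  · rw [h1]; simp
  · have h0 : ∀ᶠ s in 𝓝 (‖x - x0‖ ^ 2), -h ^ 2 < s :=
      lt_mem_nhds (by have := sh_pos hh x x0; linarith)
    filter_upwards [h0] with s hs
    exact hasDerivAt_Uz (by linarith)
  · exact hasDerivAt_Uz1 (sh_pos hh x x0)

end

/-- The potential estimate. -/
theorem pot {Ω : Set (E 3)} {u : E 3 → ℝ} (H : Adm Ω u) {K l : ℝ} (hK : 0 < K) (hl : 0 < l)
    (heq : ∀ x ∈ Ω, -(Δ u x) = l * ff K (u x)) (x0 : E 3) {R h : ℝ} (hR : 0 < R) (hh : 0 < h) :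
    ∫ x in Ω, 3 * h ^ 2 * wi h (‖x - x0‖ ^ 2) ^ 5 * c3 (1 - ‖x - x0‖ ^ 2 / R ^ 2) * u x ≤
      ∫ x in Ω ∩ ball x0 R, (l * ff K (u x) + 6 / R ^ 2 * u x) * wi h (‖x - x0‖ ^ 2) := by
  have hζ := contDiff_Uz (R := R) hh x0
  have key := weak_lim H hK hl heq hζ fun x => Uz_nonneg (sh_pos hh x x0)
  have uc := H.cont
  have fc := adm_cont_ff H K
  have wc : Continuous (fun x : E 3 => wi h (‖x - x0‖ ^ 2)) := (contDiff_wi hh x0).continuous
  have cc : Continuous (fun x : E 3 => c3 (1 - ‖x - x0‖ ^ 2 / R ^ 2)) := by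
    unfold c3; fun_prop
  have lc := continuous_lap hζ
  have i1 : IntegrableOn (fun x => 3 * h ^ 2 * wi h (‖x - x0‖ ^ 2) ^ 5 *
      c3 (1 - ‖x - x0‖ ^ 2 / R ^ 2) * u x) Ω :=
    adm_int H (((continuous_const.mul (wc.pow 5)).mul cc).continuousOn.mul uc)
  have i2 : IntegrableOn (fun x => -(Δ (fun x : E 3 => Uz R h (‖x - x0‖ ^ 2)) x) * u x) Ω :=
    adm_int H (lc.neg.continuousOn.mul uc)
  have i3 : IntegrableOn (fun x => l * ff K (u x) * Uz R h (‖x - x0‖ ^ 2)) Ω :=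
    adm_int H ((continuousOn_const.mul fc).mul hζ.continuous.continuousOn)
  have i4 : IntegrableOn (fun x => (l * ff K (u x) + 6 / R ^ 2 * u x) * wi h (‖x - x0‖ ^ 2)) Ω :=
    adm_int H (((continuousOn_const.mul fc).add (continuousOn_const.mul uc)).mul wc.continuousOn)
  have mB : MeasurableSet (ball x0 R) := measurableSet_ball
  have i5 : IntegrableOn ((ball x0 R).indicator
      (fun x => (l * ff K (u x) + 6 / R ^ 2 * u x) * wi h (‖x - x0‖ ^ 2))) Ω :=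
    IntegrableOn.indicator i4 mB
  have e1 : ∫ x in Ω ∩ ball x0 R, (l * ff K (u x) + 6 / R ^ 2 * u x) * wi h (‖x - x0‖ ^ 2) =
      ∫ x in Ω, (ball x0 R).indicator
        (fun x => (l * ff K (u x) + 6 / R ^ 2 * u x) * wi h (‖x - x0‖ ^ 2)) x :=
    (setIntegral_indicator mB).symm
  rw [e1]
  have e2 : (∫ x in Ω, 3 * h ^ 2 * wi h (‖x - x0‖ ^ 2) ^ 5 *
      c3 (1 - ‖x - x0‖ ^ 2 / R ^ 2) * u x) + ∫ x in Ω, l * ff K (u x) * Uz R h (‖x - x0‖ ^ 2) ≤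
      (∫ x in Ω, -(Δ (fun x : E 3 => Uz R h (‖x - x0‖ ^ 2)) x) * u x) + ∫ x in Ω,
        (ball x0 R).indicator
        (fun x => (l * ff K (u x) + 6 / R ^ 2 * u x) * wi h (‖x - x0‖ ^ 2)) x := by
    rw [← integral_add i1 i3, ← integral_add i2 i5]
    refine setIntegral_mono_on (i1.add i3) (i2.add i5) H.opn.measurableSet fun x hx => ?_
    have hsp := sh_pos hh x x0
    have hs0 : 0 ≤ ‖x - x0‖ ^ 2 := by positivity
    have k1 := kernel_ineq hR hs0 hsp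
    have k2 := Uz_le hR hs0 hsp
    rw [lap_Uz hh]
    have hu0 := (H.pos x hx).le
    have hf := one_le_ff hK.le hu0 (H.lt x hx)
    have m1 := mul_le_mul_of_nonneg_right k1 hu0
    have m2 := mul_le_mul_of_nonneg_left k2 (show 0 ≤ l * ff K (u x) by positivity)
    have e3 : (ball x0 R).indicator
        (fun x => (l * ff K (u x) + 6 / R ^ 2 * u x) * wi h (‖x - x0‖ ^ 2)) x =
        (l * ff K (u x) + 6 / R ^ 2 * u x) *
          (wi h (‖x - x0‖ ^ 2) * (if ‖x - x0‖ ^ 2 < R ^ 2 then 1 else 0)) := by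
      have : x ∈ ball x0 R ↔ ‖x - x0‖ ^ 2 < R ^ 2 := by
        rw [mem_ball, dist_eq_norm, sq_lt_sq₀ (norm_nonneg _) hR.le]
      by_cases hxB : x ∈ ball x0 R
      · rw [indicator_of_mem hxB, if_pos (this.1 hxB)]; ring
      · rw [indicator_of_notMem hxB, if_neg (fun hh => hxB (this.2 hh))]; ring
    rw [e3]
    linarith
  linarith

end Pool.Agent.W800.AC
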