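import Pool.Agent.W800.AC.D3b

set_option autoImplicit false
open MeasureTheory Filter Topology Set Metric Laplacian InnerProductSpace
open scoped ContDiff

namespace Pool.Agent.W800.AC

open Pool.Agent.H947R3

/-- the weight `(1 + c²|x-x₀|²)^{-2}` -/
noncomputable def eta (c : ℝ) (x0 x : E 3) : ℝ := ((1 + c ^ 2 * ‖x - x0‖ ^ 2) ^ 2)⁻¹

theorem contDiff_eta (c : ℝ) (x0 : E 3) : ContDiff ℝ 2 (eta c x0) := by
  unfold eta
  refine ContDiff.inv ?_ fun x => by positivity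
  exact (contDiff_const.add (contDiff_const.mul ((contDiff_id.sub contDiff_const).norm_sq ℝ))).pow 2

theorem eta_grad (c : ℝ) (x0 x : E 3) :
    ∑ i, (pd (eta c x0) i x) ^ 2 ≤ 4 * c ^ 2 * (eta c x0 x) ^ 2 := by
  set s := ‖x - x0‖ ^ 2 with hs
  have hs0 : 0 ≤ s := by positivity
  have hp : 0 < 1 + c ^ 2 * s := by positivity
  have hd : HasDerivAt (fun s => ((1 + c ^ 2 * s) ^ 2)⁻¹) (-(2 * c ^ 2) * ((1 + c ^ 2 * s) ^ 3)⁻¹) s := by
    have h1 : HasDerivAt (fun s : ℝ => 1 + c ^ 2 * s) (c ^ 2) s := by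
      have := ((hasDerivAt_id s).const_mul (c ^ 2)).const_add 1
      refine this.congr_deriv ?_
      ring
    have hne : ((fun s : ℝ => 1 + c ^ 2 * s) ^ 2) s ≠ 0 := by
      show (1 + c ^ 2 * s) ^ 2 ≠ 0
      positivity
    have h2 := (h1.pow 2).inv hne
    refine h2.congr_deriv ?_
    simp only [Pi.pow_apply, Nat.cast_ofNat]
    field_simp
    ring
  have h3 := sum_pd_comp_sq x0 x hd
  have h4 : eta c x0 = fun y : E 3 => (fun s => ((1 + c ^ 2 * s) ^ 2)⁻¹) (‖y - x0‖ ^ 2) := rfl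
  rw [h4, h3, ← hs]
  simp only
  have h5 : 4 * (c ^ 2 * s) ≤ (1 + c ^ 2 * s) ^ 2 := by nlinarith [sq_nonneg (1 - c ^ 2 * s)]
  rw [← hs]
  have e1 : 4 * s * (-(2 * c ^ 2) * ((1 + c ^ 2 * s) ^ 3)⁻¹) ^ 2 =
      4 * c ^ 2 * ((1 + c ^ 2 * s) ^ 6)⁻¹ * (4 * (c ^ 2 * s)) := by
    field_simp
    ring
  have e2 : 4 * c ^ 2 * (((1 + c ^ 2 * s) ^ 2)⁻¹) ^ 2 =
      4 * c ^ 2 * ((1 + c ^ 2 * s) ^ 6)⁻¹ * ((1 + c ^ 2 * s) ^ 2) := by
    field_simp
  rw [e1, e2]
  exact mul_le_mul_of_nonneg_left h5 (by positivity)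

/-- the local integral estimate -/
theorem local_int {Ω : Set (E 3)} {u : E 3 → ℝ} (H : Adm Ω u) {K l : ℝ} (hK : 0 < K) (hl : 0 < l)
    (heq : ∀ x ∈ Ω, -(Δ u x) = l * ff K (u x))
    (hst : Stable Ω (fun x => l * (K / (1 - u x)))) (x0 : E 3) {R ρ : ℝ} (hR : 0 < R)
    (hρ : 0 < ρ) (hρ1 : ρ ≤ 1) (hlR : l * K * R ^ 2 = 1) :
    ∫ x in Ω ∩ ball x0 R, u x * kk (u x) ≤
      64 / 3 * ((1 / K + 4096 * ρ ^ 6) / ρ ^ 3 * Ce) * R ^ 3 := by
  set c : ℝ := ρ / R with hc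
  have hc0 : 0 < c := by positivity
  have hη := contDiff_eta c x0
  have key := stab_lim H hK hl heq hst hη
  have uc := H.cont
  have kc := adm_cont_kk H
  have hη1 : ContDiff ℝ 1 (eta c x0) := hη.of_le (by norm_num)
  have ec : Continuous (eta c x0) := hη.continuous
  have hSc : Continuous (fun x => ∑ i, (pd (eta c x0) i x) ^ 2) :=
    continuous_finsetSum _ fun i _ => (continuous_pd hη1 i).pow 2
  have e2c : ContinuousOn (fun x => eta c x0 x ^ 2) (closure Ω) := (ec.pow 2).continuousOn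
  have hηpos : ∀ x, 0 ≤ eta c x0 x ^ 2 := fun x => sq_nonneg _
  have i0 : IntegrableOn (fun x => eta c x0 x ^ 2) Ω := adm_int H e2c
  have i1 : IntegrableOn (fun x => u x * kk (u x) * eta c x0 x ^ 2) Ω :=
    adm_int H ((uc.mul kc).mul e2c)
  have i2 : IntegrableOn (fun x => u x * eta c x0 x ^ 2) Ω := adm_int H (uc.mul e2c)
  have i3 : IntegrableOn (fun x => u x ^ 2 * eta c x0 x ^ 2) Ω := adm_int H ((uc.pow 2).mul e2c)
  have i4 : IntegrableOn (fun x => u x ^ 2 * ∑ i, (pd (eta c x0) i x) ^ 2) Ω :=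
    adm_int H ((uc.pow 2).mul hSc.continuousOn)
  -- the left-hand side
  have e1 : ∫ x in Ω, (u x * (K * kk (u x) - 1)) * eta c x0 x ^ 2 =
      K * (∫ x in Ω, u x * kk (u x) * eta c x0 x ^ 2) - ∫ x in Ω, u x * eta c x0 x ^ 2 := by
    rw [← integral_const_mul, ← integral_sub (i1.const_mul K) i2]
    refine setIntegral_congr_fun H.opn.measurableSet fun x _ => ?_
    ring
  rw [e1] at key
  have e2 : ∫ x in Ω, u x ^ 2 * ∑ i, (pd (eta c x0) i x) ^ 2 ≤
      4 * c ^ 2 * ∫ x in Ω, u x ^ 2 * eta c x0 x ^ 2 := by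
    rw [← integral_const_mul]
    refine setIntegral_mono_on i4 (i3.const_mul _) H.opn.measurableSet fun x _ => ?_
    have := mul_le_mul_of_nonneg_left (eta_grad c x0 x) (sq_nonneg (u x))
    linarith
  set I1 := ∫ x in Ω, u x * kk (u x) * eta c x0 x ^ 2 with hI1
  set I2 := ∫ x in Ω, u x * eta c x0 x ^ 2 with hI2
  set I3 := ∫ x in Ω, u x ^ 2 * eta c x0 x ^ 2 with hI3
  set I0 := ∫ x in Ω, eta c x0 x ^ 2 with hI0
  have k1 : I1 ≤ 1 / K * I2 + 4 * ρ ^ 2 * I3 := by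
    have h1 := mul_le_mul_of_nonneg_right (key.trans e2) (sq_nonneg R)
    have h2 : l * (K * I1 - I2) * R ^ 2 = I1 - 1 / K * I2 := by
      have h3 : l * R ^ 2 = 1 / K := by rw [eq_div_iff hK.ne']; linarith
      calc l * (K * I1 - I2) * R ^ 2 = (l * K * R ^ 2) * I1 - (l * R ^ 2) * I2 := by ring
        _ = I1 - 1 / K * I2 := by rw [hlR, h3]; ring
    have h4 : 4 * c ^ 2 * I3 * R ^ 2 = 4 * ρ ^ 2 * I3 := by
      rw [hc]; field_simp
    rw [h2, h4] at h1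
    linarith
  have k2 : 1 / K * I2 + 4 * ρ ^ 2 * I3 ≤ (1 / K + 4096 * ρ ^ 6) * I0 + 1 / 4 * I1 := by
    rw [← integral_const_mul, ← integral_const_mul, ← integral_const_mul, ← integral_const_mul,
      ← integral_add (i2.const_mul _) (i3.const_mul _), ← integral_add (i0.const_mul _) (i1.const_mul _)]
    refine setIntegral_mono_on ((i2.const_mul _).add (i3.const_mul _))
      ((i0.const_mul _).add (i1.const_mul _)) H.opn.measurableSet fun x hx => ?_
    have hu0 := (H.pos x hx).le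
    have hu1 := H.lt x hx
    have hk := kk_ge hu0 hu1
    have h1 : 1 / K * u x ≤ 1 / K := by
      have : 0 < 1 / K := by positivity
      nlinarith
    have h2 : 4 * ρ ^ 2 * u x ^ 2 ≤ u x ^ 3 / 8 + 4096 * ρ ^ 6 := by
      by_cases h3 : u x ≤ 32 * ρ ^ 2
      · have h4 : u x ^ 2 ≤ (32 * ρ ^ 2) ^ 2 := pow_le_pow_left₀ hu0 h3 2
        have h5 : 4 * ρ ^ 2 * u x ^ 2 ≤ 4 * ρ ^ 2 * (32 * ρ ^ 2) ^ 2 :=
          mul_le_mul_of_nonneg_left h4 (by positivity)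
        have h6 : 4 * ρ ^ 2 * (32 * ρ ^ 2) ^ 2 = 4096 * ρ ^ 6 := by ring
        have h7 : 0 ≤ u x ^ 3 / 8 := by positivity
        linarith
      · rw [not_le] at h3
        have h4 : 32 * ρ ^ 2 * u x ^ 2 ≤ u x * u x ^ 2 :=
          mul_le_mul_of_nonneg_right h3.le (sq_nonneg _)
        have h5 : 0 ≤ 4096 * ρ ^ 6 := by positivity
        have h6 : u x * u x ^ 2 = u x ^ 3 := by ring
        linarith
    have h3 : u x ^ 3 / 2 ≤ u x * kk (u x) := by
      have := mul_le_mul_of_nonneg_left hk hu0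
      have e : u x * (u x ^ 2 / 2) = u x ^ 3 / 2 := by ring
      linarith
    have h4 : 1 / K * u x + 4 * ρ ^ 2 * u x ^ 2 ≤ (1 / K + 4096 * ρ ^ 6) + 1 / 4 * (u x * kk (u x)) := by
      linarith
    have h5 := mul_le_mul_of_nonneg_right h4 (hηpos x)
    linarith
  have k3 : I0 ≤ (R / ρ) ^ 3 * Ce := by
    have h1 : ∀ x, eta c x0 x ^ 2 = ((1 + c ^ 2 * ‖x - x0‖ ^ 2) ^ 4)⁻¹ := fun x => by
      unfold eta
      rw [← inv_pow, ← inv_pow]
      ring
    have h2 : I0 ≤ ∫ x, eta c x0 x ^ 2 := by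
      refine setIntegral_le_integral ?_ (Eventually.of_forall hηpos)
      simp_rw [h1]
      exact integrable_Ce c hc0.ne' x0
    have h3 : ∫ x, eta c x0 x ^ 2 = (c ^ 3)⁻¹ * Ce := by
      simp_rw [h1]
      exact integral_Ce c hc0 x0
    rw [h3] at h2
    refine h2.trans (le_of_eq ?_)
    rw [hc]
    field_simp
  -- on the ball
  have k4 : ∫ x in Ω ∩ ball x0 R, u x * kk (u x) ≤ 16 * I1 := by
    have mB : MeasurableSet (ball x0 R) := measurableSet_ball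
    have i6 : IntegrableOn (fun x => u x * kk (u x)) Ω := adm_int H (uc.mul kc)
    have h1 : ∫ x in Ω ∩ ball x0 R, u x * kk (u x) =
        ∫ x in Ω, (ball x0 R).indicator (fun x => u x * kk (u x)) x := (setIntegral_indicator mB).symm
    rw [h1, hI1, ← integral_const_mul]
    refine setIntegral_mono_on (IntegrableOn.indicator i6 mB) (i1.const_mul _)
      H.opn.measurableSet fun x hx => ?_
    have hu0 := (H.pos x hx).le
    have hk := kk_ge hu0 (H.lt x hx)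
    have hk0 : 0 ≤ kk (u x) := le_trans (by positivity) hk
    by_cases hxB : x ∈ ball x0 R
    · rw [indicator_of_mem hxB]
      rw [mem_ball, dist_eq_norm] at hxB
      have h2 : c ^ 2 * ‖x - x0‖ ^ 2 ≤ 1 := by
        have h3 : ‖x - x0‖ ^ 2 ≤ R ^ 2 := pow_le_pow_left₀ (norm_nonneg _) hxB.le 2
        calc c ^ 2 * ‖x - x0‖ ^ 2 ≤ c ^ 2 * R ^ 2 := mul_le_mul_of_nonneg_left h3 (sq_nonneg _)
          _ = ρ ^ 2 := by rw [hc]; field_simp
          _ ≤ 1 := pow_le_one₀ hρ.le hρ1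
      have h4 : 1 / 4 ≤ eta c x0 x := by
        unfold eta
        rw [← one_div, div_le_div_iff₀ (by norm_num) (by positivity)]
        have h5 : 0 ≤ c ^ 2 * ‖x - x0‖ ^ 2 := by positivity
        nlinarith
      have h6 : (1 / 4 : ℝ) ^ 2 ≤ eta c x0 x ^ 2 := pow_le_pow_left₀ (by norm_num) h4 2
      have h7 : 0 ≤ u x * kk (u x) := mul_nonneg hu0 hk0
      nlinarith [mul_le_mul_of_nonneg_left h6 h7]
    · rw [indicator_of_notMem hxB]
      have h7 : 0 ≤ u x * kk (u x) := mul_nonneg hu0 hk0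
      have := hηpos x
      positivity
  have hC := Ce_nonneg
  have k5 : (1 / K + 4096 * ρ ^ 6) * I0 ≤ (1 / K + 4096 * ρ ^ 6) * ((R / ρ) ^ 3 * Ce) :=
    mul_le_mul_of_nonneg_left k3 (by positivity)
  have e6 : 64 / 3 * ((1 / K + 4096 * ρ ^ 6) / ρ ^ 3 * Ce) * R ^ 3 =
      64 / 3 * ((1 / K + 4096 * ρ ^ 6) * ((R / ρ) ^ 3 * Ce)) := by
    field_simp
  rw [e6]
  linarith

end Pool.Agent.W800.AC
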