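import Pool.Agent.W800.AC.D3c

set_option autoImplicit false
open MeasureTheory Filter Topology Set Metric Laplacian InnerProductSpace
open scoped ContDiff

namespace Pool.Agent.W800.AC

open Pool.Agent.H947R3

noncomputable def ph (y : E 3) : ℝ := 3 / (4 * Real.pi) * (Real.sqrt (1 + ‖y‖ ^ 2))⁻¹ ^ 5

theorem ph_nonneg (y : E 3) : 0 ≤ ph y := by
  have := Real.pi_pos
  unfold ph; positivity

theorem ph_decay : Tendsto (fun x : E 3 => ‖x‖ ^ Module.finrank ℝ (E 3) * ph x)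
    (Bornology.cobounded (E 3)) (𝓝 0) := by
  have hp := Real.pi_pos
  have h1 : Tendsto (fun x : E 3 => 3 / (4 * Real.pi) * (1 + ‖x‖ ^ 2)⁻¹)
      (Bornology.cobounded (E 3)) (𝓝 0) := by
    have h2 : Tendsto (fun r : ℝ => (1 + r ^ 2)⁻¹) atTop (𝓝 0) :=
      tendsto_inv_atTop_zero.comp
        (tendsto_atTop_add_const_left _ _ (tendsto_pow_atTop two_ne_zero))
    have h3 := (h2.comp (tendsto_norm_cobounded_atTop (E := E 3))).const_mul (3 / (4 * Real.pi))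
    rw [mul_zero] at h3
    exact h3
  refine squeeze_zero (fun x => mul_nonneg (by positivity) (ph_nonneg x)) (fun x => ?_) h1
  rw [show Module.finrank ℝ (E 3) = 3 by simp]
  unfold ph
  have hw : 0 < Real.sqrt (1 + ‖x‖ ^ 2) := Real.sqrt_pos.2 (by positivity)
  have hw2 : Real.sqrt (1 + ‖x‖ ^ 2) ^ 2 = 1 + ‖x‖ ^ 2 := Real.sq_sqrt (by positivity)
  have hle : ‖x‖ ≤ Real.sqrt (1 + ‖x‖ ^ 2) := Real.le_sqrt_of_sq_le (by linarith)
  set w := Real.sqrt (1 + ‖x‖ ^ 2) with hwd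
  rw [← hw2]
  have h4 : (‖x‖ * w⁻¹) ^ 3 ≤ 1 := by
    refine pow_le_one₀ (by positivity) ?_
    rw [← div_eq_mul_inv, div_le_one hw]; exact hle
  have h5 : ‖x‖ ^ 3 * (3 / (4 * Real.pi) * w⁻¹ ^ 5) =
      3 / (4 * Real.pi) * (w ^ 2)⁻¹ * (‖x‖ * w⁻¹) ^ 3 := by
    field_simp
  rw [h5]
  have h6 : 0 ≤ 3 / (4 * Real.pi) * (w ^ 2)⁻¹ := by positivity
  nlinarith

theorem ph_scale (x x0 : E 3) {c : ℝ} (hc : 0 < c) :
    c ^ 3 * ph (c • (x0 - x)) = 1 / (4 * Real.pi) *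
      (3 * (c⁻¹) ^ 2 * wi (c⁻¹) (‖x - x0‖ ^ 2) ^ 5) := by
  have hp := Real.pi_pos
  unfold ph wi
  have e1 : ‖c • (x0 - x)‖ ^ 2 = c ^ 2 * ‖x - x0‖ ^ 2 := by
    rw [norm_smul, Real.norm_eq_abs, mul_pow, sq_abs, norm_sub_rev]
  rw [e1]
  have e2 : Real.sqrt (1 + c ^ 2 * ‖x - x0‖ ^ 2) = c * Real.sqrt (‖x - x0‖ ^ 2 + c⁻¹ ^ 2) := by
    rw [show 1 + c ^ 2 * ‖x - x0‖ ^ 2 = c ^ 2 * (‖x - x0‖ ^ 2 + c⁻¹ ^ 2) by field_simp; ring,
      Real.sqrt_mul (by positivity), Real.sqrt_sq hc.le]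
  rw [e2]
  have hw : 0 < Real.sqrt (‖x - x0‖ ^ 2 + c⁻¹ ^ 2) := Real.sqrt_pos.2 (by positivity)
  set w := Real.sqrt (‖x - x0‖ ^ 2 + c⁻¹ ^ 2)
  field_simp

theorem pointwise_lim {Ω : Set (E 3)} {u : E 3 → ℝ} (H : Adm Ω u) {x0 : E 3} (hx0 : x0 ∈ Ω)
    {R C : ℝ} (hR : 0 < R)
    (hC : ∀ h, 0 < h →
      ∫ x in Ω, 3 * h ^ 2 * wi h (‖x - x0‖ ^ 2) ^ 5 * c3 (1 - ‖x - x0‖ ^ 2 / R ^ 2) * u x ≤ C) :
    4 * Real.pi * u x0 ≤ C := by
  have hp := Real.pi_pos
  have cc : Continuous (fun x : E 3 => c3 (1 - ‖x - x0‖ ^ 2 / R ^ 2)) := by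
    unfold c3; fun_prop
  set g : E 3 → ℝ := Ω.indicator (fun x => c3 (1 - ‖x - x0‖ ^ 2 / R ^ 2) * u x) with hg
  have hgi : Integrable g := by
    rw [hg, integrable_indicator_iff H.opn.measurableSet]
    exact adm_int H (cc.continuousOn.mul H.cont)
  have hgc : ContinuousAt g x0 := by
    have h1 : ContinuousAt (fun x => c3 (1 - ‖x - x0‖ ^ 2 / R ^ 2) * u x) x0 :=
      cc.continuousAt.mul (H.contOn.continuousAt (H.opn.mem_nhds hx0))
    refine h1.congr ?_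
    filter_upwards [H.opn.mem_nhds hx0] with x hx
    rw [hg, indicator_of_mem hx]
  have hg0 : g x0 = u x0 := by
    rw [hg, indicator_of_mem hx0]
    simp [c3]
  have ht := tendsto_integral_comp_smul_smul_of_integrable' (μ := (volume : Measure (E 3)))
    ph_nonneg integral_phi3 ph_decay hgi hgc
  rw [hg0] at ht
  have h2 : u x0 ≤ 1 / (4 * Real.pi) * C := by
    refine le_of_tendsto ht ?_
    filter_upwards [eventually_gt_atTop 0] with c hc
    have h3 := hC c⁻¹ (by positivity)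
    have e1 : ∫ x, (c ^ Module.finrank ℝ (E 3) * ph (c • (x0 - x))) • g x =
        1 / (4 * Real.pi) * ∫ x in Ω, 3 * c⁻¹ ^ 2 * wi c⁻¹ (‖x - x0‖ ^ 2) ^ 5 *
          c3 (1 - ‖x - x0‖ ^ 2 / R ^ 2) * u x := by
      rw [← integral_const_mul, ← integral_indicator H.opn.measurableSet]
      refine integral_congr_ae (Eventually.of_forall fun x => ?_)
      simp only
      rw [show Module.finrank ℝ (E 3) = 3 by simp, ph_scale x x0 hc, smul_eq_mul]
      by_cases hx : x ∈ Ω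
      · rw [hg, indicator_of_mem hx, indicator_of_mem hx]; ring
      · rw [hg, indicator_of_notMem hx, indicator_of_notMem hx, mul_zero]
    rw [e1]
    exact mul_le_mul_of_nonneg_left h3 (by positivity)
  have h4 := mul_le_mul_of_nonneg_left h2 (show 0 ≤ 4 * Real.pi by positivity)
  have e : 4 * Real.pi * (1 / (4 * Real.pi) * C) = C := by field_simp
  linarith

theorem split3 {F G : E 3 → ℝ} {J : Set (E 3)} (a b c : ℝ) (h0 : IntegrableOn (fun _ : E 3 => a) J)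
    (h1 : IntegrableOn F J) (h2 : IntegrableOn G J) :
    ∫ x in J, (a + b * F x + c * G x) =
      volume.real J * a + b * (∫ x in J, F x) + c * ∫ x in J, G x := by
  have a1 := integral_add (h0.add (h1.const_mul b)) (h2.const_mul c)
  have a2 := integral_add h0 (h1.const_mul b)
  simp only [Pi.add_apply] at a1
  rw [a1, a2, integral_const_mul, integral_const_mul, setIntegral_const, smul_eq_mul]

theorem sup_bound3 {Ω : Set (E 3)} {u : E 3 → ℝ} (H : Adm Ω u) {K l ρ : ℝ} (hK : 100 ≤ K)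
    (hl : 0 < l) (heq : ∀ x ∈ Ω, -(Δ u x) = l * ff K (u x))
    (hst : Stable Ω (fun x => l * (K / (1 - u x))))
    (hρ : 0 < ρ) (hρ1 : ρ ≤ 1) (hsmall : 64 / 3 * ((1 / K + 4096 * ρ ^ 6) / ρ ^ 3 * Ce) ≤ 1 / 50000)
    {x0 : E 3} (hx0 : x0 ∈ Ω) : u x0 ≤ 1 / 2 := by
  have hp := Real.pi_pos
  have hK0 : 0 < K := by linarith
  set R : ℝ := (Real.sqrt (l * K))⁻¹ with hRd
  have hlK : 0 < l * K := by positivity
  have hR : 0 < R := by rw [hRd]; have := Real.sqrt_pos.2 hlK; positivity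
  have hlR : l * K * R ^ 2 = 1 := by
    rw [hRd, inv_pow, Real.sq_sqrt hlK.le]; field_simp
  have hloc := local_int H hK0 hl heq hst x0 hR hρ hρ1 hlR
  have uc := H.cont
  have fc := adm_cont_ff H K
  have kc := adm_cont_kk H
  set J := Ω ∩ ball x0 R with hJ
  have mJ : MeasurableSet J := H.opn.measurableSet.inter measurableSet_ball
  have hJΩ : J ⊆ Ω := inter_subset_left
  have hloc2 : ∫ x in J, u x * kk (u x) ≤ 1 / 50000 * R ^ 3 :=
    hloc.trans (mul_le_mul_of_nonneg_right hsmall (by positivity))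
  have hpt := pointwise_lim H hx0 hR (C := 6) fun h hh => ?_
  · have := Real.pi_gt_three
    nlinarith
  refine (pot H hK0 hl heq x0 hR hh).trans ?_
  have wc : Continuous (fun x : E 3 => wi h (‖x - x0‖ ^ 2)) := (contDiff_wi hh x0).continuous
  have i0 : IntegrableOn (fun x => (l * ff K (u x) + 6 / R ^ 2 * u x) * wi h (‖x - x0‖ ^ 2)) J :=
    (adm_int H (((continuousOn_const.mul fc).add (continuousOn_const.mul uc)).mul
      wc.continuousOn)).mono_set hJΩ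
  have i1 : IntegrableOn (fun x => u x * kk (u x)) J := (adm_int H (uc.mul kc)).mono_set hJΩ
  have i2 : IntegrableOn (fun x => wi h (‖x - x0‖ ^ 2) ^ 2) J :=
    (adm_int H (wc.pow 2).continuousOn).mono_set hJΩ
  have iC : ∀ c : ℝ, IntegrableOn (fun _ : E 3 => c) J := fun c =>
    (integrableOn_const H.bdd.measure_lt_top.ne : IntegrableOn (fun _ : E 3 => c) Ω).mono_set hJΩ
  have hK2 : 2 / K ^ 2 ≤ 1 / 5000 := by
    rw [div_le_div_iff₀ (by positivity) (by norm_num)]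
    nlinarith
  have b0 : ∫ x in J, (l * ff K (u x) + 6 / R ^ 2 * u x) * wi h (‖x - x0‖ ^ 2) ≤
      ∫ x in J, (7 / R ^ 2 * (8 / R * (34 / 10000)) + 7 / R ^ 2 * (8 / R * 808) * (u x * kk (u x)) +
        7 / R ^ 2 * (R / 32) * wi h (‖x - x0‖ ^ 2) ^ 2) := by
    refine setIntegral_mono_on i0 (((iC _).add (i1.const_mul _)).add (i2.const_mul _)) mJ
      fun x hx => ?_
    have hxΩ := hJΩ hx
    have hu0 := (H.pos x hxΩ).le
    have hu1 := H.lt x hxΩ
    have hw := wi_pos (sh_pos hh x x0)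
    set w := wi h (‖x - x0‖ ^ 2) with hwd
    have hg := glog_nonneg hu0 hu1
    have hg2 := glog_sq hu0 hu1 (show (0 : ℝ) < 1 / 50 by norm_num)
    set g := -Real.log (1 - u x) with hgd
    have hff : l * ff K (u x) = 1 / R ^ 2 * (1 / K + g) := by
      have h1 : l = 1 / (K * R ^ 2) := by
        rw [eq_div_iff (by positivity)]; linarith
      have h2 : ff K (u x) = 1 + K * g := by rw [hgd]; unfold ff; ring
      rw [h2, h1]
      field_simp
    have h1 : l * ff K (u x) + 6 / R ^ 2 * u x ≤ 7 / R ^ 2 * (1 / K + g) := by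
      rw [hff]
      have h2 : 6 / R ^ 2 * u x ≤ 6 / R ^ 2 * (1 / K + g) := by
        refine mul_le_mul_of_nonneg_left ?_ (by positivity)
        have : 0 < 1 / K := by positivity
        linarith
      have h3 : 7 / R ^ 2 * (1 / K + g) = 1 / R ^ 2 * (1 / K + g) + 6 / R ^ 2 * (1 / K + g) := by ring
      linarith
    have h2 : (1 / K + g) * w ≤ 8 / R * (1 / K + g) ^ 2 + R / 32 * w ^ 2 := by
      have h3 : 0 ≤ 8 / R * ((1 / K + g) - R * w / 16) ^ 2 := by positivity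
      have h4 : 8 / R * ((1 / K + g) - R * w / 16) ^ 2 =
          8 / R * (1 / K + g) ^ 2 + R / 32 * w ^ 2 - (1 / K + g) * w := by
        field_simp
        ring
      linarith
    have h3 : (1 / K + g) ^ 2 ≤ 34 / 10000 + 808 * (u x * kk (u x)) := by
      have h4 : (1 / K + g) ^ 2 ≤ 2 / K ^ 2 + 2 * g ^ 2 := by
        have h5 : 2 / K ^ 2 = 2 * (1 / K) ^ 2 := by field_simp
        rw [h5]
        nlinarith [sq_nonneg (1 / K - g)]
      norm_num at hg2
      linarith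
    calc (l * ff K (u x) + 6 / R ^ 2 * u x) * w ≤ 7 / R ^ 2 * (1 / K + g) * w :=
          mul_le_mul_of_nonneg_right h1 hw.le
      _ = 7 / R ^ 2 * ((1 / K + g) * w) := by ring
      _ ≤ 7 / R ^ 2 * (8 / R * (34 / 10000 + 808 * (u x * kk (u x))) + R / 32 * w ^ 2) := by
          refine mul_le_mul_of_nonneg_left (h2.trans ?_) (by positivity)
          have := mul_le_mul_of_nonneg_left h3 (show 0 ≤ 8 / R by positivity)
          linarith
      _ = _ := by ring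
  refine b0.trans ?_
  rw [split3 _ _ _ (iC _) i1 i2]
  have b1 : volume.real J ≤ 4.2 * R ^ 3 := by
    have h1 : volume.real J ≤ volume.real (ball x0 R) :=
      measureReal_mono inter_subset_right measure_ball_lt_top.ne
    rw [vol3 x0 hR.le] at h1
    refine h1.trans (mul_le_mul_of_nonneg_right ?_ (by positivity))
    have := Real.pi_lt_d2
    linarith
  have b2 : ∫ x in J, wi h (‖x - x0‖ ^ 2) ^ 2 ≤ 12.6 * R := by
    have h1 : ∀ x : E 3, wi h (‖x - x0‖ ^ 2) ^ 2 = (‖x - x0‖ ^ 2 + h ^ 2)⁻¹ := fun x =>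
      wi_sq (sh_pos hh x x0)
    have i3 : IntegrableOn (fun x => wi h (‖x - x0‖ ^ 2) ^ 2) (ball x0 R) :=
      ((wc.pow 2).continuousOn.integrableOn_compact (isCompact_closedBall x0 R)).mono_set
        ball_subset_closedBall
    have h2 : ∫ x in J, wi h (‖x - x0‖ ^ 2) ^ 2 ≤ ∫ x in ball x0 R, wi h (‖x - x0‖ ^ 2) ^ 2 :=
      setIntegral_mono_set i3 (Eventually.of_forall fun x => sq_nonneg _)
        (Eventually.of_forall inter_subset_right)
    have h3 := ball_int x0 hR hh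
    simp_rw [h1] at h2 ⊢
    have := Real.pi_lt_d2
    nlinarith
  have m1 := mul_le_mul_of_nonneg_right b1 (show 0 ≤ 7 / R ^ 2 * (8 / R * (34 / 10000)) by positivity)
  have m2 := mul_le_mul_of_nonneg_left hloc2 (show 0 ≤ 7 / R ^ 2 * (8 / R * 808) by positivity)
  have m3 := mul_le_mul_of_nonneg_left b2 (show 0 ≤ 7 / R ^ 2 * (R / 32) by positivity)
  have n1 : 4.2 * R ^ 3 * (7 / R ^ 2 * (8 / R * (34 / 10000))) = 4.2 * 7 * 8 * (34 / 10000) := by
    field_simp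
  have n2 : 7 / R ^ 2 * (8 / R * 808) * (1 / 50000 * R ^ 3) = 7 * 8 * 808 / 50000 := by
    field_simp
  have n3 : 7 / R ^ 2 * (R / 32) * (12.6 * R) = 7 * 12.6 / 32 := by
    field_simp
  rw [n1] at m1
  rw [n2] at m2
  rw [n3] at m3
  norm_num at m1 m2 m3 ⊢
  linarith

/-- **Dimension three.** For `K` large every stable solution is bounded by `1/2`. -/
theorem dim3 : ∃ K0 : ℝ, 0 < K0 ∧ ∀ K, K0 ≤ K → ∀ (Ω : Set (E 3)) (u : E 3 → ℝ) (l : ℝ),
    Adm Ω u → 0 < l → (∀ x ∈ Ω, -(Δ u x) = l * ff K (u x)) →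
    Stable Ω (fun x => l * (K / (1 - u x))) → ∀ x ∈ Ω, u x ≤ 1 / 2 := by
  have hC := Ce_nonneg
  -- choose `ρ`
  obtain ⟨ρ, hρ, hρ1, hρC⟩ : ∃ ρ : ℝ, 0 < ρ ∧ ρ ≤ 1 ∧ 64 / 3 * (4096 * ρ ^ 3 * Ce) ≤ 1 / 100000 := by
    set ρ : ℝ := 1 / (64 / 3 * 4096 * 100000 * (Ce + 1)) with hρd
    have hden : (1 : ℝ) ≤ 64 / 3 * 4096 * 100000 * (Ce + 1) := by nlinarith
    have hρ : 0 < ρ := by positivity
    have hρ1 : ρ ≤ 1 := by rw [hρd, div_le_one (by linarith)]; exact hden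
    refine ⟨ρ, hρ, hρ1, ?_⟩
    have h1 : ρ ^ 3 ≤ ρ := by
      have : ρ ^ 2 ≤ 1 := pow_le_one₀ hρ.le hρ1
      nlinarith
    have h2 : ρ * (64 / 3 * 4096 * 100000 * (Ce + 1)) = 1 := by
      rw [hρd]; field_simp
    have h3 : ρ ^ 3 * Ce ≤ ρ * (Ce + 1) := by
      have := mul_le_mul_of_nonneg_right h1 hC
      nlinarith
    nlinarith
  refine ⟨max 100 (100000 * (64 / 3) * (Ce + 1) / ρ ^ 3), lt_max_of_lt_left (by norm_num),
    fun K hK Ω u l H hl heq hst x hx => ?_⟩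
  have hK1 : 100 ≤ K := (le_max_left _ _).trans hK
  have hK2 : 100000 * (64 / 3) * (Ce + 1) / ρ ^ 3 ≤ K := (le_max_right _ _).trans hK
  refine sup_bound3 H hK1 hl heq hst hρ hρ1 ?_ hx
  have hK0 : 0 < K := by linarith
  have e1 : 64 / 3 * ((1 / K + 4096 * ρ ^ 6) / ρ ^ 3 * Ce) =
      64 / 3 * (Ce / (K * ρ ^ 3)) + 64 / 3 * (4096 * ρ ^ 3 * Ce) := by
    field_simp
  rw [e1]
  have h1 : 64 / 3 * (Ce / (K * ρ ^ 3)) ≤ 1 / 100000 := by
    rw [div_le_iff₀ (by positivity)] at hK2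
    rw [mul_div_assoc', div_le_div_iff₀ (by positivity) (by norm_num)]
    nlinarith
  linarith

end Pool.Agent.W800.AC
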