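import Pool.Agent.W800.AC.Param

set_option autoImplicit false
open MeasureTheory Filter Topology Set Metric
open scoped ContDiff

namespace Pool.Agent.W800.AC

/-- the nonlinearity `1 - K log (1 - t)` -/
noncomputable def ff (K t : ℝ) : ℝ := 1 - K * Real.log (1 - t)

theorem hasDerivAt_ff (K : ℝ) {t : ℝ} (ht : t < 1) : HasDerivAt (ff K) (K / (1 - t)) t := by
  unfold ff
  have h1 : HasDerivAt (fun t : ℝ => 1 - t) (-1) t := by
    simpa using (hasDerivAt_id t).const_sub 1
  have h2 := (h1.log (by linarith : (1 : ℝ) - t ≠ 0)).const_mul K |>.const_sub 1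
  refine h2.congr_deriv ?_
  ring

theorem continuousOn_ff (K : ℝ) : ContinuousOn (ff K) (Iio 1) := fun _ ht =>
  (hasDerivAt_ff K ht).continuousAt.continuousWithinAt

theorem ff_mono {K : ℝ} (hK : 0 ≤ K) {a b : ℝ} (hab : a ≤ b) (hb : b < 1) : ff K a ≤ ff K b := by
  unfold ff
  have : Real.log (1 - b) ≤ Real.log (1 - a) := Real.log_le_log (by linarith) (by linarith)
  nlinarith

theorem one_le_ff {K : ℝ} (hK : 0 ≤ K) {a : ℝ} (h0 : 0 ≤ a) (h1 : a < 1) : 1 ≤ ff K a := by
  have := ff_mono hK h0 h1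
  unfold ff at this ⊢
  simpa using this

/-- radial classical solution, in the variable `s = |x|²` -/
structure RadSol (n : ℕ) (B K l : ℝ) (U : ℝ → ℝ) : Prop where
  c2 : ContDiff ℝ 2 U
  nonneg : ∀ s ∈ Icc (0 : ℝ) 1, 0 ≤ U s
  lt_one : ∀ s ∈ Icc (0 : ℝ) 1, U s < 1
  bdry : U 1 = 0
  eq : ∀ s ∈ Icc (0 : ℝ) 1, Lr n B U s = l * ff K (U s)

/-- clamp to `[0,1]` -/
noncomputable def cl (s : ℝ) : ℝ := max 0 (min s 1)

theorem cl_mem (s : ℝ) : cl s ∈ Icc (0 : ℝ) 1 :=
  ⟨le_max_left _ _, max_le zero_le_one (min_le_right _ _)⟩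

theorem cl_of_mem {s : ℝ} (hs : s ∈ Icc (0 : ℝ) 1) : cl s = s := by
  unfold cl
  rw [min_eq_left hs.2, max_eq_right hs.1]

theorem continuous_cl : Continuous cl := by unfold cl; fun_prop

theorem cl_lip (s t : ℝ) : |cl s - cl t| ≤ |s - t| := by
  unfold cl
  have h1 := abs_max_sub_max_le_abs (min s 1) (min t 1) 0
  rw [max_comm _ 0, max_comm _ 0] at h1
  have h2 := abs_min_sub_min_le_max s 1 t 1
  rw [sub_self, abs_zero, max_eq_left (abs_nonneg _)] at h2
  exact h1.trans h2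

/-- the integral operator -/
noncomputable def TT (n : ℕ) (B K l : ℝ) (W : ℝ → ℝ) (s : ℝ) : ℝ :=
  l * ∫ σ in (cl s)..1, Aop n B (fun t => ff K (W t)) σ

section
variable {n : ℕ} {B K l m : ℝ}

theorem cont_ffW {W : ℝ → ℝ} (hW : Continuous W) (hm : m < 1) (hWm : ∀ t, W t ≤ m) :
    Continuous fun t => ff K (W t) :=
  (continuousOn_ff K).comp_continuous hW fun t => lt_of_le_of_lt (hWm t) hm

theorem ffW_abs (hK : 0 ≤ K) {W : ℝ → ℝ} (hm : m < 1) (hW0 : ∀ t, 0 ≤ W t) (hWm : ∀ t, W t ≤ m)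
    (t : ℝ) : |ff K (W t)| ≤ ff K m := by
  have h1 := one_le_ff hK (hW0 t) (lt_of_le_of_lt (hWm t) hm)
  rw [abs_of_nonneg (by linarith)]
  exact ff_mono hK (hWm t) hm

theorem TT_lip (hn : 3 ≤ n) (hB : 0 ≤ B) (hK : 0 ≤ K) (hl : 0 ≤ l) (hm : m < 1) {W : ℝ → ℝ}
    (hW : Continuous W) (hW0 : ∀ t, 0 ≤ W t) (hWm : ∀ t, W t ≤ m) (s s' : ℝ) :
    |TT n B K l W s - TT n B K l W s'| ≤ l * ff K m / 4 * |s - s'| := by
  have hn2 : 2 ≤ n := by omega
  have hc := cont_ffW (K := K) hW hm hWm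
  have hA := continuous_Aop hn2 B hc
  unfold TT
  rw [← mul_sub]
  have e : (∫ σ in (cl s)..1, Aop n B (fun t => ff K (W t)) σ) -
      ∫ σ in (cl s')..1, Aop n B (fun t => ff K (W t)) σ =
      ∫ σ in (cl s)..(cl s'), Aop n B (fun t => ff K (W t)) σ := by
    have := intervalIntegral.integral_add_adjacent_intervals
      (hA.intervalIntegrable (μ := volume) (cl s) (cl s')) (hA.intervalIntegrable (cl s') 1)
    linarith
  rw [e, abs_mul, abs_of_nonneg hl]
  have h1 := intervalIntegral.norm_integral_le_of_norm_le_const (a := cl s) (b := cl s')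
    (C := ff K m / 4) (f := Aop n B (fun t => ff K (W t))) (by
      intro σ hσ
      have hσ' : σ ∈ Icc (0 : ℝ) 1 := by
        have := uIoc_subset_uIcc hσ
        rcases le_total (cl s) (cl s') with h | h
        · rw [uIcc_of_le h] at this
          exact ⟨(cl_mem s).1.trans this.1, this.2.trans (cl_mem s').2⟩
        · rw [uIcc_of_ge h] at this
          exact ⟨(cl_mem s').1.trans this.1, this.2.trans (cl_mem s).2⟩
      exact Aop_bound hn2 hB hσ' fun t _ => ffW_abs hK hm hW0 hWm t)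
  rw [Real.norm_eq_abs] at h1
  have h2 : |cl s' - cl s| ≤ |s - s'| := by
    rw [abs_sub_comm]; exact cl_lip s s'
  have hff : 0 ≤ ff K m / 4 := by
    have := (abs_nonneg _).trans (ffW_abs hK hm hW0 hWm 0)
    linarith
  calc l * |∫ σ in (cl s)..(cl s'), Aop n B (fun t => ff K (W t)) σ|
      ≤ l * (ff K m / 4 * |s - s'|) :=
        mul_le_mul_of_nonneg_left (h1.trans (mul_le_mul_of_nonneg_left h2 hff)) hl
    _ = l * ff K m / 4 * |s - s'| := by ring

theorem TT_mono (hn : 3 ≤ n) (hK : 0 ≤ K) (hl : 0 ≤ l) (hm : m < 1) {W W' : ℝ → ℝ}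
    (hW : Continuous W) (hW' : Continuous W') (hWW : ∀ t, W t ≤ W' t)
    (hWm' : ∀ t, W' t ≤ m) (s : ℝ) : TT n B K l W s ≤ TT n B K l W' s := by
  have hn2 : 2 ≤ n := by omega
  have hc := cont_ffW (K := K) hW hm (fun t => (hWW t).trans (hWm' t))
  have hc' := cont_ffW (K := K) hW' hm hWm'
  unfold TT
  refine mul_le_mul_of_nonneg_left ?_ hl
  refine intervalIntegral.integral_mono_on (cl_mem s).2
    ((continuous_Aop hn2 B hc).intervalIntegrable _ _)
    ((continuous_Aop hn2 B hc').intervalIntegrable _ _) fun σ hσ => ?_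
  exact Aop_mono hn2 B hc hc' ⟨(cl_mem s).1.trans hσ.1, hσ.2⟩ fun t _ =>
    ff_mono hK (hWW t) (lt_of_le_of_lt (hWm' t) hm)

theorem TT_nonneg (hn : 3 ≤ n) (hK : 0 ≤ K) (hl : 0 ≤ l) (hm : m < 1) {W : ℝ → ℝ}
    (hW : Continuous W) (hW0 : ∀ t, 0 ≤ W t) (hWm : ∀ t, W t ≤ m) (s : ℝ) :
    0 ≤ TT n B K l W s := by
  have hn2 : 2 ≤ n := by omega
  have hc := cont_ffW (K := K) hW hm hWm
  unfold TT
  refine mul_nonneg hl (intervalIntegral.integral_nonneg (cl_mem s).2 fun σ hσ => ?_)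
  have h0 : Aop n B (fun _ => 0) σ = 0 := by unfold Aop; simp
  rw [← h0]
  refine Aop_mono hn2 B continuous_const hc ⟨(cl_mem s).1.trans hσ.1, hσ.2⟩ fun t _ => ?_
  have := one_le_ff hK (hW0 t) (lt_of_le_of_lt (hWm t) hm)
  linarith

/-- convergence of the operator along pointwise convergent bounded sequences -/
theorem TT_tendsto (hn : 3 ≤ n) (hB : 0 ≤ B) (hK : 0 ≤ K) (hm : m < 1) {W : ℕ → ℝ → ℝ}
    {U : ℝ → ℝ} (hW : ∀ k, Continuous (W k)) (hW0 : ∀ k t, 0 ≤ W k t) (hWm : ∀ k t, W k t ≤ m)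
    (hlim : ∀ t, Tendsto (fun k => W k t) atTop (𝓝 (U t))) (s : ℝ) :
    Tendsto (fun k => TT n B K l (W k) s) atTop (𝓝 (TT n B K l U s)) := by
  have hn2 : 2 ≤ n := by omega
  have hUm : ∀ t, U t ≤ m := fun t => le_of_tendsto (hlim t) (Eventually.of_forall fun k => hWm k t)
  have hlimf : ∀ t, Tendsto (fun k => ff K (W k t)) atTop (𝓝 (ff K (U t))) := fun t =>
    ((hasDerivAt_ff K (lt_of_le_of_lt (hUm t) hm)).continuousAt.tendsto).comp (hlim t)
  have hwc : ∀ σ, Continuous fun θ => wt n B σ θ := fun σ =>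
    (continuous_wt hn2 B).comp (Continuous.prodMk continuous_const continuous_id)
  have hA : ∀ σ ∈ Icc (0 : ℝ) 1, Tendsto (fun k => Aop n B (fun t => ff K (W k t)) σ) atTop
      (𝓝 (Aop n B (fun t => ff K (U t)) σ)) := by
    intro σ hσ
    unfold Aop
    refine Tendsto.const_mul _ ?_
    refine intervalIntegral.tendsto_integral_filter_of_dominated_convergence (fun _ => ff K m)
      (Eventually.of_forall fun k => ?_) (Eventually.of_forall fun k => ?_)
      intervalIntegrable_const ?_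
    · exact ((hwc σ).mul ((cont_ffW (K := K) (hW k) hm (hWm k)).comp (by fun_prop))).aestronglyMeasurable
    · refine Eventually.of_forall fun θ hθ => ?_
      rw [uIoc_of_le zero_le_one] at hθ
      rw [norm_mul, Real.norm_eq_abs, Real.norm_eq_abs, abs_of_nonneg (wt_nonneg hθ.1.le)]
      calc wt n B σ θ * |ff K (W k (θ * σ))| ≤ 1 * ff K m :=
            mul_le_mul (wt_le_one hn2 hB hσ.1 hθ.1.le hθ.2) (ffW_abs hK hm (hW0 k) (hWm k) _)
              (abs_nonneg _) zero_le_one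
        _ = ff K m := one_mul _
    · exact Eventually.of_forall fun θ _ => (hlimf _).const_mul _
  unfold TT
  refine Tendsto.const_mul _ ?_
  refine intervalIntegral.tendsto_integral_filter_of_dominated_convergence (fun _ => ff K m / 4)
    (Eventually.of_forall fun k => ?_) (Eventually.of_forall fun k => ?_)
    intervalIntegrable_const ?_
  · exact (continuous_Aop hn2 B (cont_ffW (K := K) (hW k) hm (hWm k))).aestronglyMeasurable
  · refine Eventually.of_forall fun σ hσ => ?_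
    rw [uIoc_of_le (cl_mem s).2] at hσ
    exact Aop_bound hn2 hB ⟨(cl_mem s).1.trans hσ.1.le, hσ.2⟩ fun t _ =>
      ffW_abs hK hm (hW0 k) (hWm k) t
  · refine Eventually.of_forall fun σ hσ => ?_
    rw [uIoc_of_le (cl_mem s).2] at hσ
    exact hA σ ⟨(cl_mem s).1.trans hσ.1.le, hσ.2⟩

/-- fixed point below a supersolution -/
theorem fixed_point (hn : 3 ≤ n) (hB : 0 ≤ B) (hK : 0 ≤ K) (hl : 0 ≤ l) (hm : m < 1) {V : ℝ → ℝ}
    (hV : Continuous V) (hV0 : ∀ t, 0 ≤ V t) (hVm : ∀ t, V t ≤ m)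
    (hsup : ∀ s, TT n B K l V s ≤ V s) :
    ∃ U : ℝ → ℝ, Continuous U ∧ (∀ t, 0 ≤ U t) ∧ (∀ t, U t ≤ V t) ∧ ∀ s, U s = TT n B K l U s := by
  set W : ℕ → ℝ → ℝ := fun k => (TT n B K l)^[k] V with hWdef
  have hW0 : W 0 = V := rfl
  have hWs : ∀ k, W (k + 1) = TT n B K l (W k) := fun k => by
    simp only [hWdef, Function.iterate_succ_apply']
  have hprop : ∀ k, Continuous (W k) ∧ (∀ t, 0 ≤ W k t) ∧ (∀ t, W k t ≤ m) ∧
      (∀ t, W (k + 1) t ≤ W k t) := by
    intro k
    induction k with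
    | zero =>
      refine ⟨hV, hV0, hVm, ?_⟩
      intro t
      rw [hWs 0, hW0]
      exact hsup t
    | succ k ih =>
      obtain ⟨i1, i2, i3, i4⟩ := ih
      have c1 : Continuous (W (k + 1)) := by
        rw [hWs k]
        have hlip := TT_lip hn hB hK hl hm i1 i2 i3
        set C := l * ff K m / 4
        have hL : LipschitzWith (Real.toNNReal C) (TT n B K l (W k)) := by
          refine LipschitzWith.of_dist_le_mul fun s s' => ?_
          rw [Real.dist_eq, Real.dist_eq]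
          refine (hlip s s').trans ?_
          exact mul_le_mul_of_nonneg_right (Real.le_coe_toNNReal C) (abs_nonneg _)
        exact hL.continuous
      have c2 : ∀ t, 0 ≤ W (k + 1) t := fun t => by
        rw [hWs k]; exact TT_nonneg hn hK hl hm i1 i2 i3 t
      have c3 : ∀ t, W (k + 1) t ≤ m := fun t => (i4 t).trans (i3 t)
      refine ⟨c1, c2, c3, fun t => ?_⟩
      rw [hWs (k + 1)]
      nth_rewrite 2 [hWs k]
      exact TT_mono hn hK hl hm c1 i1 i4 i3 t
  have hanti : ∀ t, Antitone fun k => W k t := fun t => antitone_nat_of_succ_le fun k =>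
    (hprop k).2.2.2 t
  have hlim : ∀ t, ∃ y, Tendsto (fun k => W k t) atTop (𝓝 y) := fun t =>
    ⟨_, tendsto_atTop_ciInf (hanti t) ⟨0, by rintro _ ⟨k, rfl⟩; exact (hprop k).2.1 t⟩⟩
  choose U hU using hlim
  have hU0 : ∀ t, 0 ≤ U t := fun t => ge_of_tendsto (hU t) (Eventually.of_forall fun k => (hprop k).2.1 t)
  have hUV : ∀ t, U t ≤ V t := fun t =>
    le_of_tendsto (hU t) (Eventually.of_forall fun k => hanti t (Nat.zero_le k))
  have hfix : ∀ s, U s = TT n B K l U s := by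
    intro s
    have h1 := TT_tendsto (l := l) hn hB hK hm (fun k => (hprop k).1) (fun k => (hprop k).2.1)
      (fun k => (hprop k).2.2.1) hU s
    have h2 : Tendsto (fun k => W (k + 1) s) atTop (𝓝 (U s)) := (hU s).comp (tendsto_add_atTop_nat 1)
    have h3 : (fun k => W (k + 1) s) = fun k => TT n B K l (W k) s := by
      funext k; rw [hWs k]
    rw [h3] at h2
    exact tendsto_nhds_unique h2 h1
  refine ⟨U, ?_, hU0, hUV, hfix⟩
  -- continuity from the uniform Lipschitz bound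
  set C := l * ff K m / 4
  have hL : LipschitzWith (Real.toNNReal C) U := by
    refine LipschitzWith.of_dist_le_mul fun s s' => ?_
    rw [Real.dist_eq, Real.dist_eq]
    have h1 : Tendsto (fun k => |W (k + 1) s - W (k + 1) s'|) atTop (𝓝 |U s - U s'|) :=
      (((hU s).comp (tendsto_add_atTop_nat 1)).sub ((hU s').comp (tendsto_add_atTop_nat 1))).abs
    refine le_of_tendsto h1 (Eventually.of_forall fun k => ?_)
    rw [hWs k]
    refine (TT_lip hn hB hK hl hm (hprop k).1 (hprop k).2.1 (hprop k).2.2.1 s s').trans ?_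
    exact mul_le_mul_of_nonneg_right (Real.le_coe_toNNReal C) (abs_nonneg _)
  exact hL.continuous

end

end Pool.Agent.W800.AC
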