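import Pool.Agent.W800.AC.Reg

set_option autoImplicit false
open MeasureTheory Filter Topology Set Metric
open scoped ContDiff

namespace Pool.Agent.W800.AC

section
variable {n : ℕ} {B K l m : ℝ}

theorem RadSol.c1 {U : ℝ → ℝ} (h : RadSol n B K l U) : ContDiff ℝ 1 (deriv U) := by
  have := (contDiff_succ_iff_deriv (n := 1) (f := U)).1 (by
    rw [show ((1 : WithTop ℕ∞) + 1) = 2 by norm_num]; exact h.c2)
  exact this.2.2

theorem Lr_continuous {v : ℝ → ℝ} (hv : ContDiff ℝ 2 v) : Continuous (Lr n B v) := by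
  have h1 : ContDiff ℝ 1 (deriv v) := by
    have := (contDiff_succ_iff_deriv (n := 1) (f := v)).1 (by
      rw [show ((1 : WithTop ℕ∞) + 1) = 2 by norm_num]; exact hv)
    exact this.2.2
  have h2 : Continuous (deriv (deriv v)) := h1.continuous_deriv (by norm_num)
  have h3 : Continuous (deriv v) := h1.continuous
  unfold Lr
  fun_prop

theorem RadSol.deriv_nonpos (hn : 3 ≤ n) (hK : 0 ≤ K) (hl : 0 ≤ l) {U : ℝ → ℝ}
    (h : RadSol n B K l U) {s : ℝ} (hs : s ∈ Icc (0 : ℝ) 1) : deriv U s ≤ 0 := by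
  rw [deriv_eq_Aop hn B h.c2 s]
  have h0 : Aop n B (fun _ => 0) s = 0 := by unfold Aop; simp
  have h1 : Aop n B (fun _ => 0) s ≤ Aop n B (Lr n B U) s := by
    refine Aop_mono (by omega) B continuous_const (Lr_continuous h.c2) hs fun t ht => ?_
    rw [h.eq t ht]
    have := one_le_ff hK (h.nonneg t ht) (h.lt_one t ht)
    positivity
  linarith

theorem RadSol.antitone (hn : 3 ≤ n) (hK : 0 ≤ K) (hl : 0 ≤ l) {U : ℝ → ℝ}
    (h : RadSol n B K l U) : AntitoneOn U (Icc 0 1) := by
  refine antitoneOn_of_deriv_nonpos (convex_Icc 0 1) h.c2.continuous.continuousOn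
    ((h.c2.differentiable (by norm_num)).differentiableOn) fun s hs => ?_
  rw [interior_Icc] at hs
  exact h.deriv_nonpos hn hK hl ⟨hs.1.le, hs.2.le⟩

/-- lower bound for `A 1` -/
theorem Aop_one_ge (hn : 3 ≤ n) (hB : 0 ≤ B) {s : ℝ} (hs : 0 ≤ s) :
    1 / (2 * (n + B * s)) ≤ Aop n B (fun _ => 1) s := by
  have hn2 : 2 ≤ n := by omega
  have hnr : (3 : ℝ) ≤ n := by exact_mod_cast hn
  have hBs : 0 ≤ B * s := mul_nonneg hB hs
  unfold Aop
  have h1 : ∫ θ in (0 : ℝ)..1, θ ^ ((n : ℝ) / 2 - 1 + B * s / 2) = 2 / (n + B * s) := by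
    rw [integral_rpow (Or.inl (by linarith))]
    rw [Real.one_rpow, Real.zero_rpow (by linarith)]
    have hne : (n : ℝ) + B * s ≠ 0 := by positivity
    have hne2 : (n : ℝ) / 2 - 1 + B * s / 2 + 1 = (n + B * s) / 2 := by ring
    rw [hne2]
    field_simp
    ring
  have h2 : ∫ θ in (0 : ℝ)..1, θ ^ ((n : ℝ) / 2 - 1 + B * s / 2) ≤
      ∫ θ in (0 : ℝ)..1, wt n B s θ * 1 := by
    refine intervalIntegral.integral_mono_on zero_le_one ?_ ?_ fun θ hθ => ?_
    · exact (Real.continuous_rpow_const (by linarith)).intervalIntegrable _ _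
    · have hw : Continuous fun θ => wt n B s θ :=
        (continuous_wt hn2 B).comp (Continuous.prodMk continuous_const continuous_id)
      exact (hw.mul continuous_const).intervalIntegrable _ _
    · rw [mul_one]
      unfold wt
      rcases hθ.1.eq_or_lt with h0 | h0
      · rw [← h0, Real.zero_rpow (by linarith), Real.zero_rpow (by linarith)]
        simp
      · rw [Real.rpow_add h0]
        refine mul_le_mul_of_nonneg_left ?_ (Real.rpow_nonneg h0.le _)
        rw [Real.rpow_def_of_pos h0, Real.exp_le_exp]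
        have h3 : Real.log θ ≤ θ - 1 := Real.log_le_sub_one_of_pos h0
        nlinarith
  rw [h1] at h2
  have h4 : 1 / (2 * ((n : ℝ) + B * s)) = 1 / 4 * (2 / (n + B * s)) := by
    have : (n : ℝ) + B * s ≠ 0 := by positivity
    field_simp
    ring
  rw [h4]
  exact mul_le_mul_of_nonneg_left h2 (by norm_num)

/-- `Θ(s) = ∫₀ˢ dσ / (2 (n + B σ))` -/
noncomputable def Th (n : ℕ) (B s : ℝ) : ℝ := ∫ σ in (0 : ℝ)..s, 1 / (2 * (n + B * |σ|))

theorem hasDerivAt_Th (hn : 3 ≤ n) (hB : 0 ≤ B) (s : ℝ) :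
    HasDerivAt (Th n B) (1 / (2 * (n + B * |s|))) s := by
  have hnr : (3 : ℝ) ≤ n := by exact_mod_cast hn
  have hc : Continuous fun σ : ℝ => 1 / (2 * ((n : ℝ) + B * |σ|)) := by
    refine Continuous.div (by fun_prop) (by fun_prop) fun σ => ?_
    have := mul_nonneg hB (abs_nonneg σ)
    positivity
  exact intervalIntegral.integral_hasDerivAt_right (hc.intervalIntegrable _ _)
    (hc.stronglyMeasurableAtFilter _ _) hc.continuousAt

theorem Th_zero : Th n B 0 = 0 := by simp [Th]

/-- the key inequality `l Θ(s) f(U(s)) ≤ 1 - U(s)` -/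
theorem RadSol.key (hn : 3 ≤ n) (hB : 0 ≤ B) (hK : 0 ≤ K) (hl : 0 ≤ l) {U : ℝ → ℝ}
    (h : RadSol n B K l U) {s : ℝ} (hs : s ∈ Icc (0 : ℝ) 1) :
    l * Th n B s * ff K (U s) ≤ 1 - U s := by
  have hnr : (3 : ℝ) ≤ n := by exact_mod_cast hn
  have hn2 : 2 ≤ n := by omega
  have hanti := h.antitone hn hK hl
  -- lower bound of the derivative
  have hder : ∀ t ∈ Icc (0 : ℝ) 1, l * ff K (U t) * (1 / (2 * (n + B * t))) ≤ -deriv U t := by
    intro t ht
    rw [deriv_eq_Aop hn B h.c2 t, neg_neg]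
    have hf0 : 0 ≤ l * ff K (U t) := by
      have := one_le_ff hK (h.nonneg t ht) (h.lt_one t ht)
      positivity
    have h1 : l * ff K (U t) * (1 / (2 * (n + B * t))) ≤ l * ff K (U t) * Aop n B (fun _ => 1) t :=
      mul_le_mul_of_nonneg_left (Aop_one_ge hn hB ht.1) hf0
    refine h1.trans ?_
    rw [← Aop_const_mul]
    -- compare on [0,t]
    unfold Aop
    refine mul_le_mul_of_nonneg_left ?_ (by norm_num)
    have hw : Continuous fun θ => wt n B t θ :=
      (continuous_wt hn2 B).comp (Continuous.prodMk continuous_const continuous_id)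
    refine intervalIntegral.integral_mono_on zero_le_one
      ((hw.mul continuous_const).intervalIntegrable _ _)
      ((hw.mul ((Lr_continuous h.c2).comp (by fun_prop))).intervalIntegrable _ _) fun θ hθ => ?_
    refine mul_le_mul_of_nonneg_left ?_ (wt_nonneg hθ.1)
    have hm : θ * t ∈ Icc (0 : ℝ) 1 := ⟨mul_nonneg hθ.1 ht.1, by
      calc θ * t ≤ 1 * 1 := mul_le_mul hθ.2 ht.2 ht.1 zero_le_one
        _ = 1 := one_mul 1⟩
    rw [h.eq _ hm, mul_one]
    refine mul_le_mul_of_nonneg_left ?_ hl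
    refine ff_mono hK (hanti hm ht ?_) (h.lt_one _ hm)
    calc θ * t ≤ 1 * t := mul_le_mul_of_nonneg_right hθ.2 ht.1
      _ = t := one_mul t
  set D : ℝ → ℝ := fun t => (1 - U t) / ff K (U t) - l * Th n B t with hD
  have hfpos : ∀ t ∈ Icc (0 : ℝ) 1, 1 ≤ ff K (U t) := fun t ht =>
    one_le_ff hK (h.nonneg t ht) (h.lt_one t ht)
  have hDd : ∀ t ∈ Icc (0 : ℝ) 1, HasDerivAt D
      ((-deriv U t * ff K (U t) - (1 - U t) * (K / (1 - U t) * deriv U t)) / ff K (U t) ^ 2 -
        l * (1 / (2 * (n + B * |t|)))) t := by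
    intro t ht
    have h1 : HasDerivAt U (deriv U t) t := (h.c2.differentiable (by norm_num) t).hasDerivAt
    have h2 := (hasDerivAt_ff K (h.lt_one t ht)).comp t h1
    have h3 := (h1.const_sub 1).div h2 (by have := hfpos t ht; simp only [Function.comp]; linarith)
    exact h3.sub ((hasDerivAt_Th hn hB t).const_mul l)
  have hmono : MonotoneOn D (Icc 0 1) := by
    refine monotoneOn_of_deriv_nonneg (convex_Icc 0 1) (fun t ht =>
      (hDd t ht).continuousAt.continuousWithinAt) (fun t ht => ?_) fun t ht => ?_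
    · rw [interior_Icc] at ht
      exact (hDd t ⟨ht.1.le, ht.2.le⟩).differentiableAt.differentiableWithinAt
    · rw [interior_Icc] at ht
      have ht' : t ∈ Icc (0 : ℝ) 1 := ⟨ht.1.le, ht.2.le⟩
      rw [(hDd t ht').deriv, abs_of_pos ht.1]
      have h1 := hder t ht'
      have h2 := hfpos t ht'
      have h3 := h.lt_one t ht'
      have h4 : (1 - U t) * (K / (1 - U t) * deriv U t) = K * deriv U t := by
        have : (1 - U t) ≠ 0 := by linarith
        field_simp
      rw [h4]
      have h5 : 0 < ff K (U t) := by linarith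
      have h6 : 0 ≤ -deriv U t := by
        have := h.deriv_nonpos hn hK hl ht'
        linarith
      rw [sub_nonneg, le_div_iff₀ (by positivity)]
      have h7 : l * (1 / (2 * (n + B * t))) * ff K (U t) ^ 2 ≤ -deriv U t * ff K (U t) := by
        calc l * (1 / (2 * (n + B * t))) * ff K (U t) ^ 2
            = (l * ff K (U t) * (1 / (2 * (n + B * t)))) * ff K (U t) := by ring
          _ ≤ -deriv U t * ff K (U t) := mul_le_mul_of_nonneg_right h1 h5.le
      nlinarith
  have h0 : (0 : ℝ) ∈ Icc (0 : ℝ) 1 := ⟨le_rfl, zero_le_one⟩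
  have h1 := hmono h0 hs hs.1
  have h2 : 0 ≤ D 0 := by
    simp only [hD, Th_zero, mul_zero, sub_zero]
    have := h.lt_one 0 h0
    have := hfpos 0 h0
    apply div_nonneg <;> linarith
  have h3 : 0 ≤ D s := h2.trans h1
  simp only [hD] at h3
  rw [sub_nonneg, le_div_iff₀ (by have := hfpos s hs; linarith)] at h3
  exact h3

theorem Th_B0 (s : ℝ) : Th n 0 s = s / (2 * n) := by
  unfold Th
  simp
  ring

theorem Th_ge (hn : 3 ≤ n) (hB : 0 < B) {s : ℝ} (hs : 0 ≤ s) :
    1 / (2 * B) * Real.log (1 + B * s / n) = Th n B s := by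
  have hnr : (3 : ℝ) ≤ n := by exact_mod_cast hn
  unfold Th
  have h1 : ∀ t ∈ uIcc 0 s, HasDerivAt (fun t : ℝ => 1 / (2 * B) * Real.log (1 + B * t / n))
      (1 / (2 * (n + B * |t|))) t := by
    intro t ht
    rw [uIcc_of_le hs] at ht
    have h2 : HasDerivAt (fun t : ℝ => 1 + B * t / n) (B / n) t := by
      have := (((hasDerivAt_id t).const_mul B).div_const (n : ℝ)).const_add 1
      simpa using this
    have h3 : 0 ≤ B * t / n := by
      have := mul_nonneg hB.le ht.1
      positivity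
    have h4 := (h2.log (by linarith)).const_mul (1 / (2 * B))
    refine h4.congr_deriv ?_
    rw [abs_of_nonneg ht.1]
    have h5 : (n : ℝ) + B * t ≠ 0 := by
      have := mul_nonneg hB.le ht.1
      positivity
    have h6 : 1 + B * t / (n : ℝ) ≠ 0 := by linarith
    field_simp
  have hc : Continuous fun σ : ℝ => 1 / (2 * ((n : ℝ) + B * |σ|)) := by
    refine Continuous.div (by fun_prop) (by fun_prop) fun σ => ?_
    have := mul_nonneg hB.le (abs_nonneg σ)
    positivity
  rw [intervalIntegral.integral_eq_sub_of_hasDerivAt h1 (hc.intervalIntegrable _ _)]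
  simp

end

end Pool.Agent.W800.AC
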