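import Pool.Agent.H947R3.Int

set_option autoImplicit false
open MeasureTheory Filter Topology Set Metric Laplacian InnerProductSpace
open scoped ContDiff

namespace Pool.Agent.W800.AC

open Pool.Agent.H947R3 (E bv pd)

section general
variable {F : Type*} [NormedAddCommGroup F] [InnerProductSpace ℝ F] [FiniteDimensional ℝ F]

/-- The Laplacian computed from the second derivative. -/
lemma laplacian_eq_of_hasFDerivAt {f : F → ℝ} {f' : F → F →L[ℝ] ℝ}
    {f'' : F →L[ℝ] F →L[ℝ] ℝ} {x : F} {ι : Type*} [Fintype ι] (b : OrthonormalBasis ι ℝ F)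
    (h : ∀ᶠ y in nhds x, HasFDerivAt f (f' y) y) (h' : HasFDerivAt f' f'' x) :
    Δ f x = ∑ i, f'' (b i) (b i) := by
  rw [laplacian_eq_iteratedFDeriv_orthonormalBasis f b]
  refine Finset.sum_congr rfl fun i _ => ?_
  rw [iteratedFDeriv_two_apply]
  have h1 : fderiv ℝ f =ᶠ[nhds x] f' := by
    filter_upwards [h] with y hy using hy.fderiv
  rw [h1.fderiv_eq, h'.fderiv]
  simp

omit [FiniteDimensional ℝ F] in
lemma bilin_aux (w e : F) (he : inner ℝ e e = (1 : ℝ)) (α β : ℝ) :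
    (α • (2 • (innerSL ℝ : F →L[ℝ] F →L[ℝ] ℝ)) +
      (β • (2 • (innerSL ℝ w))).smulRight ((2 : ℕ) • (innerSL ℝ w))) e e =
      4 * β * (inner ℝ w e) ^ 2 + 2 * α := by
  rw [add_apply, ContinuousLinearMap.smulRight_apply]
  simp [he, -inner_self_eq_norm_sq_to_K]
  ring

omit [FiniteDimensional ℝ F] in
lemma hasFDerivAt_normSq_sub (c y : F) :
    HasFDerivAt (fun y : F => ‖y - c‖ ^ 2) (2 • (innerSL ℝ (y - c))) y := by
  have h1 := (hasStrictFDerivAt_norm_sq (y - c)).hasFDerivAt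
  have h2 := h1.comp y ((hasFDerivAt_id y).sub_const c)
  exact h2

/-- Laplacian of a function of `‖x - c‖²`. -/
lemma lap_comp {U U' U'' : ℝ → ℝ} (c x : F)
    (h : ∀ᶠ s in 𝓝 (‖x - c‖ ^ 2), HasDerivAt U (U' s) s)
    (h' : HasDerivAt U' (U'' (‖x - c‖ ^ 2)) (‖x - c‖ ^ 2)) :
    Δ (fun y : F => U (‖y - c‖ ^ 2)) x =
      4 * ‖x - c‖ ^ 2 * U'' (‖x - c‖ ^ 2) +
        2 * (Module.finrank ℝ F : ℝ) * U' (‖x - c‖ ^ 2) := by
  have hcont : Continuous (fun y : F => ‖y - c‖ ^ 2) := by fun_prop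
  have h1 : ∀ᶠ y in 𝓝 x, HasFDerivAt (fun y : F => U (‖y - c‖ ^ 2))
      (U' (‖y - c‖ ^ 2) • (2 • (innerSL ℝ (y - c)))) y := by
    filter_upwards [hcont.continuousAt.eventually h] with y hy
    exact hy.comp_hasFDerivAt y (hasFDerivAt_normSq_sub c y)
  have h2 : HasFDerivAt (fun y : F => U' (‖y - c‖ ^ 2))
      (U'' (‖x - c‖ ^ 2) • (2 • (innerSL ℝ (x - c)))) x :=
    h'.comp_hasFDerivAt x (hasFDerivAt_normSq_sub c x)
  have h3 : HasFDerivAt (fun y : F => (2 : ℕ) • (innerSL ℝ (y - c)))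
      (2 • (innerSL ℝ : F →L[ℝ] F →L[ℝ] ℝ)) x := by
    have := (((2 : ℕ) • (innerSL ℝ : F →L[ℝ] F →L[ℝ] ℝ)).hasFDerivAt (x := x - c)).comp x
      ((hasFDerivAt_id x).sub_const c)
    exact this
  have h4 := h2.smul h3
  rw [laplacian_eq_of_hasFDerivAt (stdOrthonormalBasis ℝ F) h1 h4]
  have hsum := (stdOrthonormalBasis ℝ F).sum_sq_inner_left (x - c)
  have hterm : ∀ i, (U' (‖x - c‖ ^ 2) • (2 • (innerSL ℝ : F →L[ℝ] F →L[ℝ] ℝ)) +
      (U'' (‖x - c‖ ^ 2) • (2 • (innerSL ℝ (x - c)))).smulRight ((2 : ℕ) • (innerSL ℝ (x - c))))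
        ((stdOrthonormalBasis ℝ F) i) ((stdOrthonormalBasis ℝ F) i) =
      4 * U'' (‖x - c‖ ^ 2) * (inner ℝ (x - c) ((stdOrthonormalBasis ℝ F) i)) ^ 2 +
        2 * U' (‖x - c‖ ^ 2) := by
    intro i
    exact bilin_aux _ _ (by rw [real_inner_self_eq_norm_sq]; simp) _ _
  rw [Finset.sum_congr rfl fun i _ => hterm i, Finset.sum_add_distrib, ← Finset.mul_sum, hsum]
  simp
  ring

end general

/-- partial derivatives of a function of `‖x - c‖²` -/
lemma pd_comp {n : ℕ} {U : ℝ → ℝ} {d : ℝ} (c x : E n) (h : HasDerivAt U d (‖x - c‖ ^ 2)) (i : Fin n) :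
    pd (fun y : E n => U (‖y - c‖ ^ 2)) i x = 2 * d * (x - c) i := by
  unfold pd
  have h1 : HasFDerivAt (fun y : E n => U (‖y - c‖ ^ 2)) (d • (2 • (innerSL ℝ (x - c)))) x :=
    h.comp_hasFDerivAt x (hasFDerivAt_normSq_sub c x)
  rw [h1.fderiv, Pool.Agent.H947R3.bv_eq]
  simp [EuclideanSpace.inner_single_right]
  ring

lemma sum_pd_comp_sq {n : ℕ} {U : ℝ → ℝ} {d : ℝ} (c x : E n) (h : HasDerivAt U d (‖x - c‖ ^ 2)) :
    ∑ i, (pd (fun y : E n => U (‖y - c‖ ^ 2)) i x) ^ 2 = 4 * ‖x - c‖ ^ 2 * d ^ 2 := by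
  simp_rw [pd_comp c x h]
  rw [EuclideanSpace.real_norm_sq_eq, Finset.mul_sum, Finset.sum_mul]
  refine Finset.sum_congr rfl fun i _ => ?_
  ring

/-- composing with `max · ε` a function which is flat at `ε` -/
lemma hasDerivAt_comp_max {G G' : ℝ → ℝ} {ε : ℝ} (hG : ∀ t, ε ≤ t → HasDerivAt G (G' t) t)
    (h0 : G' ε = 0) (t : ℝ) : HasDerivAt (fun s => G (max s ε)) (G' (max t ε)) t := by
  rcases lt_trichotomy t ε with h | h | h
  · rw [max_eq_right h.le, h0]
    have : (fun s => G (max s ε)) =ᶠ[𝓝 t] fun _ => G ε := by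
      filter_upwards [Iio_mem_nhds h] with s hs
      rw [max_eq_right (le_of_lt hs)]
    exact (hasDerivAt_const t (G ε)).congr_of_eventuallyEq this
  · subst h
    rw [max_self, h0, hasDerivAt_iff_isLittleO]
    have h1 := hG t le_rfl
    rw [h0, hasDerivAt_iff_isLittleO] at h1
    have h2 : Tendsto (fun s => max s t) (𝓝 t) (𝓝 t) := by
      have : Continuous fun s : ℝ => max s t := by fun_prop
      simpa using this.tendsto t
    have h3 := h1.comp_tendsto h2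
    simp only [smul_zero, sub_zero, max_self, Function.comp_def] at h3 ⊢
    refine h3.trans_isBigO ?_
    refine Asymptotics.IsBigO.of_bound 1 (Eventually.of_forall fun s => ?_)
    rw [one_mul, Real.norm_eq_abs, Real.norm_eq_abs]
    have := abs_max_sub_max_le_abs s t t
    simpa using this
  · rw [max_eq_left h.le]
    have : (fun s => G (max s ε)) =ᶠ[𝓝 t] G := by
      filter_upwards [Ioi_mem_nhds h] with s hs
      rw [max_eq_left (le_of_lt hs)]
    exact (hG t h.le).congr_of_eventuallyEq this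

end Pool.Agent.W800.AC
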