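import Pool.Agent.W800.AC.Weak
import Pool.Agent.W800.AC.Exist

set_option autoImplicit false
open MeasureTheory Filter Topology Set Metric Laplacian InnerProductSpace
open scoped ContDiff

namespace Pool.Agent.W800.AC

open Pool.Agent.H947R3

/-- `k(t) = t/(1-t) + log(1-t)` -/
noncomputable def kk (t : ℝ) : ℝ := t / (1 - t) + Real.log (1 - t)

section
variable {n : ℕ} {Ω : Set (E n)} {u : E n → ℝ} {ε : ℝ}

theorem adm_closure (h : Adm Ω u) {x : E n} (hx : x ∈ closure Ω) : 0 ≤ u x ∧ u x < 1 := by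
  by_cases hxΩ : x ∈ Ω
  · exact ⟨(h.pos x hxΩ).le, h.lt x hxΩ⟩
  · have : x ∈ frontier Ω := by rw [frontier, h.opn.interior_eq]; exact ⟨hx, hxΩ⟩
    rw [h.bdry x this]; exact ⟨le_rfl, one_pos⟩

theorem adm_int (h : Adm Ω u) {g : E n → ℝ} (hg : ContinuousOn g (closure Ω)) :
    IntegrableOn g Ω :=
  (hg.integrableOn_compact h.bdd.isCompact_closure).mono_set subset_closure

theorem adm_cont_inv (h : Adm Ω u) : ContinuousOn (fun x => 1 / (1 - u x)) (closure Ω) :=
  continuousOn_const.div (continuousOn_const.sub h.cont) fun x hx => by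
    have := (adm_closure h hx).2
    linarith

theorem adm_cont_ff (h : Adm Ω u) (K : ℝ) : ContinuousOn (fun x => ff K (u x)) (closure Ω) :=
  (continuousOn_ff K).comp h.cont fun _ hx => (adm_closure h hx).2

theorem adm_cont_kk (h : Adm Ω u) : ContinuousOn (fun x => kk (u x)) (closure Ω) := by
  unfold kk
  refine (h.cont.div (continuousOn_const.sub h.cont) fun x hx => ?_).add
    ((continuousOn_const.sub h.cont).log fun x hx => ?_)
  · exact (sub_pos.2 (adm_closure h hx).2).ne'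
  · exact (sub_pos.2 (adm_closure h hx).2).ne'

theorem int_to_set (hΩ : IsOpen Ω) {F G : E n → ℝ} (h0 : ∀ x, x ∉ Ω → F x = 0)
    (h1 : ∀ x ∈ Ω, F x = G x) : ∫ x, F x = ∫ x in Ω, G x := by
  rw [← setIntegral_eq_integral_of_forall_compl_eq_zero h0]
  exact setIntegral_congr_fun hΩ.measurableSet h1

theorem cmp_in {Θ : ℝ → ℝ} {x : E n} (hx : x ∈ Ω) : Pool.Agent.H947R3.cmp Ω Θ u x = Θ (u x) := by
  simp [Pool.Agent.H947R3.cmp, hx]

theorem cmp_out {Θ : ℝ → ℝ} {x : E n} (hx : x ∉ Ω) : Pool.Agent.H947R3.cmp Ω Θ u x = 0 := by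
  simp [Pool.Agent.H947R3.cmp, hx]

theorem continuous_Tf (hε : 0 < ε) : Continuous (Tf ε) :=
  continuous_iff_continuousAt.2 fun t => (hasDerivAt_Tf hε t).continuousAt
theorem continuous_Pf (hε : 0 < ε) : Continuous (Pf ε) :=
  continuous_iff_continuousAt.2 fun t => (hasDerivAt_Pf hε t).continuousAt
theorem continuous_Gf (hε : 0 < ε) : Continuous (Gf ε) :=
  continuous_iff_continuousAt.2 fun t => (hasDerivAt_Gf hε t).continuousAt

theorem continuous_lap {ζ : E n → ℝ} (hζ : ContDiff ℝ 2 ζ) : Continuous (Δ ζ) := by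
  have := continuousOn_lap isOpen_univ (u := ζ) hζ.contDiffOn
  rwa [continuousOn_univ] at this

/-- the stability inequality tested with `u η`. -/
theorem stab_lim (h : Adm Ω u) {K l : ℝ} (hK : 0 < K) (hl : 0 < l)
    (heq : ∀ x ∈ Ω, -(Δ u x) = l * ff K (u x))
    (hst : Stable Ω (fun x => l * (K / (1 - u x)))) {η : E n → ℝ} (hη : ContDiff ℝ 2 η) :
    l * ∫ x in Ω, (u x * (K * kk (u x) - 1)) * η x ^ 2 ≤
      ∫ x in Ω, u x ^ 2 * ∑ i, (pd η i x) ^ 2 := by
  have hη1 : ContDiff ℝ 1 η := hη.of_le (by norm_num)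
  have hη2 : ContDiff ℝ 2 (fun y => η y ^ 2) := hη.pow 2
  have hlapc := continuous_lap hη2
  have hSc : Continuous (fun x => ∑ i, (pd η i x) ^ 2) :=
    continuous_finsetSum _ fun i _ => (continuous_pd hη1 i).pow 2
  have hS0 : ∀ x, 0 ≤ ∑ i, (pd η i x) ^ 2 := fun x => Finset.sum_nonneg fun i _ => sq_nonneg _
  have hcomp := h.bdd.isCompact_closure
  set g1 : E n → ℝ := fun x => l * K * (1 / (1 - u x)) * η x ^ 2 with hg1
  have hg1c : ContinuousOn g1 (closure Ω) :=
    (continuousOn_const.mul (adm_cont_inv h)).mul (hη.continuous.pow 2).continuousOn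
  have hg10 : ∀ x ∈ closure Ω, 0 ≤ g1 x := fun x hx => by
    have := (adm_closure h hx).2
    have h1 : 0 < 1 - u x := by linarith
    simp only [hg1]; positivity
  obtain ⟨M1, hM1⟩ := hcomp.exists_bound_of_continuousOn hg1c
  obtain ⟨M2, hM2⟩ := hcomp.exists_bound_of_continuousOn (hlapc.continuousOn (s := closure Ω))
  set W := volume.real Ω with hW
  have hcl : ∀ x ∈ Ω, x ∈ closure Ω := fun x hx => subset_closure hx
  have hintc : ∀ c : ℝ, ∫ _ in Ω, c = W * c := fun c => by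
    rw [setIntegral_const, smul_eq_mul]
  refine le_of_eps (C := 4 * M1 * W + 2 / 3 * (M2 * W)) fun ε hε hε1 => ?_
  have key := stab_ineq h hε hst hη
  have uc := h.cont
  -- rewriting the four integrals
  rw [int_to_set h.opn (G := fun x => g1 x * (Tf ε (u x)) ^ 2)
      (fun x hx => by rw [cmp_out hx]; ring)
      (fun x hx => by rw [cmp_in hx]; simp only [hg1]; ring),
    int_to_set h.opn (G := fun x => l * (ff K (u x) * (Pf ε (u x) * η x ^ 2)))
      (fun x hx => by rw [cmp_out hx]; ring)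
      (fun x hx => by
        rw [cmp_in hx, ← neg_mul, heq x hx]; ring),
    int_to_set h.opn (G := fun x => -(Δ (fun y => η y ^ 2) x * Gf ε (u x)))
      (fun x hx => by rw [cmp_out hx]; ring)
      (fun x hx => by rw [cmp_in hx]),
    int_to_set h.opn (G := fun x => (Tf ε (u x)) ^ 2 * ∑ i, (pd η i x) ^ 2)
      (fun x hx => by rw [cmp_out hx]; ring)
      (fun x hx => by rw [cmp_in hx])] at key
  -- integrability
  have iT : IntegrableOn (fun x => g1 x * (Tf ε (u x)) ^ 2) Ω :=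
    adm_int h (hg1c.mul (((continuous_Tf hε).comp_continuousOn uc).pow 2))
  have iU : IntegrableOn (fun x => g1 x * u x ^ 2) Ω := adm_int h (hg1c.mul (uc.pow 2))
  have iP : IntegrableOn (fun x => l * (ff K (u x) * (Pf ε (u x) * η x ^ 2))) Ω :=
    adm_int h (continuousOn_const.mul ((adm_cont_ff h K).mul
      (((continuous_Pf hε).comp_continuousOn uc).mul (hη.continuous.pow 2).continuousOn)))
  have iF : IntegrableOn (fun x => l * (ff K (u x) * (u x * η x ^ 2))) Ω :=
    adm_int h (continuousOn_const.mul ((adm_cont_ff h K).mul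
      (uc.mul (hη.continuous.pow 2).continuousOn)))
  have iG : IntegrableOn (fun x => -(Δ (fun y => η y ^ 2) x * Gf ε (u x))) Ω :=
    adm_int h ((hlapc.continuousOn.mul ((continuous_Gf hε).comp_continuousOn uc)).neg)
  have iS : IntegrableOn (fun x => (Tf ε (u x)) ^ 2 * ∑ i, (pd η i x) ^ 2) Ω :=
    adm_int h ((((continuous_Tf hε).comp_continuousOn uc).pow 2).mul hSc.continuousOn)
  have iS' : IntegrableOn (fun x => (u x) ^ 2 * ∑ i, (pd η i x) ^ 2) Ω :=
    adm_int h ((uc.pow 2).mul hSc.continuousOn)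
  have iC : ∀ c : ℝ, IntegrableOn (fun _ : E n => c) Ω := fun c =>
    integrableOn_const h.bdd.measure_lt_top.ne
  -- the estimates
  have b1 : (∫ x in Ω, g1 x * u x ^ 2) - W * (4 * ε * M1) ≤ ∫ x in Ω, g1 x * (Tf ε (u x)) ^ 2 := by
    rw [← hintc, ← integral_sub iU (iC _)]
    refine setIntegral_mono_on (iU.sub (iC _)) iT h.opn.measurableSet fun x hx => ?_
    have h0 := hg10 x (hcl x hx)
    have h1 := hM1 x (hcl x hx)
    rw [Real.norm_eq_abs, abs_of_nonneg h0] at h1
    have hu0 := (h.pos x hx).le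
    have hu1 := (h.lt x hx).le
    have t0 := Tf_nonneg hε (u x)
    have t1 := Tf_le hε hu0
    have t2 := Tf_ge hε (u x)
    have h2 : u x ^ 2 - (Tf ε (u x)) ^ 2 ≤ 4 * ε := by nlinarith
    have h3 : 0 ≤ u x ^ 2 - (Tf ε (u x)) ^ 2 := by nlinarith
    have h4 : g1 x * (u x ^ 2 - (Tf ε (u x)) ^ 2) ≤ M1 * (4 * ε) := mul_le_mul h1 h2 h3 (h0.trans h1)
    linarith
  have b2 : ∫ x in Ω, l * (ff K (u x) * (Pf ε (u x) * η x ^ 2)) ≤
      ∫ x in Ω, l * (ff K (u x) * (u x * η x ^ 2)) := by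
    refine setIntegral_mono_on iP iF h.opn.measurableSet fun x hx => ?_
    have hu0 := (h.pos x hx).le
    have h1 := (Pf_bounds hε hu0).1
    have h2 := one_le_ff hK.le hu0 (h.lt x hx)
    have h3 : Pf ε (u x) * η x ^ 2 ≤ u x * η x ^ 2 := mul_le_mul_of_nonneg_right h1 (sq_nonneg _)
    exact mul_le_mul_of_nonneg_left (mul_le_mul_of_nonneg_left h3 (by linarith)) hl.le
  have b3 : ∫ x in Ω, -(Δ (fun y => η y ^ 2) x * Gf ε (u x)) ≤ W * M2 := by
    rw [← hintc]
    refine setIntegral_mono_on iG (iC _) h.opn.measurableSet fun x hx => ?_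
    have h1 := hM2 x (hcl x hx)
    rw [Real.norm_eq_abs] at h1
    have hu0 := (h.pos x hx).le
    have hg0 := Gf_nonneg hε hu0
    have hg1 := (Gf_le hε hu0).trans (h.lt x hx).le
    have h2 : |Δ (fun y => η y ^ 2) x * Gf ε (u x)| ≤ M2 := by
      rw [abs_mul, abs_of_nonneg hg0]
      calc |Δ (fun y => η y ^ 2) x| * Gf ε (u x) ≤ |Δ (fun y => η y ^ 2) x| * 1 :=
            mul_le_mul_of_nonneg_left hg1 (abs_nonneg _)
        _ ≤ M2 := by linarith
    exact (neg_le_abs _).trans h2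
  have b4 : ∫ x in Ω, (Tf ε (u x)) ^ 2 * ∑ i, (pd η i x) ^ 2 ≤
      ∫ x in Ω, (u x) ^ 2 * ∑ i, (pd η i x) ^ 2 := by
    refine setIntegral_mono_on iS iS' h.opn.measurableSet fun x hx => ?_
    exact mul_le_mul_of_nonneg_right (pow_le_pow_left₀ (Tf_nonneg hε _)
      (Tf_le hε (h.pos x hx).le) 2) (hS0 x)
  have e5 : l * ∫ x in Ω, (u x * (K * kk (u x) - 1)) * η x ^ 2 =
      (∫ x in Ω, g1 x * u x ^ 2) - ∫ x in Ω, l * (ff K (u x) * (u x * η x ^ 2)) := by
    rw [← integral_const_mul, ← integral_sub iU iF]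
    refine setIntegral_congr_fun h.opn.measurableSet fun x hx => ?_
    have h1 : (1 : ℝ) - u x ≠ 0 := by have := h.lt x hx; linarith
    simp only [hg1]
    unfold kk ff
    field_simp
    ring
  rw [e5]
  have b3' : 2 / 3 * ε * ∫ x in Ω, -(Δ (fun y => η y ^ 2) x * Gf ε (u x)) ≤ 2 / 3 * ε * (W * M2) :=
    mul_le_mul_of_nonneg_left b3 (by positivity)
  linarith

/-- the weak inequality `-Δ u ≤ l f(u)` in the whole space. -/
theorem weak_lim (h : Adm Ω u) {K l : ℝ} (hK : 0 < K) (hl : 0 < l)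
    (heq : ∀ x ∈ Ω, -(Δ u x) = l * ff K (u x)) {ζ : E n → ℝ} (hζ : ContDiff ℝ 2 ζ)
    (hζ0 : ∀ x, 0 ≤ ζ x) :
    ∫ x in Ω, -(Δ ζ x) * u x ≤ ∫ x in Ω, l * ff K (u x) * ζ x := by
  have hlapc := continuous_lap hζ
  have hcomp := h.bdd.isCompact_closure
  obtain ⟨M2, hM2⟩ := hcomp.exists_bound_of_continuousOn (hlapc.continuousOn (s := closure Ω))
  set W := volume.real Ω with hW
  have hcl : ∀ x ∈ Ω, x ∈ closure Ω := fun x hx => subset_closure hx
  have hintc : ∀ c : ℝ, ∫ _ in Ω, c = W * c := fun c => by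
    rw [setIntegral_const, smul_eq_mul]
  refine le_of_eps (C := W * (M2 * (8 / 3))) fun ε hε hε1 => ?_
  have key := weak_ineq h hε hζ hζ0
  have uc := h.cont
  rw [int_to_set h.opn (G := fun x => -(Δ ζ x) * Pf ε (u x))
      (fun x hx => by rw [cmp_out hx]; ring)
      (fun x hx => by rw [cmp_in hx]; ring),
    int_to_set h.opn (G := fun x => l * ff K (u x) * ((dTf ε (u x)) ^ 2 * ζ x))
      (fun x hx => by rw [cmp_out hx]; ring)
      (fun x hx => by
        rw [cmp_in hx, ← neg_mul, heq x hx])] at key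
  have iP : IntegrableOn (fun x => -(Δ ζ x) * Pf ε (u x)) Ω :=
    adm_int h (hlapc.neg.continuousOn.mul ((continuous_Pf hε).comp_continuousOn uc))
  have iU : IntegrableOn (fun x => -(Δ ζ x) * u x) Ω :=
    adm_int h (hlapc.neg.continuousOn.mul uc)
  have iD : IntegrableOn (fun x => l * ff K (u x) * ((dTf ε (u x)) ^ 2 * ζ x)) Ω :=
    adm_int h ((continuousOn_const.mul (adm_cont_ff h K)).mul
      ((((continuous_dTf hε).comp_continuousOn uc).pow 2).mul hζ.continuous.continuousOn))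
  have iF : IntegrableOn (fun x => l * ff K (u x) * ζ x) Ω :=
    adm_int h ((continuousOn_const.mul (adm_cont_ff h K)).mul hζ.continuous.continuousOn)
  have iC : ∀ c : ℝ, IntegrableOn (fun _ : E n => c) Ω := fun c =>
    integrableOn_const h.bdd.measure_lt_top.ne
  have b1 : (∫ x in Ω, -(Δ ζ x) * u x) - W * (M2 * (8 / 3 * ε)) ≤
      ∫ x in Ω, -(Δ ζ x) * Pf ε (u x) := by
    rw [← hintc, ← integral_sub iU (iC _)]
    refine setIntegral_mono_on (iU.sub (iC _)) iP h.opn.measurableSet fun x hx => ?_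
    have h1 := hM2 x (hcl x hx)
    rw [Real.norm_eq_abs] at h1
    have hu0 := (h.pos x hx).le
    have h2 := Pf_bounds hε hu0
    have h3 : |-(Δ ζ x) * (u x - Pf ε (u x))| ≤ M2 * (8 / 3 * ε) := by
      rw [abs_mul, abs_neg, abs_of_nonneg (by linarith [h2.1] : (0 : ℝ) ≤ u x - Pf ε (u x))]
      exact mul_le_mul h1 (by linarith [h2.2]) (by linarith [h2.1]) ((abs_nonneg _).trans h1)
    have h4 := (le_abs_self _).trans h3
    linarith
  have b2 : ∫ x in Ω, l * ff K (u x) * ((dTf ε (u x)) ^ 2 * ζ x) ≤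
      ∫ x in Ω, l * ff K (u x) * ζ x := by
    refine setIntegral_mono_on iD iF h.opn.measurableSet fun x hx => ?_
    have hu0 := (h.pos x hx).le
    have h2 := one_le_ff hK.le hu0 (h.lt x hx)
    have h3 : (dTf ε (u x)) ^ 2 ≤ 1 := pow_le_one₀ (dTf_nonneg hε _) (dTf_le hε _)
    have h4 : (dTf ε (u x)) ^ 2 * ζ x ≤ 1 * ζ x := mul_le_mul_of_nonneg_right h3 (hζ0 x)
    rw [one_mul] at h4
    exact mul_le_mul_of_nonneg_left h4 (by positivity)
  linarith

end

end Pool.Agent.W800.AC
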