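import Mathlib

set_option autoImplicit false
open MeasureTheory Filter Topology Set Metric
open scoped ContDiff

namespace Pool.Agent.W800.AC

/-- differentiation of `∫₀¹ F(s,θ) dθ` -/
theorem hasDerivAt_param {F F' : ℝ → ℝ → ℝ} (hF : Continuous (Function.uncurry F))
    (hF' : Continuous (Function.uncurry F'))
    (hd : ∀ s θ, θ ∈ Ioc (0 : ℝ) 1 → HasDerivAt (fun s => F s θ) (F' s θ) s) (s : ℝ) :
    HasDerivAt (fun s => ∫ θ in (0 : ℝ)..1, F s θ) (∫ θ in (0 : ℝ)..1, F' s θ) s := by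
  obtain ⟨C, hC⟩ := ((isCompact_Icc (a := s - 1) (b := s + 1)).prod
    (isCompact_Icc (a := (0 : ℝ)) (b := 1))).exists_bound_of_continuousOn hF'.continuousOn
  refine (intervalIntegral.hasDerivAt_integral_of_dominated_loc_of_deriv_le
    (F := F) (F' := F')
    (bound := fun _ => C) (s := Metric.ball s 1) (Metric.ball_mem_nhds s one_pos) ?_ ?_ ?_ ?_ ?_ ?_).2
  · exact Eventually.of_forall fun x =>
      (hF.comp (Continuous.prodMk continuous_const continuous_id)).aestronglyMeasurable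
  · exact (hF.comp (Continuous.prodMk continuous_const continuous_id)).intervalIntegrable _ _
  · exact (hF'.comp (Continuous.prodMk continuous_const continuous_id)).aestronglyMeasurable
  · refine Eventually.of_forall fun θ hθ x hx => ?_
    rw [uIoc_of_le zero_le_one] at hθ
    rw [Metric.mem_ball, Real.dist_eq, abs_lt] at hx
    exact hC (x, θ) ⟨⟨by linarith [hx.1], by linarith [hx.2]⟩, ⟨hθ.1.le, hθ.2⟩⟩
  · exact intervalIntegrable_const
  · refine Eventually.of_forall fun θ hθ x _ => ?_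
    rw [uIoc_of_le zero_le_one] at hθ
    exact hd x θ hθ

theorem continuous_param {F : ℝ → ℝ → ℝ} (hF : Continuous (Function.uncurry F)) :
    Continuous (fun s => ∫ θ in (0 : ℝ)..1, F s θ) :=
  intervalIntegral.continuous_parametric_intervalIntegral_of_continuous' hF 0 1

/-- the weight `θ^{n/2-1} e^{-Bs(1-θ)/2}` -/
noncomputable def wt (n : ℕ) (B : ℝ) (s θ : ℝ) : ℝ :=
  θ ^ ((n : ℝ) / 2 - 1) * Real.exp (-(B * s * (1 - θ) / 2))

/-- the averaging operator -/
noncomputable def Aop (n : ℕ) (B : ℝ) (g : ℝ → ℝ) (s : ℝ) : ℝ :=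
  (1 / 4) * ∫ θ in (0 : ℝ)..1, wt n B s θ * g (θ * s)

theorem continuous_wt {n : ℕ} (hn : 2 ≤ n) (B : ℝ) : Continuous (Function.uncurry (wt n B)) := by
  unfold wt
  have h0 : (0 : ℝ) ≤ (n : ℝ) / 2 - 1 := by
    have : (2 : ℝ) ≤ n := by exact_mod_cast hn
    linarith
  have h1 : Continuous fun θ : ℝ => θ ^ ((n : ℝ) / 2 - 1) := Real.continuous_rpow_const h0
  have h2 : Continuous fun p : ℝ × ℝ => p.2 ^ ((n : ℝ) / 2 - 1) := h1.comp continuous_snd
  simp only [Function.uncurry_def]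
  fun_prop

theorem wt_pos {n : ℕ} {B s θ : ℝ} (hθ : 0 < θ) : 0 < wt n B s θ :=
  mul_pos (Real.rpow_pos_of_pos hθ _) (Real.exp_pos _)

theorem wt_nonneg {n : ℕ} {B s θ : ℝ} (hθ : 0 ≤ θ) : 0 ≤ wt n B s θ :=
  mul_nonneg (Real.rpow_nonneg hθ _) (Real.exp_pos _).le

theorem wt_le_one {n : ℕ} (hn : 2 ≤ n) {B s θ : ℝ} (hB : 0 ≤ B) (hs : 0 ≤ s) (hθ : 0 ≤ θ)
    (hθ1 : θ ≤ 1) : wt n B s θ ≤ 1 := by
  have h0 : (0 : ℝ) ≤ (n : ℝ) / 2 - 1 := by
    have : (2 : ℝ) ≤ n := by exact_mod_cast hn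
    linarith
  unfold wt
  have h1 : θ ^ ((n : ℝ) / 2 - 1) ≤ 1 := Real.rpow_le_one hθ hθ1 h0
  have h2 : Real.exp (-(B * s * (1 - θ) / 2)) ≤ 1 := by
    rw [Real.exp_le_one_iff]
    have : 0 ≤ B * s * (1 - θ) := mul_nonneg (mul_nonneg hB hs) (by linarith)
    linarith
  calc _ ≤ 1 * 1 := mul_le_mul h1 h2 (Real.exp_pos _).le zero_le_one
    _ = 1 := one_mul 1

theorem continuous_Aop {n : ℕ} (hn : 2 ≤ n) (B : ℝ) {g : ℝ → ℝ} (hg : Continuous g) :
    Continuous (Aop n B g) := by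
  unfold Aop
  refine continuous_const.mul (continuous_param (F := fun s θ => wt n B s θ * g (θ * s)) ?_)
  have := continuous_wt hn B
  simp only [Function.uncurry_def] at this ⊢
  exact this.mul (hg.comp (by fun_prop))

theorem hasDerivAt_Aop {n : ℕ} (hn : 2 ≤ n) (B : ℝ) {g : ℝ → ℝ} (hg : ContDiff ℝ 1 g) (s : ℝ) :
    HasDerivAt (Aop n B g) ((1 / 4) * ∫ θ in (0 : ℝ)..1,
      (wt n B s θ * (-(B * (1 - θ) / 2)) * g (θ * s) + wt n B s θ * (θ * deriv g (θ * s)))) s := by
  have hgc := hg.continuous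
  have hg' : Continuous (deriv g) := hg.continuous_deriv (by norm_num)
  have hw := continuous_wt hn B
  unfold Aop
  refine HasDerivAt.const_mul _ (hasDerivAt_param (F := fun s θ => wt n B s θ * g (θ * s))
    (F' := fun s θ => wt n B s θ * (-(B * (1 - θ) / 2)) * g (θ * s) +
      wt n B s θ * (θ * deriv g (θ * s))) ?_ ?_ ?_ s)
  · simp only [Function.uncurry_def] at hw ⊢
    exact hw.mul (hgc.comp (by fun_prop))
  · simp only [Function.uncurry_def] at hw ⊢
    have e1 : Continuous fun p : ℝ × ℝ => g (p.2 * p.1) := hgc.comp (by fun_prop)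
    have e2 : Continuous fun p : ℝ × ℝ => deriv g (p.2 * p.1) := hg'.comp (by fun_prop)
    exact ((hw.mul (by fun_prop)).mul e1).add (hw.mul (continuous_snd.mul e2))
  · intro s θ _
    have h1 : HasDerivAt (fun s : ℝ => wt n B s θ) (wt n B s θ * (-(B * (1 - θ) / 2))) s := by
      unfold wt
      have h2 : HasDerivAt (fun s : ℝ => -(B * s * (1 - θ) / 2)) (-(B * (1 - θ) / 2)) s := by
        have := (((hasDerivAt_id s).const_mul B).mul_const (1 - θ)).div_const 2 |>.neg
        refine this.congr_deriv ?_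
        ring
      have h3 := h2.exp.const_mul (θ ^ ((n : ℝ) / 2 - 1))
      refine h3.congr_deriv ?_
      ring
    have h4 : HasDerivAt (fun s : ℝ => g (θ * s)) (θ * deriv g (θ * s)) s := by
      have h5 : HasDerivAt g (deriv g (θ * s)) (θ * s) :=
        (hg.differentiable (by norm_num) _).hasDerivAt
      have h6 : HasDerivAt (fun s : ℝ => θ * s) θ s := by
        simpa using (hasDerivAt_id s).const_mul θ
      refine (h5.comp s h6).congr_deriv ?_
      ring
    exact h1.mul h4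

/-- `A g` is `C¹` if `g` is. -/
theorem contDiff_Aop {n : ℕ} (hn : 2 ≤ n) (B : ℝ) {g : ℝ → ℝ} (hg : ContDiff ℝ 1 g) :
    ContDiff ℝ 1 (Aop n B g) := by
  have hgc := hg.continuous
  have hg' : Continuous (deriv g) := hg.continuous_deriv (by norm_num)
  have hw := continuous_wt hn B
  have hd := hasDerivAt_Aop hn B hg
  rw [contDiff_one_iff_deriv]
  refine ⟨fun s => (hd s).differentiableAt, ?_⟩
  have e : deriv (Aop n B g) = fun s => (1 / 4) * ∫ θ in (0 : ℝ)..1,
      (wt n B s θ * (-(B * (1 - θ) / 2)) * g (θ * s) + wt n B s θ * (θ * deriv g (θ * s))) :=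
    funext fun s => (hd s).deriv
  rw [e]
  refine continuous_const.mul (continuous_param
    (F := fun s θ => (wt n B s θ * (-(B * (1 - θ) / 2)) * g (θ * s) +
      wt n B s θ * (θ * deriv g (θ * s)))) ?_)
  simp only [Function.uncurry_def] at hw ⊢
  have e1 : Continuous fun p : ℝ × ℝ => g (p.2 * p.1) := hgc.comp (by fun_prop)
  have e2 : Continuous fun p : ℝ × ℝ => deriv g (p.2 * p.1) := hg'.comp (by fun_prop)
  exact ((hw.mul (by fun_prop)).mul e1).add (hw.mul (continuous_snd.mul e2))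

theorem Aop_congr {n : ℕ} {B : ℝ} {g h : ℝ → ℝ} {s : ℝ} (hs : s ∈ Icc (0 : ℝ) 1)
    (he : ∀ t ∈ Icc (0 : ℝ) 1, g t = h t) : Aop n B g s = Aop n B h s := by
  unfold Aop
  congr 1
  refine intervalIntegral.integral_congr fun θ hθ => ?_
  rw [uIcc_of_le zero_le_one] at hθ
  have hm : θ * s ∈ Icc (0 : ℝ) 1 := ⟨mul_nonneg hθ.1 hs.1, by
    calc θ * s ≤ 1 * 1 := mul_le_mul hθ.2 hs.2 hs.1 zero_le_one
      _ = 1 := one_mul 1⟩
  simp only [he _ hm]

/-- `A` inverts the radial operator -/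
theorem Aop_identity {n : ℕ} (hn : 3 ≤ n) (B : ℝ) {g : ℝ → ℝ} (hg : ContDiff ℝ 1 g) (s : ℝ) :
    4 * s * deriv (Aop n B g) s + 2 * (n + B * s) * Aop n B g s = g s := by
  have hgc := hg.continuous
  have hg' : Continuous (deriv g) := hg.continuous_deriv (by norm_num)
  have hn2 : 2 ≤ n := by omega
  have hn0 : (0 : ℝ) < (n : ℝ) / 2 := by
    have : (3 : ℝ) ≤ n := by exact_mod_cast hn
    linarith
  have hw : Continuous fun θ => wt n B s θ :=
    (continuous_wt hn2 B).comp (Continuous.prodMk continuous_const continuous_id)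
  rw [(hasDerivAt_Aop hn2 B hg s).deriv]
  unfold Aop
  have hprim : ∀ θ ∈ Ioo (0 : ℝ) 1, HasDerivAt
      (fun θ : ℝ => θ ^ ((n : ℝ) / 2) * (Real.exp (-(B * s * (1 - θ) / 2)) * g (θ * s)))
      (s * (wt n B s θ * (-(B * (1 - θ) / 2)) * g (θ * s) + wt n B s θ * (θ * deriv g (θ * s))) +
        (n + B * s) / 2 * (wt n B s θ * g (θ * s))) θ := by
    intro θ hθ
    have h1 : HasDerivAt (fun θ : ℝ => θ ^ ((n : ℝ) / 2)) ((n : ℝ) / 2 * θ ^ ((n : ℝ) / 2 - 1)) θ :=
      Real.hasDerivAt_rpow_const (Or.inl hθ.1.ne')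
    have h2 : HasDerivAt (fun θ : ℝ => -(B * s * (1 - θ) / 2)) (B * s / 2) θ := by
      have := (((hasDerivAt_id θ).const_sub 1).const_mul (B * s)).div_const 2 |>.neg
      refine this.congr_deriv ?_
      ring
    have h3 : HasDerivAt (fun θ : ℝ => g (θ * s)) (s * deriv g (θ * s)) θ := by
      have h5 : HasDerivAt g (deriv g (θ * s)) (θ * s) :=
        (hg.differentiable (by norm_num) _).hasDerivAt
      have h6 : HasDerivAt (fun θ : ℝ => θ * s) s θ := by
        simpa using (hasDerivAt_id θ).mul_const s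
      refine (h5.comp θ h6).congr_deriv ?_
      ring
    have h4 := h1.mul (h2.exp.mul h3)
    refine h4.congr_deriv ?_
    unfold wt
    have e : θ ^ ((n : ℝ) / 2) = θ ^ ((n : ℝ) / 2 - 1) * θ := by
      nth_rewrite 3 [← Real.rpow_one θ]
      rw [← Real.rpow_add hθ.1]
      congr 1
      ring
    rw [e]
    simp only [Pi.mul_apply]
    ring
  have hcont : ContinuousOn (fun θ : ℝ => θ ^ ((n : ℝ) / 2) *
      (Real.exp (-(B * s * (1 - θ) / 2)) * g (θ * s))) (Icc 0 1) := by
    have h1 : Continuous fun θ : ℝ => θ ^ ((n : ℝ) / 2) := Real.continuous_rpow_const hn0.le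
    exact (h1.mul (Continuous.mul (by fun_prop) (hgc.comp (by fun_prop)))).continuousOn
  have c1 : Continuous fun θ : ℝ => wt n B s θ * (-(B * (1 - θ) / 2)) * g (θ * s) +
      wt n B s θ * (θ * deriv g (θ * s)) :=
    ((hw.mul (by fun_prop)).mul (hgc.comp (by fun_prop))).add
      (hw.mul (continuous_id.mul (hg'.comp (by fun_prop))))
  have c2 : Continuous fun θ : ℝ => wt n B s θ * g (θ * s) := hw.mul (hgc.comp (by fun_prop))
  have hint : IntervalIntegrable (fun θ => s * (wt n B s θ * (-(B * (1 - θ) / 2)) * g (θ * s) +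
      wt n B s θ * (θ * deriv g (θ * s))) + (n + B * s) / 2 * (wt n B s θ * g (θ * s))) volume 0 1 :=
    ((continuous_const.mul c1).add (continuous_const.mul c2)).intervalIntegrable _ _
  have h := intervalIntegral.integral_eq_sub_of_hasDerivAt_of_le zero_le_one hcont hprim hint
  have i1 : IntervalIntegrable (fun θ => s * (wt n B s θ * (-(B * (1 - θ) / 2)) * g (θ * s) +
      wt n B s θ * (θ * deriv g (θ * s)))) volume 0 1 :=
    (continuous_const.mul c1).intervalIntegrable _ _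
  have i2 : IntervalIntegrable (fun θ => (n + B * s) / 2 * (wt n B s θ * g (θ * s))) volume 0 1 :=
    (continuous_const.mul c2).intervalIntegrable _ _
  rw [intervalIntegral.integral_add i1 i2, intervalIntegral.integral_const_mul,
    intervalIntegral.integral_const_mul] at h
  rw [Real.zero_rpow hn0.ne', Real.one_rpow] at h
  simp only [sub_self, mul_zero, zero_div, neg_zero, Real.exp_zero, one_mul, zero_mul, sub_zero] at h
  linarith

/-- monotonicity of `A` on `[0,1]` -/
theorem Aop_mono {n : ℕ} (hn : 2 ≤ n) (B : ℝ) {g h : ℝ → ℝ} (hg : Continuous g) (hh : Continuous h)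
    {s : ℝ} (hs : s ∈ Icc (0 : ℝ) 1) (hle : ∀ t ∈ Icc (0 : ℝ) 1, g t ≤ h t) :
    Aop n B g s ≤ Aop n B h s := by
  unfold Aop
  have hw : Continuous fun θ => wt n B s θ := by
    have := continuous_wt hn B
    exact this.comp (Continuous.prodMk continuous_const continuous_id)
  refine mul_le_mul_of_nonneg_left ?_ (by norm_num)
  refine intervalIntegral.integral_mono_on zero_le_one ?_ ?_ ?_
  · exact (hw.mul (hg.comp (by fun_prop))).intervalIntegrable _ _
  · exact (hw.mul (hh.comp (by fun_prop))).intervalIntegrable _ _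
  · intro θ hθ
    refine mul_le_mul_of_nonneg_left (hle _ ⟨mul_nonneg hθ.1 hs.1, ?_⟩) (wt_nonneg hθ.1)
    calc θ * s ≤ 1 * 1 := mul_le_mul hθ.2 hs.2 hs.1 zero_le_one
      _ = 1 := one_mul 1

/-- bounds for `A` -/
theorem Aop_bound {n : ℕ} (hn : 2 ≤ n) {B : ℝ} (hB : 0 ≤ B) {g : ℝ → ℝ}
    {s C : ℝ} (hs : s ∈ Icc (0 : ℝ) 1) (hC : ∀ t ∈ Icc (0 : ℝ) 1, |g t| ≤ C) :
    |Aop n B g s| ≤ C / 4 := by
  unfold Aop
  have hC0 : 0 ≤ C := (abs_nonneg _).trans (hC 0 ⟨le_rfl, zero_le_one⟩)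
  have h1 := intervalIntegral.norm_integral_le_of_norm_le_const (a := (0:ℝ)) (b := 1) (C := C)
    (f := fun θ => wt n B s θ * g (θ * s)) (by
      intro θ hθ
      rw [uIoc_of_le zero_le_one] at hθ
      have hm : θ * s ∈ Icc (0 : ℝ) 1 := ⟨mul_nonneg hθ.1.le hs.1, by
        calc θ * s ≤ 1 * 1 := mul_le_mul hθ.2 hs.2 hs.1 zero_le_one
          _ = 1 := one_mul 1⟩
      rw [norm_mul, Real.norm_eq_abs, Real.norm_eq_abs, abs_of_nonneg (wt_nonneg hθ.1.le)]
      calc wt n B s θ * |g (θ * s)| ≤ 1 * C :=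
            mul_le_mul (wt_le_one hn hB hs.1 hθ.1.le hθ.2) (hC _ hm) (abs_nonneg _) zero_le_one
        _ = C := one_mul C)
  rw [abs_mul, abs_of_pos (by norm_num : (0:ℝ) < 1 / 4)]
  have h2 : |∫ θ in (0 : ℝ)..1, wt n B s θ * g (θ * s)| ≤ C := by simpa using h1
  linarith

/-- the second order radial operator in the variable `s = |x|²` -/
noncomputable def Lr (n : ℕ) (B : ℝ) (v : ℝ → ℝ) (s : ℝ) : ℝ :=
  -(4 * s * deriv (deriv v) s) - 2 * (n + B * s) * deriv v s

/-- the integrated form of `L v = g` -/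
theorem deriv_eq_Aop {n : ℕ} (hn : 3 ≤ n) (B : ℝ) {v : ℝ → ℝ} (hv : ContDiff ℝ 2 v) (s : ℝ) :
    deriv v s = -Aop n B (Lr n B v) s := by
  have hv1 : ContDiff ℝ 1 (deriv v) := by
    have := (contDiff_succ_iff_deriv (n := 1) (f := v)).1 (by
      rw [show ((1 : WithTop ℕ∞) + 1) = 2 by norm_num]; exact hv)
    exact this.2.2
  have hv2 : Continuous (deriv (deriv v)) := hv1.continuous_deriv (by norm_num)
  have hvc : Continuous (deriv v) := hv1.continuous
  have hn2 : 2 ≤ n := by omega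
  have hnu : (0 : ℝ) < (n : ℝ) / 2 - 1 := by
    have : (3 : ℝ) ≤ n := by exact_mod_cast hn
    linarith
  have hn0 : (0 : ℝ) < (n : ℝ) / 2 := by linarith
  have hw : Continuous fun θ => wt n B s θ :=
    (continuous_wt hn2 B).comp (Continuous.prodMk continuous_const continuous_id)
  -- the primitive
  have hprim : ∀ θ ∈ Ioo (0 : ℝ) 1, HasDerivAt
      (fun θ : ℝ => θ ^ ((n : ℝ) / 2) * (Real.exp (-(B * s * (1 - θ) / 2)) * deriv v (θ * s)))
      (-(1 / 4) * (wt n B s θ * Lr n B v (θ * s))) θ := by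
    intro θ hθ
    have h1 : HasDerivAt (fun θ : ℝ => θ ^ ((n : ℝ) / 2)) ((n : ℝ) / 2 * θ ^ ((n : ℝ) / 2 - 1)) θ :=
      Real.hasDerivAt_rpow_const (Or.inl hθ.1.ne')
    have h2 : HasDerivAt (fun θ : ℝ => -(B * s * (1 - θ) / 2)) (B * s / 2) θ := by
      have := (((hasDerivAt_id θ).const_sub 1).const_mul (B * s)).div_const 2 |>.neg
      refine this.congr_deriv ?_
      ring
    have h3 : HasDerivAt (fun θ : ℝ => deriv v (θ * s)) (s * deriv (deriv v) (θ * s)) θ := by
      have h5 : HasDerivAt (deriv v) (deriv (deriv v) (θ * s)) (θ * s) :=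
        (hv1.differentiable (by norm_num) _).hasDerivAt
      have h6 : HasDerivAt (fun θ : ℝ => θ * s) s θ := by
        simpa using (hasDerivAt_id θ).mul_const s
      refine (h5.comp θ h6).congr_deriv ?_
      ring
    have h4 := h1.mul (h2.exp.mul h3)
    refine h4.congr_deriv ?_
    unfold wt Lr
    have e : θ ^ ((n : ℝ) / 2) = θ ^ ((n : ℝ) / 2 - 1) * θ := by
      nth_rewrite 3 [← Real.rpow_one θ]
      rw [← Real.rpow_add hθ.1]
      congr 1
      ring
    rw [e]
    simp only [Pi.mul_apply]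
    ring
  have hcont : ContinuousOn (fun θ : ℝ => θ ^ ((n : ℝ) / 2) *
      (Real.exp (-(B * s * (1 - θ) / 2)) * deriv v (θ * s))) (Icc 0 1) := by
    have h1 : Continuous fun θ : ℝ => θ ^ ((n : ℝ) / 2) := Real.continuous_rpow_const hn0.le
    exact (h1.mul (Continuous.mul (by fun_prop) (hvc.comp (by fun_prop)))).continuousOn
  have hLc : Continuous (Lr n B v) := by
    unfold Lr
    fun_prop
  have hint : IntervalIntegrable (fun θ => -(1 / 4) * (wt n B s θ * Lr n B v (θ * s))) volume 0 1 :=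
    (continuous_const.mul (hw.mul (hLc.comp (by fun_prop)))).intervalIntegrable _ _
  have h := intervalIntegral.integral_eq_sub_of_hasDerivAt_of_le zero_le_one hcont hprim hint
  rw [intervalIntegral.integral_const_mul] at h
  unfold Aop
  rw [Real.zero_rpow hn0.ne', Real.one_rpow] at h
  simp only [sub_self, mul_zero, zero_div, neg_zero, Real.exp_zero, one_mul, zero_mul, sub_zero] at h
  linarith

end Pool.Agent.W800.AC
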