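import Pool.Agent.W800.AC.Ineq

set_option autoImplicit false
open MeasureTheory Filter Topology Set Metric
open scoped ContDiff

namespace Pool.Agent.W800.AC

/-- `r(s) = 1/√(κ² + s²)` -/
noncomputable def rr (κ s : ℝ) : ℝ := (Real.sqrt (1 + (s / κ) ^ 2))⁻¹ / κ

/-- the comparison function -/
noncomputable def phi (β α κ s : ℝ) : ℝ :=
  Real.exp (-(β / 2) * Real.arsinh (s / κ) - α / 2 * s)

section
variable {β α κ : ℝ}

theorem rr_pos (hκ : 0 < κ) (s : ℝ) : 0 < rr κ s := by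
  unfold rr
  have : 0 < 1 + (s / κ) ^ 2 := by positivity
  positivity

theorem rr_sq (hκ : 0 < κ) (s : ℝ) : rr κ s ^ 2 * (κ ^ 2 + s ^ 2) = 1 := by
  unfold rr
  rw [div_pow, inv_pow, Real.sq_sqrt (by positivity)]
  have : 1 + (s / κ) ^ 2 = (κ ^ 2 + s ^ 2) / κ ^ 2 := by
    field_simp
  rw [this]
  have h2 : κ ^ 2 + s ^ 2 ≠ 0 := by positivity
  field_simp

theorem hasDerivAt_rr (hκ : 0 < κ) (s : ℝ) : HasDerivAt (rr κ) (-(s * rr κ s ^ 3)) s := by
  unfold rr
  have h0 : 0 < 1 + (s / κ) ^ 2 := by positivity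
  have h1 : HasDerivAt (fun s : ℝ => 1 + (s / κ) ^ 2) (2 * (s / κ) * (1 / κ)) s := by
    have := (((hasDerivAt_id s).div_const κ).pow 2).const_add 1
    simpa using this
  have h2 := (h1.sqrt h0.ne').inv (Real.sqrt_pos.2 h0).ne'
  have h3 := h2.div_const κ
  refine h3.congr_deriv ?_
  have h4 : Real.sqrt (1 + (s / κ) ^ 2) ^ 2 = 1 + (s / κ) ^ 2 := Real.sq_sqrt h0.le
  have h5 : 0 < Real.sqrt (1 + (s / κ) ^ 2) := Real.sqrt_pos.2 h0
  generalize Real.sqrt (1 + (s / κ) ^ 2) = w at h4 h5 ⊢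
  field_simp

theorem hasDerivAt_phi (hκ : 0 < κ) (s : ℝ) :
    HasDerivAt (phi β α κ) (phi β α κ s * (-(β / 2) * rr κ s - α / 2)) s := by
  unfold phi
  have h1 : HasDerivAt (fun s : ℝ => s / κ) (1 / κ) s := (hasDerivAt_id s).div_const κ
  have h2 := (Real.hasDerivAt_arsinh (s / κ)).comp s h1
  have h3 := ((h2.const_mul (-(β / 2))).sub ((hasDerivAt_id s).const_mul (α / 2))).exp
  refine h3.congr_deriv ?_
  unfold rr
  simp only [Function.comp, mul_one, id, Pi.sub_apply]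
  ring

theorem deriv_phi (hκ : 0 < κ) : deriv (phi β α κ) =
    fun s => phi β α κ s * (-(β / 2) * rr κ s - α / 2) :=
  funext fun s => (hasDerivAt_phi hκ s).deriv

theorem hasDerivAt_phi' (hκ : 0 < κ) (s : ℝ) :
    HasDerivAt (deriv (phi β α κ)) (phi β α κ s * ((-(β / 2) * rr κ s - α / 2) ^ 2 +
      β / 2 * (s * rr κ s ^ 3))) s := by
  rw [deriv_phi hκ]
  have h1 := (hasDerivAt_phi (β := β) (α := α) hκ s).mul
    (((hasDerivAt_rr hκ s).const_mul (-(β / 2))).sub_const (α / 2))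
  refine h1.congr_deriv ?_
  ring

theorem contDiff_phi : ContDiff ℝ 2 (phi β α κ) := by
  unfold phi
  refine ContDiff.exp (ContDiff.sub (contDiff_const.mul ?_) (contDiff_const.mul contDiff_id))
  exact Real.contDiff_arsinh.comp (contDiff_id.div_const κ)

theorem phi_pos (s : ℝ) : 0 < phi β α κ s := Real.exp_pos _

/-- the supersolution property -/
theorem Lr_phi {n : ℕ} {B : ℝ} (hκ : 0 < κ) (hβ : 0 ≤ β) (hα : 0 ≤ α) (hB : 0 ≤ B) {s : ℝ}
    (hs : 0 ≤ s) :
    (β * (n - 2 - β) * rr κ s + α * (n - 2 * β) + α * (B - α) * s) * phi β α κ s ≤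
      Lr n B (phi β α κ) s := by
  unfold Lr
  rw [(hasDerivAt_phi' hκ s).deriv, (hasDerivAt_phi hκ s).deriv]
  have hp := phi_pos (β := β) (α := α) (κ := κ) s
  have hr := rr_pos hκ s
  have hr2 := rr_sq hκ s
  set r := rr κ s
  set p := phi β α κ s
  have hsr2 : s ^ 2 * r ^ 2 ≤ 1 := by nlinarith [sq_nonneg κ, sq_nonneg r, mul_nonneg (sq_nonneg r) (sq_nonneg κ)]
  have hsr : s * r ≤ 1 := by
    have h0 : 0 ≤ s * r := mul_nonneg hs hr.le
    nlinarith
  have hsr0 : 0 ≤ s * r := mul_nonneg hs hr.le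
  have key : (β * (n - 2 - β) * r + α * (n - 2 * β) + α * (B - α) * s) ≤
      -(4 * s * ((-(β / 2) * r - α / 2) ^ 2 + β / 2 * (s * r ^ 3))) -
        2 * (n + B * s) * (-(β / 2) * r - α / 2) := by
    have e : -(4 * s * ((-(β / 2) * r - α / 2) ^ 2 + β / 2 * (s * r ^ 3))) -
        2 * (n + B * s) * (-(β / 2) * r - α / 2) -
        (β * (n - 2 - β) * r + α * (n - 2 * β) + α * (B - α) * s) =
        β ^ 2 * r * (1 - s * r) + 2 * α * β * (1 - s * r) + 2 * β * r * (1 - s ^ 2 * r ^ 2) +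
          B * β * (s * r) := by ring
    have h1 : 0 ≤ β ^ 2 * r * (1 - s * r) := mul_nonneg (by positivity) (by linarith)
    have h2 : 0 ≤ 2 * α * β * (1 - s * r) := mul_nonneg (by positivity) (by linarith)
    have h3 : 0 ≤ 2 * β * r * (1 - s ^ 2 * r ^ 2) := mul_nonneg (by positivity) (by linarith)
    have h4 : 0 ≤ B * β * (s * r) := by positivity
    linarith
  have h5 := mul_le_mul_of_nonneg_right key hp.le
  refine h5.trans (le_of_eq ?_)
  ring

theorem rr_ge (hκ : 0 < κ) {s : ℝ} (hs : 0 ≤ s) : 1 / (s + κ) ≤ rr κ s := by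
  have h1 := rr_sq hκ s
  have h2 := rr_pos hκ s
  have h3 : 0 < s + κ := by linarith
  rw [div_le_iff₀ h3]
  by_contra hcon
  rw [not_le] at hcon
  have h4 : 0 ≤ rr κ s * (s + κ) := by positivity
  have h5 : (rr κ s * (s + κ)) ^ 2 < 1 := by nlinarith
  have h6 : rr κ s ^ 2 * (κ ^ 2 + s ^ 2) ≤ (rr κ s * (s + κ)) ^ 2 := by
    have : 0 ≤ rr κ s ^ 2 * (2 * s * κ) := by positivity
    nlinarith
  linarith

end

end Pool.Agent.W800.AC
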