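import Pool.Agent.W800.AC.Exist

set_option autoImplicit false
open MeasureTheory Filter Topology Set Metric
open scoped ContDiff

namespace Pool.Agent.W800.AC

theorem Aop_const_mul {n : ℕ} {B : ℝ} (c : ℝ) (g : ℝ → ℝ) (s : ℝ) :
    Aop n B (fun t => c * g t) s = c * Aop n B g s := by
  unfold Aop
  have : ∀ θ, wt n B s θ * (c * g (θ * s)) = c * (wt n B s θ * g (θ * s)) := fun θ => by ring
  simp_rw [this]
  rw [intervalIntegral.integral_const_mul]
  ring

section
variable {n : ℕ} {B K l m : ℝ}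

theorem contDiff_int_Aop (hn : 3 ≤ n) {G : ℝ → ℝ} (hG : ContDiff ℝ 1 G) :
    ContDiff ℝ 2 (fun s => ∫ σ in s..1, Aop n B G σ) ∧
      ∀ s, deriv (fun s => ∫ σ in s..1, Aop n B G σ) s = -Aop n B G s := by
  have hn2 : 2 ≤ n := by omega
  have hA := contDiff_Aop hn2 B hG
  have hAc := hA.continuous
  have hd : ∀ s, HasDerivAt (fun s => ∫ σ in s..1, Aop n B G σ) (-Aop n B G s) s := fun s =>
    intervalIntegral.integral_hasDerivAt_left (hAc.intervalIntegrable _ _)
      (hAc.stronglyMeasurableAtFilter _ _) hAc.continuousAt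
  have e : deriv (fun s => ∫ σ in s..1, Aop n B G σ) = fun s => -Aop n B G s :=
    funext fun s => (hd s).deriv
  refine ⟨?_, fun s => (hd s).deriv⟩
  rw [show (2 : WithTop ℕ∞) = 1 + 1 by norm_num, contDiff_succ_iff_deriv]
  refine ⟨fun s => (hd s).differentiableAt, by simp, ?_⟩
  rw [e]
  exact hA.neg

theorem radSol_of_fixed (hn : 3 ≤ n) (hm : m < 1) {U : ℝ → ℝ}
    (hU : Continuous U) (hU0 : ∀ t, 0 ≤ U t) (hUm : ∀ t, U t ≤ m)
    (hfix : ∀ s, U s = TT n B K l U s) :
    ∃ U₂ : ℝ → ℝ, RadSol n B K l U₂ ∧ ∀ s ∈ Icc (0 : ℝ) 1, U₂ s = U s := by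
  have hn2 : 2 ≤ n := by omega
  have hU1 : ∀ t, U t < 1 := fun t => lt_of_le_of_lt (hUm t) hm
  set g0 : ℝ → ℝ := fun t => ff K (U t) with hg0
  have hg0c : Continuous g0 := cont_ffW (K := K) hU hm hUm
  set A0 := Aop n B g0 with hA0
  have hA0c : Continuous A0 := continuous_Aop hn2 B hg0c
  have hUd : ∀ s ∈ Ioo (0 : ℝ) 1, HasDerivAt U (-(l * A0 s)) s := by
    intro s hs
    have h1 : HasDerivAt (fun s => l * ∫ σ in s..1, A0 σ) (l * (-A0 s)) s :=
      (intervalIntegral.integral_hasDerivAt_left (hA0c.intervalIntegrable _ _)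
        (hA0c.stronglyMeasurableAtFilter _ _) hA0c.continuousAt).const_mul l
    have h2 : U =ᶠ[𝓝 s] fun s => l * ∫ σ in s..1, A0 σ := by
      filter_upwards [Ioo_mem_nhds hs.1 hs.2] with t ht
      rw [hfix t]
      unfold TT
      rw [cl_of_mem ⟨ht.1.le, ht.2.le⟩]
    refine (h1.congr_of_eventuallyEq h2).congr_deriv ?_
    ring
  set D : ℝ → ℝ := fun s => K / (1 - U (cl s)) * (-(l * A0 (cl s))) with hD
  have hDc : Continuous D := by
    have h1 : Continuous fun s => 1 - U (cl s) := continuous_const.sub (hU.comp continuous_cl)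
    have h2 : ∀ s, 1 - U (cl s) ≠ 0 := fun s => by
      have := hU1 (cl s)
      linarith
    exact (continuous_const.div h1 h2).mul ((continuous_const.mul (hA0c.comp continuous_cl)).neg)
  set gt : ℝ → ℝ := fun s => ff K (U 0) + ∫ t in (0 : ℝ)..s, D t with hgt
  have hgtd : ∀ s, HasDerivAt gt (D s) s := fun s =>
    (intervalIntegral.integral_hasDerivAt_right (hDc.intervalIntegrable _ _)
      (hDc.stronglyMeasurableAtFilter _ _) hDc.continuousAt).const_add _
  have hgtC : ContDiff ℝ 1 gt := by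
    rw [contDiff_one_iff_deriv]
    refine ⟨fun s => (hgtd s).differentiableAt, ?_⟩
    have : deriv gt = D := funext fun s => (hgtd s).deriv
    rw [this]; exact hDc
  have hgteq : ∀ s ∈ Icc (0 : ℝ) 1, gt s = g0 s := by
    intro s hs
    have h1 : ∀ t ∈ Ioo (0 : ℝ) s, HasDerivAt g0 (D t) t := by
      intro t ht
      have ht' : t ∈ Ioo (0 : ℝ) 1 := ⟨ht.1, lt_of_lt_of_le ht.2 hs.2⟩
      have h2 := (hasDerivAt_ff K (hU1 t)).comp t (hUd t ht')
      refine h2.congr_deriv ?_
      simp only [hD]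
      rw [cl_of_mem ⟨ht'.1.le, ht'.2.le⟩]
    have h3 := intervalIntegral.integral_eq_sub_of_hasDerivAt_of_le hs.1 hg0c.continuousOn h1
      (hDc.intervalIntegrable _ _)
    simp only [hgt]
    rw [h3]
    simp only [hg0]
    ring
  set G : ℝ → ℝ := fun t => l * gt t with hG
  have hGC : ContDiff ℝ 1 G := contDiff_const.mul hgtC
  obtain ⟨hc2, hder⟩ := contDiff_int_Aop (B := B) hn hGC
  set U₂ : ℝ → ℝ := fun s => ∫ σ in s..1, Aop n B G σ with hU₂
  have hAeq : ∀ σ ∈ Icc (0 : ℝ) 1, Aop n B G σ = l * A0 σ := by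
    intro σ hσ
    rw [hA0, ← Aop_const_mul]
    exact Aop_congr hσ fun t ht => by
      simp only [hG]
      rw [hgteq t ht]
  have hUeq : ∀ s ∈ Icc (0 : ℝ) 1, U₂ s = U s := by
    intro s hs
    rw [hfix s]
    unfold TT
    rw [cl_of_mem hs, ← intervalIntegral.integral_const_mul]
    refine intervalIntegral.integral_congr fun σ hσ => ?_
    rw [uIcc_of_le hs.2] at hσ
    exact hAeq σ ⟨hs.1.trans hσ.1, hσ.2⟩
  refine ⟨U₂, ⟨hc2, ?_, ?_, ?_, ?_⟩, hUeq⟩
  · intro s hs; rw [hUeq s hs]; exact hU0 s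
  · intro s hs; rw [hUeq s hs]; exact hU1 s
  · simp [hU₂]
  · intro s hs
    have e1 : deriv U₂ = fun s => -Aop n B G s := funext hder
    have e2 : deriv (deriv U₂) s = -deriv (Aop n B G) s := by
      rw [e1]
      have : (fun s => -Aop n B G s) = -(Aop n B G) := rfl
      rw [this, deriv.neg]
    unfold Lr
    rw [e2, e1]
    have h1 := Aop_identity hn B hGC s
    rw [hUeq s hs]
    have h2 : G s = l * ff K (U s) := by
      simp only [hG]
      rw [hgteq s hs]
    rw [← h2, ← h1]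
    ring

/-- existence of a radial solution below a radial supersolution -/
theorem exists_of_super (hn : 3 ≤ n) (hB : 0 ≤ B) (hK : 0 ≤ K) (hl : 0 ≤ l) {V : ℝ → ℝ}
    (hV : ContDiff ℝ 2 V) (hV0 : ∀ s ∈ Icc (0 : ℝ) 1, 0 ≤ V s) (hV1 : ∀ s ∈ Icc (0 : ℝ) 1, V s < 1)
    (hsup : ∀ s ∈ Icc (0 : ℝ) 1, l * ff K (V s) ≤ Lr n B V s) :
    ∃ U : ℝ → ℝ, RadSol n B K l U ∧ ∀ s ∈ Icc (0 : ℝ) 1, U s ≤ V s := by
  have hn2 : 2 ≤ n := by omega
  have hVc := hV.continuous
  have hne : (Icc (0 : ℝ) 1).Nonempty := ⟨0, le_rfl, zero_le_one⟩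
  obtain ⟨s0, hs0, hmax⟩ := isCompact_Icc.exists_isMaxOn hne hVc.continuousOn
  set m := V s0 with hm
  have hm1 : m < 1 := hV1 s0 hs0
  have hVm : ∀ s ∈ Icc (0 : ℝ) 1, V s ≤ m := fun s hs => hmax hs
  set Vc : ℝ → ℝ := fun s => V (cl s) with hVcdef
  have hVcc : Continuous Vc := hVc.comp continuous_cl
  have hsup' : ∀ s, TT n B K l Vc s ≤ Vc s := by
    intro s
    have hs := cl_mem s
    have hV1c : ContDiff ℝ 1 (deriv V) := by
      have := (contDiff_succ_iff_deriv (n := 1) (f := V)).1 (by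
        rw [show ((1 : WithTop ℕ∞) + 1) = 2 by norm_num]; exact hV)
      exact this.2.2
    have hLc : Continuous (Lr n B V) := by
      have h2 : Continuous (deriv (deriv V)) := hV1c.continuous_deriv (by norm_num)
      have h1 : Continuous (deriv V) := hV1c.continuous
      unfold Lr
      fun_prop
    have e1 : V (cl s) = V 1 + ∫ σ in (cl s)..1, Aop n B (Lr n B V) σ := by
      have h1 : ∫ σ in (cl s)..1, deriv V σ = V 1 - V (cl s) :=
        intervalIntegral.integral_deriv_eq_sub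
          (fun x _ => hV.differentiable (by norm_num) x) (hV1c.continuous.intervalIntegrable _ _)
      have h2 : ∫ σ in (cl s)..1, deriv V σ = - ∫ σ in (cl s)..1, Aop n B (Lr n B V) σ := by
        rw [← intervalIntegral.integral_neg]
        exact intervalIntegral.integral_congr fun σ _ => deriv_eq_Aop hn B hV σ
      linarith
    show TT n B K l Vc s ≤ V (cl s)
    rw [e1]
    have hV10 := hV0 1 ⟨zero_le_one, le_rfl⟩
    have hcf : Continuous fun t => ff K (Vc t) :=
      cont_ffW (K := K) hVcc hm1 fun t => hVm _ (cl_mem t)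
    have h3 : TT n B K l Vc s ≤ ∫ σ in (cl s)..1, Aop n B (Lr n B V) σ := by
      unfold TT
      rw [← intervalIntegral.integral_const_mul]
      refine intervalIntegral.integral_mono_on hs.2
        (((continuous_const.mul (continuous_Aop hn2 B hcf))).intervalIntegrable _ _)
        ((continuous_Aop hn2 B hLc).intervalIntegrable _ _) fun σ hσ => ?_
      rw [← Aop_const_mul]
      refine Aop_mono hn2 B (continuous_const.mul hcf) hLc ⟨hs.1.trans hσ.1, hσ.2⟩ fun t ht => ?_
      show l * ff K (V (cl t)) ≤ Lr n B V t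
      rw [cl_of_mem ht]
      exact hsup t ht
    linarith
  obtain ⟨U, hU, hU0, hUV, hfix⟩ := fixed_point (n := n) (B := B) (K := K) (l := l) hn hB hK hl hm1
    hVcc (fun t => hV0 _ (cl_mem t)) (fun t => hVm _ (cl_mem t)) hsup'
  obtain ⟨U₂, hR, hE⟩ := radSol_of_fixed (n := n) (B := B) (K := K) (l := l) hn hm1 hU hU0
    (fun t => (hUV t).trans (hVm _ (cl_mem t))) hfix
  refine ⟨U₂, hR, fun s hs => ?_⟩
  rw [hE s hs]
  have := hUV s
  simp only [hVcdef] at this
  rwa [cl_of_mem hs] at this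

end

end Pool.Agent.W800.AC
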