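import Pool.Agent.W800.AC.Phi

set_option autoImplicit false
open MeasureTheory Filter Topology Set Metric
open scoped ContDiff

namespace Pool.Agent.W800.AC

/-- strict stability of all radial solutions that stay away from `1`, with a common positive
supersolution of the linearised equations -/
def StabHyp (n : ℕ) (B K : ℝ) : Prop :=
  ∀ δ > 0, ∃ φ : ℝ → ℝ, ContDiff ℝ 2 φ ∧ (∀ s, 0 < φ s) ∧
    ∀ (l : ℝ) (U : ℝ → ℝ), 0 < l → RadSol n B K l U → (∀ s ∈ Icc (0 : ℝ) 1, U s ≤ 1 - δ) →
      ∀ s ∈ Icc (0 : ℝ) 1, 2 * (l * (K / (1 - U s))) * φ s ≤ Lr n B φ s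

section
variable {n : ℕ} {B K l m : ℝ}

theorem RadSol.l_le (hn : 3 ≤ n) (hB : 0 ≤ B) (hK : 0 ≤ K) (hl : 0 ≤ l) {U : ℝ → ℝ}
    (h : RadSol n B K l U) : l * Th n B 1 ≤ 1 := by
  have := h.key hn hB hK hl (s := 1) ⟨zero_le_one, le_rfl⟩
  rw [h.bdry] at this
  unfold ff at this
  simpa using this

theorem RadSol.fprime_le (hn : 3 ≤ n) (hB : 0 ≤ B) (hK : 0 ≤ K) (hl : 0 ≤ l) {U : ℝ → ℝ}
    (h : RadSol n B K l U) {s : ℝ} (hs : s ∈ Icc (0 : ℝ) 1) :
    l * (K / (1 - U s)) * (Th n B s * ff K (U s)) ≤ K := by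
  have h1 := h.key hn hB hK hl hs
  have h2 : 0 < 1 - U s := by linarith [h.lt_one s hs]
  have e : l * (K / (1 - U s)) * (Th n B s * ff K (U s)) =
      K / (1 - U s) * (l * Th n B s * ff K (U s)) := by ring
  rw [e]
  calc K / (1 - U s) * (l * Th n B s * ff K (U s)) ≤ K / (1 - U s) * (1 - U s) :=
        mul_le_mul_of_nonneg_left h1 (by positivity)
    _ = K := by field_simp

/-- high dimension, no drift -/
theorem stabHyp_high (hn : 3 ≤ n) (hK : 0 < K) (hnK : 32 * K * n ≤ ((n : ℝ) - 2) ^ 2) :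
    StabHyp n 0 K := by
  intro δ hδ
  have hnr : (3 : ℝ) ≤ n := by exact_mod_cast hn
  -- κ ≤ δ (n-2)² / (16 K · 2n)
  set κ : ℝ := δ * ((n : ℝ) - 2) ^ 2 / (32 * K * n) with hκdef
  have hκ : 0 < κ := by
    have : 0 < (n : ℝ) - 2 := by linarith
    positivity
  refine ⟨phi (((n : ℝ) - 2) / 2) 0 κ, contDiff_phi, phi_pos, fun l U hl h hU s hs => ?_⟩
  have h1 := Lr_phi (n := n) (B := 0) (β := ((n : ℝ) - 2) / 2) (α := 0) hκ (by linarith) le_rfl le_rfl hs.1
  refine le_trans (mul_le_mul_of_nonneg_right ?_ (phi_pos s).le) h1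
  have e1 : (((n : ℝ) - 2) / 2 * (n - 2 - ((n : ℝ) - 2) / 2) * rr κ s +
      0 * (n - 2 * (((n : ℝ) - 2) / 2)) + 0 * (0 - 0) * s) = ((n : ℝ) - 2) ^ 2 / 4 * rr κ s := by ring
  rw [e1]
  have hr := rr_ge hκ hs.1
  have hU1 := hU s hs
  have hpos : 0 < 1 - U s := by linarith
  by_cases hc : s < κ
  · -- near the origin
    have hl2 : l ≤ 2 * n := by
      have := h.l_le hn le_rfl hK.le hl.le
      rw [Th_B0] at this
      field_simp at this
      linarith
    have h2 : l * (K / (1 - U s)) ≤ 2 * n * (K / δ) := by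
      have : K / (1 - U s) ≤ K / δ := div_le_div_of_nonneg_left hK.le hδ (by linarith)
      exact mul_le_mul hl2 this (by positivity) (by linarith)
    have h3 : 1 / (2 * κ) ≤ rr κ s := by
      refine le_trans ?_ hr
      apply one_div_le_one_div_of_le <;> linarith [hs.1]
    have h4 : ((n : ℝ) - 2) ^ 2 / 4 * (1 / (2 * κ)) = 4 * n * (K / δ) := by
      rw [hκdef]
      have : (n : ℝ) - 2 ≠ 0 := by linarith
      field_simp
      ring
    have h5 : ((n : ℝ) - 2) ^ 2 / 4 * (1 / (2 * κ)) ≤ ((n : ℝ) - 2) ^ 2 / 4 * rr κ s :=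
      mul_le_mul_of_nonneg_left h3 (by positivity)
    linarith
  · rw [not_lt] at hc
    have hs0 : 0 < s := lt_of_lt_of_le hκ hc
    have h2 := h.fprime_le hn le_rfl hK.le hl.le hs
    rw [Th_B0] at h2
    have h3 := one_le_ff hK.le (h.nonneg s hs) (h.lt_one s hs)
    set X := l * (K / (1 - U s)) with hX
    have hX0 : 0 ≤ X := by positivity
    have h4 : X * (s / (2 * n)) ≤ K := by
      refine le_trans ?_ h2
      refine mul_le_mul_of_nonneg_left ?_ hX0
      have : 0 ≤ s / (2 * n) := by positivity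
      nlinarith
    have h5 : X * s ≤ 2 * n * K := by
      have : X * (s / (2 * n)) * (2 * n) ≤ K * (2 * n) := mul_le_mul_of_nonneg_right h4 (by positivity)
      have e : X * (s / (2 * n)) * (2 * n) = X * s := by field_simp
      linarith
    have h6 : 1 / (2 * s) ≤ rr κ s := by
      refine le_trans ?_ hr
      apply one_div_le_one_div_of_le <;> linarith
    have h7 : ((n : ℝ) - 2) ^ 2 / 4 * (1 / (2 * s)) ≤ ((n : ℝ) - 2) ^ 2 / 4 * rr κ s :=
      mul_le_mul_of_nonneg_left h6 (by positivity)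
    refine le_trans ?_ h7
    have e2 : ((n : ℝ) - 2) ^ 2 / 4 * (1 / (2 * s)) = ((n : ℝ) - 2) ^ 2 / (8 * s) := by
      field_simp
      ring
    rw [e2, le_div_iff₀ (by positivity)]
    nlinarith

/-- dimension three, large linear drift -/
theorem stabHyp_drift (hK : 0 < K) (hB : Real.log (1 + B / 3) = 4 * K * Real.exp 96) (hB0 : 0 < B) :
    StabHyp 3 B K := by
  intro δ hδ
  have hn : 3 ≤ 3 := le_rfl
  set lm : ℝ := 2 * B with hlm
  -- bound for `l`
  have hlog1 : 1 ≤ Real.exp 96 := Real.one_le_exp (by norm_num)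
  have hlogpos : 0 < Real.log (1 + B / 3) := by rw [hB]; positivity
  have hl_le : ∀ (l : ℝ) (U : ℝ → ℝ), 0 < l → RadSol 3 B K l U → l * (4 * K * Real.exp 96) ≤ 2 * B := by
    intro l U hl h
    have h1 := h.l_le hn hB0.le hK.le hl.le
    rw [← Th_ge hn hB0 zero_le_one] at h1
    have e : 1 + B * 1 / ((3 : ℕ) : ℝ) = 1 + B / 3 := by norm_num
    rw [e, hB] at h1
    have h2 : l * (1 / (2 * B) * (4 * K * Real.exp 96)) * (2 * B) ≤ 1 * (2 * B) :=
      mul_le_mul_of_nonneg_right h1 (by positivity)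
    have e2 : l * (1 / (2 * B) * (4 * K * Real.exp 96)) * (2 * B) = l * (4 * K * Real.exp 96) := by
      field_simp
    linarith
  set κ : ℝ := δ * Real.exp 96 / (8 * B) with hκdef
  have hκ : 0 < κ := by positivity
  refine ⟨phi (1 / 2) (B / 2) κ, contDiff_phi, phi_pos, fun l U hl h hU s hs => ?_⟩
  have h1 := Lr_phi (n := 3) (B := B) (β := 1 / 2) (α := B / 2) hκ (by norm_num) (by positivity) hB0.le hs.1
  refine le_trans (mul_le_mul_of_nonneg_right ?_ (phi_pos s).le) h1
  have e1 : (1 / 2 * (((3 : ℕ) : ℝ) - 2 - 1 / 2) * rr κ s +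
      B / 2 * (((3 : ℕ) : ℝ) - 2 * (1 / 2)) + B / 2 * (B - B / 2) * s) =
      1 / 4 * rr κ s + B + B ^ 2 / 4 * s := by push_cast; ring
  rw [e1]
  have hr := rr_ge hκ hs.1
  have hrp := rr_pos hκ s
  have hU1 := hU s hs
  have hpos : 0 < 1 - U s := by linarith [h.lt_one s hs]
  have hlb := hl_le l U hl h
  have hE := Real.exp_pos 96
  set X := l * (K / (1 - U s)) with hX
  have hX0 : 0 ≤ X := by positivity
  by_cases hc1 : Real.exp (-96) ≤ 1 - U s
  · -- `U` not close to one
    have h2 : 2 * X ≤ B := by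
      have h3 : K / (1 - U s) ≤ K * Real.exp 96 := by
        rw [div_le_iff₀ hpos]
        have : 1 ≤ Real.exp 96 * (1 - U s) := by
          calc (1 : ℝ) = Real.exp 96 * Real.exp (-96) := by rw [← Real.exp_add]; simp
            _ ≤ Real.exp 96 * (1 - U s) := mul_le_mul_of_nonneg_left hc1 hE.le
        nlinarith
      have h4 : X ≤ l * (K * Real.exp 96) := mul_le_mul_of_nonneg_left h3 hl.le
      linarith
    have h5 : 0 ≤ B ^ 2 / 4 * s := mul_nonneg (by positivity) hs.1
    linarith
  · rw [not_le] at hc1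
    -- `f(U)` is large
    have hf : 96 * K ≤ ff K (U s) := by
      unfold ff
      have : Real.log (1 - U s) ≤ -96 := by
        have := Real.log_le_log hpos hc1.le
        rwa [Real.log_exp] at this
      nlinarith
    have hfp : 0 < ff K (U s) := by
      have := one_le_ff hK.le (h.nonneg s hs) (h.lt_one s hs)
      linarith
    by_cases hc2 : s < κ
    · have h3 : 1 / (2 * κ) ≤ rr κ s := by
        refine le_trans ?_ hr
        apply one_div_le_one_div_of_le <;> linarith [hs.1]
      have h4 : X ≤ l * (K / δ) := by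
        have : K / (1 - U s) ≤ K / δ := div_le_div_of_nonneg_left hK.le hδ (by linarith)
        exact mul_le_mul_of_nonneg_left this hl.le
      have h5 : 1 / 4 * (1 / (2 * κ)) = B / (δ * Real.exp 96) := by
        rw [hκdef]
        field_simp
        norm_num
      have h6 : 2 * (l * (K / δ)) ≤ B / (δ * Real.exp 96) := by
        rw [le_div_iff₀ (by positivity)]
        have e : 2 * (l * (K / δ)) * (δ * Real.exp 96) = 2 * (l * (K * Real.exp 96)) := by
          field_simp
        rw [e]
        linarith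
      have h7 : 0 ≤ B ^ 2 / 4 * s := mul_nonneg (by positivity) hs.1
      have h8 : 1 / 4 * (1 / (2 * κ)) ≤ 1 / 4 * rr κ s := mul_le_mul_of_nonneg_left h3 (by norm_num)
      linarith
    · rw [not_lt] at hc2
      have hs0 : 0 < s := lt_of_lt_of_le hκ hc2
      have h2 := h.fprime_le hn hB0.le hK.le hl.le hs
      rw [← Th_ge hn hB0 hs.1] at h2
      have h6 : 1 / (2 * s) ≤ rr κ s := by
        refine le_trans ?_ hr
        apply one_div_le_one_div_of_le <;> linarith
      -- lower bound of the logarithm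
      have hy : 0 < B * s := mul_pos hB0 hs0
      have hlog : B * s / (3 + B * s) ≤ Real.log (1 + B * s / ((3 : ℕ) : ℝ)) := by
        have e : 1 + B * s / ((3 : ℕ) : ℝ) = (3 + B * s) / 3 := by push_cast; field_simp
        rw [e]
        have h9 := Real.one_sub_inv_le_log_of_pos (x := (3 + B * s) / 3) (by positivity)
        refine le_trans (le_of_eq ?_) h9
        rw [inv_div]
        field_simp
        ring
      set Lg := Real.log (1 + B * s / ((3 : ℕ) : ℝ)) with hLg
      have hLg0 : 0 < Lg := lt_of_lt_of_le (by positivity) hlog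
      -- `X * Lg * 96 ≤ 2 B`
      have h10 : X * Lg * 96 ≤ 2 * B := by
        have h11 : X * (1 / (2 * B) * Lg * (96 * K)) ≤ K := by
          refine le_trans ?_ h2
          refine mul_le_mul_of_nonneg_left ?_ hX0
          exact mul_le_mul_of_nonneg_left hf (by positivity)
        have h12 : X * (1 / (2 * B) * Lg * (96 * K)) * (2 * B / K) ≤ K * (2 * B / K) :=
          mul_le_mul_of_nonneg_right h11 (by positivity)
        have e1 : X * (1 / (2 * B) * Lg * (96 * K)) * (2 * B / K) = X * Lg * 96 := by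
          field_simp
        have e2 : K * (2 * B / K) = 2 * B := by field_simp
        linarith
      have h13 : X * (B * s / (3 + B * s)) * 96 ≤ 2 * B := by
        refine le_trans ?_ h10
        have := mul_le_mul_of_nonneg_left hlog hX0
        linarith
      have h14 : 48 * (X * s) ≤ 3 + B * s := by
        have h15 : X * (B * s / (3 + B * s)) * 96 * (3 + B * s) ≤ 2 * B * (3 + B * s) :=
          mul_le_mul_of_nonneg_right h13 (by positivity)
        have e : X * (B * s / (3 + B * s)) * 96 * (3 + B * s) = 96 * (X * s) * B := by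
          field_simp
        rw [e] at h15
        have h16 : 96 * (X * s) ≤ 2 * (3 + B * s) := by
          have : 96 * (X * s) * B ≤ (2 * (3 + B * s)) * B := by linarith
          exact le_of_mul_le_mul_right this hB0
        linarith
      -- conclude: `2 X ≤ 1/(8 s) + B`
      have h17 : 1 / 4 * (1 / (2 * s)) ≤ 1 / 4 * rr κ s := mul_le_mul_of_nonneg_left h6 (by norm_num)
      have h18 : 2 * X ≤ 1 / 4 * (1 / (2 * s)) + B := by
        have e : 1 / 4 * (1 / (2 * s)) + B = (1 + 8 * B * s) / (8 * s) := by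
          field_simp
          ring
        rw [e, le_div_iff₀ (by positivity)]
        nlinarith
      have h19 : 0 ≤ B ^ 2 / 4 * s := mul_nonneg (by positivity) hs.1
      linarith

end

end Pool.Agent.W800.AC
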