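import Pool.Agent.W800.AC.Cut

set_option autoImplicit false
open MeasureTheory Filter Topology Set Metric Laplacian InnerProductSpace
open scoped ContDiff

namespace Pool.Agent.W800.AC

open Pool.Agent.H947R3

section
variable {n : ℕ} {Ω : Set (E n)} {u : E n → ℝ} {ε : ℝ}

theorem pd_mul {a b : E n → ℝ} {x : E n} (ha : DifferentiableAt ℝ a x)
    (hb : DifferentiableAt ℝ b x) (i : Fin n) :
    pd (fun y => a y * b y) i x = pd a i x * b x + a x * pd b i x := by
  unfold pd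
  have h : HasFDerivAt (fun y => a y * b y) _ x := ha.hasFDerivAt.mul hb.hasFDerivAt
  rw [h.fderiv]
  simp
  ring

theorem pd_sq {a : E n → ℝ} {x : E n} (ha : DifferentiableAt ℝ a x) (i : Fin n) :
    pd (fun y => a y ^ 2) i x = 2 * a x * pd a i x := by
  have : (fun y => a y ^ 2) = fun y => a y * a y := by funext y; ring
  rw [this, pd_mul ha ha]; ring

theorem integrable_sum_pd {a ψ : E n → ℝ} (hΩ : IsOpen Ω) (ha : ContDiffOn ℝ 2 a Ω)
    (hψ : ContDiff ℝ 1 ψ) (hc : HasCompactSupport ψ) (hs : tsupport ψ ⊆ Ω) :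
    Integrable (fun x => ∑ i, pd a i x * pd ψ i x) := by
  refine integrable_finsetSum _ fun i _ => ?_
  exact integrable_mul_of_tsupport hΩ (contDiffOn_one_pd hΩ ha i).continuousOn (continuous_pd hψ i)
      (hasCompactSupport_pd hc i) ((tsupport_pd_subset ψ i).trans hs)

/-- stability tested with `Θ(u) η`. -/
theorem stab_ineq (h : Adm Ω u) (hε : 0 < ε) {V : E n → ℝ}
    (hst : Stable Ω V) {η : E n → ℝ} (hη : ContDiff ℝ 2 η) :
    ∫ x, V x * (cmp Ω (Tf ε) u x * η x) ^ 2 ≤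
      (∫ x, -(Δ u x * (cmp Ω (Pf ε) u x * η x ^ 2))) +
        2 / 3 * ε * (∫ x, -(Δ (fun y => η y ^ 2) x * cmp Ω (Gf ε) u x)) +
        ∫ x, (cmp Ω (Tf ε) u x) ^ 2 * ∑ i, (pd η i x) ^ 2 := by
  have hη1 : ContDiff ℝ 1 η := hη.of_le (by norm_num)
  have hη2 : ContDiff ℝ 2 (fun y => η y ^ 2) := hη.pow 2
  -- the three compositions
  have hT0 : ∀ t, 0 < t → t < ε → Tf ε t = 0 := fun t _ ht => Tf_zero ht.le
  have hP0 : ∀ t, 0 < t → t < ε → Pf ε t = 0 := fun t _ ht => Pf_zero hε ht.le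
  have hG0 : ∀ t, 0 < t → t < ε → Gf ε t = 0 := fun t h0 ht => Gf_zero hε h0.le ht.le
  have hTd := contDiffOn_of_hasDerivAt (hasDerivAt_Tf hε) (continuous_dTf hε) (Ioo 0 1)
  have hPd := contDiffOn_of_hasDerivAt (hasDerivAt_Pf hε) ((continuous_dTf hε).pow 2) (Ioo 0 1)
  have hGd := contDiffOn_of_hasDerivAt (hasDerivAt_Gf hε) ((continuous_qf hε).pow 3) (Ioo 0 1)
  have hT := h.contDiff_cmp hε hT0 hTd
  have hP := h.contDiff_cmp hε hP0 hPd
  have hG := h.contDiff_cmp hε hG0 hGd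
  have hTc := h.hasCompactSupport_cmp hε hT0
  have hPc := h.hasCompactSupport_cmp hε hP0
  have hGc := h.hasCompactSupport_cmp hε hG0
  have hTs := h.tsupport_cmp_subset hε hT0
  have hPs := h.tsupport_cmp_subset hε hP0
  have hGs := h.tsupport_cmp_subset hε hG0
  set T := cmp Ω (Tf ε) u with hTdef
  set P := cmp Ω (Pf ε) u with hPdef
  set G := cmp Ω (Gf ε) u with hGdef
  have hφ : ContDiff ℝ 1 (fun x => T x * η x) := hT.mul hη1
  have hφc : HasCompactSupport (fun x => T x * η x) := hTc.mul_right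
  have hφs : tsupport (fun x => T x * η x) ⊆ Ω := (tsupport_mul_subset_left).trans hTs
  have hψ : ContDiff ℝ 1 (fun x => P x * η x ^ 2) := hP.mul (hη1.pow 2)
  have hψc : HasCompactSupport (fun x => P x * η x ^ 2) := hPc.mul_right
  have hψs : tsupport (fun x => P x * η x ^ 2) ⊆ Ω := (tsupport_mul_subset_left).trans hPs
  have st := hst _ hφ hφc hφs
  have e1 := ibp h.opn h.c2 hψ hψc hψs
  have e2 := ibp h.opn hη2.contDiffOn hG hGc hGs
  have i1 := integrable_sum_pd h.opn h.c2 hψ hψc hψs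
  have i2 := integrable_sum_pd h.opn hη2.contDiffOn hG hGc hGs
  have i3 : Integrable (fun x => (T x) ^ 2 * ∑ i, (pd η i x) ^ 2) := by
    have hc : Continuous (fun x => (T x) ^ 2 * ∑ i, (pd η i x) ^ 2) :=
      (hT.continuous.pow 2).mul (continuous_finsetSum _ fun i _ => (continuous_pd hη1 i).pow 2)
    apply hc.integrable_of_hasCompactSupport
    have hTc2 : HasCompactSupport (fun x => T x ^ 2) := by
      have : HasCompactSupport (fun x => T x * T x) := hTc.mul_right
      simpa [sq] using this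
    exact hTc2.mul_right
  refine st.trans ?_
  rw [integral_neg, ← e1, integral_neg, ← e2, ← integral_const_mul]
  have a1 := integral_add i1 (i2.const_mul (2 / 3 * ε))
  have a2 := integral_add (i1.add (i2.const_mul (2 / 3 * ε))) i3
  simp only [Pi.add_apply] at a2
  rw [← a1, ← a2]
  refine le_of_eq (integral_congr_ae (Eventually.of_forall fun x => ?_))
  simp only
  rw [Finset.mul_sum, Finset.mul_sum, ← Finset.sum_add_distrib, ← Finset.sum_add_distrib]
  refine Finset.sum_congr rfl fun i _ => ?_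
  have hTx : DifferentiableAt ℝ T x := hT.differentiable (by norm_num) x
  have hPx : DifferentiableAt ℝ P x := hP.differentiable (by norm_num) x
  have hηx : DifferentiableAt ℝ η x := hη1.differentiable (by norm_num) x
  have hη2x : DifferentiableAt ℝ (fun y => η y ^ 2) x := hη2.differentiable (by norm_num) x
  rw [pd_mul hTx hηx, pd_mul hPx hη2x, pd_sq hηx]
  by_cases hx : x ∈ Ω
  · have p1 : pd T i x = dTf ε (u x) * pd u i x := h.pd_cmp hx (hasDerivAt_Tf hε _) i
    have p2 : pd P i x = (dTf ε (u x)) ^ 2 * pd u i x := h.pd_cmp hx (hasDerivAt_Pf hε _) i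
    have p3 : pd G i x = (qf ε (u x)) ^ 3 * pd u i x := h.pd_cmp hx (hasDerivAt_Gf hε _) i
    have v1 : T x = Tf ε (u x) := by simp [hTdef, Pool.Agent.H947R3.cmp, hx]
    have v2 : P x = Pf ε (u x) := by simp [hPdef, Pool.Agent.H947R3.cmp, hx]
    have id := Tf_identity hε (u x)
    rw [p1, p2, p3, v1, v2]
    have id' : Tf ε (u x) * dTf ε (u x) = Pf ε (u x) + 2 / 3 * ε * (qf ε (u x)) ^ 3 := by linarith
    linear_combination (2 * η x * pd η i x * pd u i x) * id'
  · have p1 : pd T i x = 0 := pd_eq_zero_of_notMem (fun hh => hx (hTs hh)) i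
    have p2 : pd P i x = 0 := pd_eq_zero_of_notMem (fun hh => hx (hPs hh)) i
    have p3 : pd G i x = 0 := pd_eq_zero_of_notMem (fun hh => hx (hGs hh)) i
    have v1 : T x = 0 := by simp [hTdef, Pool.Agent.H947R3.cmp, hx]
    have v2 : P x = 0 := by simp [hPdef, Pool.Agent.H947R3.cmp, hx]
    rw [p1, p2, p3, v1, v2]
    ring

/-- the weak inequality for `Ψ(u)`. -/
theorem weak_ineq (h : Adm Ω u) (hε : 0 < ε) {ζ : E n → ℝ} (hζ : ContDiff ℝ 2 ζ)
    (hζ0 : ∀ x, 0 ≤ ζ x) :
    ∫ x, -(Δ ζ x * cmp Ω (Pf ε) u x) ≤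
      ∫ x, -(Δ u x * (cmp Ω (fun t => (dTf ε t) ^ 2) u x * ζ x)) := by
  have hζ1 : ContDiff ℝ 1 ζ := hζ.of_le (by norm_num)
  have hP0 : ∀ t, 0 < t → t < ε → Pf ε t = 0 := fun t _ ht => Pf_zero hε ht.le
  have hD0 : ∀ t, 0 < t → t < ε → (fun t => (dTf ε t) ^ 2) t = 0 := fun t _ ht => by
    simp [dTf_zero hε ht.le]
  have hPd := contDiffOn_of_hasDerivAt (hasDerivAt_Pf hε) ((continuous_dTf hε).pow 2) (Ioo 0 1)
  have hDd := contDiffOn_of_hasDerivAt (hasDerivAt_dTf_sq hε) (continuous_ddf hε) (Ioo 0 1)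
  have hP := h.contDiff_cmp hε hP0 hPd
  have hD := h.contDiff_cmp hε hD0 hDd
  have hPc := h.hasCompactSupport_cmp hε hP0
  have hDc := h.hasCompactSupport_cmp hε hD0
  have hPs := h.tsupport_cmp_subset hε hP0
  have hDs := h.tsupport_cmp_subset hε hD0
  set P := cmp Ω (Pf ε) u with hPdef
  set D := cmp Ω (fun t => (dTf ε t) ^ 2) u with hDdef
  have hψ : ContDiff ℝ 1 (fun x => D x * ζ x) := hD.mul hζ1
  have hψc : HasCompactSupport (fun x => D x * ζ x) := hDc.mul_right
  have hψs : tsupport (fun x => D x * ζ x) ⊆ Ω := (tsupport_mul_subset_left).trans hDs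
  have e1 := ibp h.opn h.c2 hψ hψc hψs
  have e2 := ibp h.opn hζ.contDiffOn hP hPc hPs
  have i1 := integrable_sum_pd h.opn h.c2 hψ hψc hψs
  have i2 := integrable_sum_pd h.opn hζ.contDiffOn hP hPc hPs
  rw [integral_neg, ← e2, integral_neg, ← e1]
  refine integral_mono i2 i1 fun x => Finset.sum_le_sum fun i _ => ?_
  have hDx : DifferentiableAt ℝ D x := hD.differentiable (by norm_num) x
  have hζx : DifferentiableAt ℝ ζ x := hζ1.differentiable (by norm_num) x
  rw [pd_mul hDx hζx]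
  by_cases hx : x ∈ Ω
  · have p1 : pd D i x = ddf ε (u x) * pd u i x := h.pd_cmp hx (hasDerivAt_dTf_sq hε _) i
    have p2 : pd P i x = (dTf ε (u x)) ^ 2 * pd u i x := h.pd_cmp hx (hasDerivAt_Pf hε _) i
    have v1 : D x = (dTf ε (u x)) ^ 2 := by simp [hDdef, Pool.Agent.H947R3.cmp, hx]
    rw [p1, p2, v1]
    have h1 := ddf_nonneg hε (u x)
    have h2 := hζ0 x
    have h3 : 0 ≤ ddf ε (u x) * (pd u i x) ^ 2 * ζ x := by positivity
    nlinarith
  · have p1 : pd D i x = 0 := pd_eq_zero_of_notMem (fun hh => hx (hDs hh)) i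
    have p2 : pd P i x = 0 := pd_eq_zero_of_notMem (fun hh => hx (hPs hh)) i
    have v1 : D x = 0 := by simp [hDdef, Pool.Agent.H947R3.cmp, hx]
    rw [p1, p2, v1]
    simp

end

end Pool.Agent.W800.AC
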